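import Pool.Agent.Lib.MP_b2bfca_co.KX.Data8

/-!
# `kappa 8 ≤ 120`
-/

set_option autoImplicit false
set_option maxRecDepth 100000

namespace Pool.Agent.Lib.MP_b2bfca_co.KX.D8

private lemma g0 (u : ℝ) : geg 8 0 u = 1 := rfl

private lemma g1 (u : ℝ) : geg 8 1 u = u := rfl

private lemma g2 (u : ℝ) : geg 8 2 u = u ^ 2 - 1 / 8 := by
  show u * geg 8 1 u - gc 8 0 * geg 8 0 u = _
  rw [g1, g0]
  unfold gc
  norm_num
  ring

private lemma g3 (u : ℝ) : geg 8 3 u = u ^ 3 - 3 / 10 * u := by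
  show u * geg 8 2 u - gc 8 1 * geg 8 1 u = _
  rw [g2, g1]
  unfold gc
  norm_num
  ring

private lemma g4 (u : ℝ) : geg 8 4 u = u ^ 4 - 1 / 2 * u ^ 2 + 1 / 40 := by
  show u * geg 8 3 u - gc 8 2 * geg 8 2 u = _
  rw [g3, g2]
  unfold gc
  norm_num
  ring

private lemma g5 (u : ℝ) : geg 8 5 u = u ^ 5 - 5 / 7 * u ^ 3 + 5 / 56 * u := by
  show u * geg 8 4 u - gc 8 3 * geg 8 3 u = _
  rw [g4, g3]
  unfold gc
  norm_num
  ring

private lemma g6 (u : ℝ) : geg 8 6 u = u ^ 6 - 15 / 16 * u ^ 4 + 45 / 224 * u ^ 2 - 5 / 896 := by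
  show u * geg 8 5 u - gc 8 4 * geg 8 4 u = _
  rw [g5, g4]
  unfold gc
  norm_num
  ring

private lemma g7 (u : ℝ) : geg 8 7 u = u ^ 7 - 7 / 6 * u ^ 5 + 35 / 96 * u ^ 3 - 5 / 192 * u := by
  show u * geg 8 6 u - gc 8 5 * geg 8 5 u = _
  rw [g6, g5]
  unfold gc
  norm_num
  ring

private lemma hg (u : ℝ) (k : ℕ) (hk : k ≤ 7) :
    (gd.getD k 0 : ℝ) * geg 8 k u = ev1 u (gs.getD k []) := by
  interval_cases k
  · rw [g0]
    simp only [gd, gs, List.getD_cons_zero, List.getD_cons_succ, ev1, evp, ev0]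
    push_cast
    ring
  · rw [g1]
    simp only [gd, gs, List.getD_cons_zero, List.getD_cons_succ, ev1, evp, ev0]
    push_cast
    ring
  · rw [g2]
    simp only [gd, gs, List.getD_cons_zero, List.getD_cons_succ, ev1, evp, ev0]
    push_cast
    ring
  · rw [g3]
    simp only [gd, gs, List.getD_cons_zero, List.getD_cons_succ, ev1, evp, ev0]
    push_cast
    ring
  · rw [g4]
    simp only [gd, gs, List.getD_cons_zero, List.getD_cons_succ, ev1, evp, ev0]
    push_cast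
    ring
  · rw [g5]
    simp only [gd, gs, List.getD_cons_zero, List.getD_cons_succ, ev1, evp, ev0]
    push_cast
    ring
  · rw [g6]
    simp only [gd, gs, List.getD_cons_zero, List.getD_cons_succ, ev1, evp, ev0]
    push_cast
    ring
  · rw [g7]
    simp only [gd, gs, List.getD_cons_zero, List.getD_cons_succ, ev1, evp, ev0]
    push_cast
    ring

theorem ok_ms : ms.all M3.ok = true := by decide +kernel

theorem ok_ts : (ts.all fun t => t.B.ok) = true := by decide +kernel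

theorem ok_ts' : (ts'.all fun t => t.B.ok) = true := by decide +kernel

theorem ok_id : zero3 (add3 (add3 (M3.P ⟨9 * c, 3 * c, -3 * c, c, -c, c⟩ [1]) (phiL ms gs))
    (tsum ts)) = true := by decide +kernel

theorem ok_id' : zero3 (add3 (lx3 (add1 [-3 * (20 * S), -(20 * S), 20 * S] (mul1 [1, 1]
    (dg (add3 (M3.P ⟨9 * c, 3 * c, -3 * c, c, -c, c⟩ [1]) (phiL ms gs))))))
    (tsum ts')) = true := by decide +kernel

private lemma e_A (x y u : ℝ) : ev3 x y u gA = 1 + u := by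
  simp [gA, ev3, ev2, ev1, evp, ev0]

private lemma e_B (x y u : ℝ) : ev3 x y u gB = 49 - 7 * x - 7 * y - x * y - 98 * u := by
  simp only [gB, ev3, ev2, ev1, evp, ev0]
  push_cast
  ring

private lemma e_C (x y u : ℝ) : ev3 x y u gC = 1 := by
  simp [gC, ev3, ev2, ev1, evp, ev0]

private lemma e_qx (x y u : ℝ) : ev3 x y u qx = 1 - x ^ 2 := by
  simp only [qx, ev3, ev2, ev1, evp, ev0]
  push_cast
  ring

private lemma e_qy (x y u : ℝ) : ev3 x y u qy = 1 - y ^ 2 := by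
  simp only [qy, ev3, ev2, ev1, evp, ev0]
  push_cast
  ring

private lemma hpos (x y u : ℝ) (h1 : -1 ≤ x) (h2 : x ≤ 1) (h3 : -1 ≤ y) (h4 : y ≤ 1) (h5 : -1 ≤ u)
    (h6 : u ≤ 1 / 2 - (1 / 14) * (x + y) - 2 * (1 / 14) ^ 2 * (x * y)) :
    ∀ t ∈ ts, 0 ≤ ev3 x y u t.g := by
  have hA : 0 ≤ ev3 x y u gA := by
    rw [e_A]
    linarith
  have hB : 0 ≤ ev3 x y u gB := by
    rw [e_B]
    linarith
  have hC : 0 ≤ ev3 x y u gC := by
    rw [e_C]
    exact zero_le_one
  have hx : 0 ≤ ev3 x y u qx := by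
    rw [e_qx]
    nlinarith
  have hy : 0 ≤ ev3 x y u qy := by
    rw [e_qy]
    nlinarith
  intro t ht
  simp only [ts, List.mem_cons, List.not_mem_nil, or_false] at ht
  rcases ht with rfl | rfl | rfl | rfl | rfl | rfl | rfl | rfl | rfl | rfl | rfl | rfl <;>
    simp only [ev3_sc, ev3_mul] <;> positivity

private lemma hpos' (x : ℝ) (h1 : -1 ≤ x) (h2 : x ≤ 1) : ∀ t ∈ ts', 0 ≤ ev3 x 0 0 t.g := by
  intro t ht
  simp only [ts', List.mem_cons, List.not_mem_nil, or_false] at ht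
  rcases ht with rfl | rfl
  · simp only [lx3_eval, ev1, evp, ev0]
    push_cast
    have h3 : 0 ≤ x ^ 2 * (1 + x) := mul_nonneg (sq_nonneg x) (by linarith)
    nlinarith
  · simp only [lx3_eval, ev1, evp, ev0]
    push_cast
    have h3 : 0 ≤ x ^ 2 * (1 - x) := mul_nonneg (sq_nonneg x) (by linarith)
    nlinarith

theorem kappa_le : kappa 8 ≤ 120 := by
  refine kappa_le_of_data (K := 7) (c0 := 1 / 4) (h := 1 / 14) (by norm_num) (by norm_num)
    (by norm_num) (by norm_num) (by norm_num) S c (by decide +kernel) ?_ ms gs gd rfl rfl ?_ hg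
    ok_ms ts ok_ts ok_id hpos (20 * S) ?_ ts' ok_ts' ok_id' hpos'
  · simp only [S, c]
    norm_num
  · intro k hk
    interval_cases k <;> decide +kernel
  · simp only [S]
    norm_num

end Pool.Agent.Lib.MP_b2bfca_co.KX.D8
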