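import Pool.Agent.Lib.MP_b2bfca_co.KX.DataT11

/-!
# `kappa 11 ≤ 917 / 2`
-/

set_option autoImplicit false
set_option maxRecDepth 100000

namespace Pool.Agent.Lib.MP_b2bfca_co.KX.T11

private lemma g0 (u : ℝ) : geg 11 0 u = 1 := rfl

private lemma g1 (u : ℝ) : geg 11 1 u = u := rfl

private lemma g2 (u : ℝ) : geg 11 2 u = u ^ 2 - 1 / 11 := by
  show u * geg 11 1 u - gc 11 0 * geg 11 0 u = _
  rw [g1, g0]
  unfold gc
  norm_num
  ring

private lemma g3 (u : ℝ) : geg 11 3 u = u ^ 3 - 3 / 13 * u := by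
  show u * geg 11 2 u - gc 11 1 * geg 11 1 u = _
  rw [g2, g1]
  unfold gc
  norm_num
  ring

private lemma g4 (u : ℝ) : geg 11 4 u = u ^ 4 - 2 / 5 * u ^ 2 + 1 / 65 := by
  show u * geg 11 3 u - gc 11 2 * geg 11 2 u = _
  rw [g3, g2]
  unfold gc
  norm_num
  ring

private lemma g5 (u : ℝ) : geg 11 5 u = u ^ 5 - 10 / 17 * u ^ 3 + 1 / 17 * u := by
  show u * geg 11 4 u - gc 11 3 * geg 11 3 u = _
  rw [g4, g3]
  unfold gc
  norm_num
  ring

private lemma g6 (u : ℝ) : geg 11 6 u = u ^ 6 - 15 / 19 * u ^ 4 + 45 / 323 * u ^ 2 - 1 / 323 := by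
  show u * geg 11 5 u - gc 11 4 * geg 11 4 u = _
  rw [g5, g4]
  unfold gc
  norm_num
  ring

private lemma g7 (u : ℝ) : geg 11 7 u = u ^ 7 - u ^ 5 + 5 / 19 * u ^ 3 - 5 / 323 * u := by
  show u * geg 11 6 u - gc 11 5 * geg 11 5 u = _
  rw [g6, g5]
  unfold gc
  norm_num
  ring

private lemma g8 (u : ℝ) : geg 11 8 u = u ^ 8 - 28 / 23 * u ^ 6 + 10 / 23 * u ^ 4 - 20 / 437 * u ^ 2 + 5 / 7429 := by
  show u * geg 11 7 u - gc 11 6 * geg 11 6 u = _
  rw [g7, g6]
  unfold gc
  norm_num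
  ring

private lemma g9 (u : ℝ) : geg 11 9 u = u ^ 9 - 36 / 25 * u ^ 7 + 378 / 575 * u ^ 5 - 12 / 115 * u ^ 3 + 9 / 2185 * u := by
  show u * geg 11 8 u - gc 11 7 * geg 11 7 u = _
  rw [g8, g7]
  unfold gc
  norm_num
  ring

private lemma g10 (u : ℝ) : geg 11 10 u = u ^ 10 - 5 / 3 * u ^ 8 + 14 / 15 * u ^ 6 - 14 / 69 * u ^ 4 + 1 / 69 * u ^ 2 - 1 / 6555 := by
  show u * geg 11 9 u - gc 11 8 * geg 11 8 u = _
  rw [g9, g8]
  unfold gc
  norm_num
  ring

private lemma g11 (u : ℝ) : geg 11 11 u = u ^ 11 - 55 / 29 * u ^ 9 + 110 / 87 * u ^ 7 - 154 / 435 * u ^ 5 + 77 / 2001 * u ^ 3 - 11 / 10005 * u := by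
  show u * geg 11 10 u - gc 11 9 * geg 11 9 u = _
  rw [g10, g9]
  unfold gc
  norm_num
  ring

private lemma hg (u : ℝ) (k : ℕ) (hk : k ≤ 11) :
    (gd.getD k 0 : ℝ) * geg 11 k u = ev1 u (gs.getD k []) := by
  interval_cases k
  · rw [g0]
    simp only [gd, gs, List.getD_cons_zero, List.getD_cons_succ, ev1, evp, ev0]
    push_cast
    ring
  · rw [g1]
    simp only [gd, gs, List.getD_cons_zero, List.getD_cons_succ, ev1, evp, ev0]
    push_cast
    ring
  · rw [g2]
    simp only [gd, gs, List.getD_cons_zero, List.getD_cons_succ, ev1, evp, ev0]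
    push_cast
    ring
  · rw [g3]
    simp only [gd, gs, List.getD_cons_zero, List.getD_cons_succ, ev1, evp, ev0]
    push_cast
    ring
  · rw [g4]
    simp only [gd, gs, List.getD_cons_zero, List.getD_cons_succ, ev1, evp, ev0]
    push_cast
    ring
  · rw [g5]
    simp only [gd, gs, List.getD_cons_zero, List.getD_cons_succ, ev1, evp, ev0]
    push_cast
    ring
  · rw [g6]
    simp only [gd, gs, List.getD_cons_zero, List.getD_cons_succ, ev1, evp, ev0]
    push_cast
    ring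
  · rw [g7]
    simp only [gd, gs, List.getD_cons_zero, List.getD_cons_succ, ev1, evp, ev0]
    push_cast
    ring
  · rw [g8]
    simp only [gd, gs, List.getD_cons_zero, List.getD_cons_succ, ev1, evp, ev0]
    push_cast
    ring
  · rw [g9]
    simp only [gd, gs, List.getD_cons_zero, List.getD_cons_succ, ev1, evp, ev0]
    push_cast
    ring
  · rw [g10]
    simp only [gd, gs, List.getD_cons_zero, List.getD_cons_succ, ev1, evp, ev0]
    push_cast
    ring
  · rw [g11]
    simp only [gd, gs, List.getD_cons_zero, List.getD_cons_succ, ev1, evp, ev0]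
    push_cast
    ring

theorem ok_ms : (ms.all fun m => psdOK 3 m.s m.M m.L) = true := by decide +kernel

theorem p_As : psdF 24 sAs GAs LAs EAs (Nat.pow 2 64) = true := by decide +kernel

theorem p_Aa : psdF 12 sAa GAa LAa EAa (Nat.pow 2 56) = true := by decide +kernel

theorem p_Aqx : psdF 18 sAqx GAqx LAqx EAqx (Nat.pow 2 61) = true := by decide +kernel

theorem p_Bs : psdF 24 sBs GBs LBs EBs (Nat.pow 2 71) = true := by decide +kernel

theorem p_Ba : psdF 12 sBa GBa LBa EBa (Nat.pow 2 54) = true := by decide +kernel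

theorem p_Bqx : psdF 18 sBqx GBqx LBqx EBqx (Nat.pow 2 68) = true := by decide +kernel

theorem p_Cs : psdF 24 sCs GCs LCs ECs (Nat.pow 2 80) = true := by decide +kernel

theorem p_Ca : psdF 12 sCa GCa LCa ECa (Nat.pow 2 52) = true := by decide +kernel

theorem p_Cqx : psdF 18 sCqx GCqx LCqx ECqx (Nat.pow 2 66) = true := by decide +kernel

theorem ok_ts : (ts.all fun t => t.B.ok) = true := by
  have h0 : t0.B.ok = true := ok_blk p_As (by decide +kernel)
  have h1 : t1.B.ok = true := ok_blk p_Aa (by decide +kernel)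
  have h2 : t2.B.ok = true := ok_blk p_Aqx (by decide +kernel)
  have h3 : t3.B.ok = true := ok_blk p_Aqx (by decide +kernel)
  have h4 : t4.B.ok = true := ok_blk p_Bs (by decide +kernel)
  have h5 : t5.B.ok = true := ok_blk p_Ba (by decide +kernel)
  have h6 : t6.B.ok = true := ok_blk p_Bqx (by decide +kernel)
  have h7 : t7.B.ok = true := ok_blk p_Bqx (by decide +kernel)
  have h8 : t8.B.ok = true := ok_blk p_Cs (by decide +kernel)
  have h9 : t9.B.ok = true := ok_blk p_Ca (by decide +kernel)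
  have h10 : t10.B.ok = true := ok_blk p_Cqx (by decide +kernel)
  have h11 : t11.B.ok = true := ok_blk p_Cqx (by decide +kernel)
  simp only [ts, List.all_cons, List.all_nil, h0, h1, h2, h3, h4, h5, h6, h7, h8, h9, h10, h11,
    Bool.and_true]

theorem ok_ts' : (ts'.all fun t => t.B.ok) = true := by decide +kernel

theorem ok_id : kchk (Nat.pow 2 6410) (Nat.pow 2 1085) (Nat.pow 2 91)
    (add3 (mul3 (lx3 mq) (sc3 c [mq.map fun a => [a]])) (phiM ms gs)) ts = true := by decide +kernel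

theorem ok_id' : zero3 (add3 (lx3 (add1 (sc1 (-(2 * c * m0 * 917)) mq) (sc1 2 (mul1 [1, 1]
    (dg (add3 (mul3 (lx3 mq) (sc3 c [mq.map fun a => [a]])) (phiM ms gs)))))))
    (tsum ts')) = true := by decide +kernel

private lemma e_A (x y u : ℝ) : ev3 x y u gA = 1 + u := by
  simp [gA, ev3, ev2, ev1, evp, ev0]

private lemma e_B (x y u : ℝ) : ev3 x y u gB = 5041 - 10082 * u - 710 * y - 710 * x - 100 * x * y := by
  simp only [gB, ev3, ev2, ev1, evp, ev0]
  push_cast
  ring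

private lemma e_C (x y u : ℝ) : ev3 x y u gC = 1 := by
  simp [gC, ev3, ev2, ev1, evp, ev0]

private lemma e_qx (x y u : ℝ) : ev3 x y u qx = 1 - x ^ 2 := by
  simp only [qx, ev3, ev2, ev1, evp, ev0]
  push_cast
  ring

private lemma e_qy (x y u : ℝ) : ev3 x y u qy = 1 - y ^ 2 := by
  simp only [qy, ev3, ev2, ev1, evp, ev0]
  push_cast
  ring

private lemma hpos (x y u : ℝ) (h1 : -1 ≤ x) (h2 : x ≤ 1) (h3 : -1 ≤ y) (h4 : y ≤ 1) (h5 : -1 ≤ u)
    (h6 : u ≤ 1 / 2 - (5 / 71) * (x + y) - 2 * (5 / 71) ^ 2 * (x * y)) :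
    ∀ t ∈ ts, 0 ≤ ev3 x y u t.g := by
  have hA : 0 ≤ ev3 x y u gA := by
    rw [e_A]
    linarith
  have hB : 0 ≤ ev3 x y u gB := by
    rw [e_B]
    linarith
  have hC : 0 ≤ ev3 x y u gC := by
    rw [e_C]
    exact zero_le_one
  have hx : 0 ≤ ev3 x y u qx := by
    rw [e_qx]
    nlinarith
  have hy : 0 ≤ ev3 x y u qy := by
    rw [e_qy]
    nlinarith
  intro t ht
  simp only [ts, List.mem_cons, List.not_mem_nil, or_false] at ht
  rcases ht with rfl | rfl | rfl | rfl | rfl | rfl | rfl | rfl | rfl | rfl | rfl | rfl <;>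
    simp only [t0, t1, t2, t3, t4, t5, t6, t7, t8, t9, t10, t11, ev3_sc, ev3_mul] <;> positivity

private lemma hpos' (x : ℝ) (h1 : -1 ≤ x) (h2 : x ≤ 1) : ∀ t ∈ ts', 0 ≤ ev3 x 0 0 t.g := by
  intro t ht
  simp only [ts', List.mem_cons, List.not_mem_nil, or_false] at ht
  rcases ht with rfl | rfl
  · simp only [lx3_eval, ev1, evp, ev0]
    push_cast
    linarith
  · simp only [lx3_eval, ev1, evp, ev0]
    push_cast
    linarith

private lemma hmq0 (x : ℝ) (h1 : -1 ≤ x) (h2 : x ≤ 1) : 0 ≤ ev1 x mq := by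
  have h3 : 0 ≤ 1 + x := by linarith
  have h4 : 0 ≤ 1 - x := by linarith
  have e : ev1 x mq = (11 / 2) * (1 - x) ^ 2 +
      (139 / 2) * (1 + x) * (1 - x) +
      25 * (1 + x) ^ 2 := by
    simp only [mq, ev1, evp, ev0]
    push_cast
    ring
  rw [e]
  positivity

private lemma hmq1 : (m0 : ℝ) ≤ ev1 1 mq := by
  simp only [mq, m0, ev1, evp, ev0]
  norm_num

theorem kappa_le : kappa 11 ≤ 917 / 2 := by
  have h := kappa_le_fast (d := 11) (K := 11) (n := 3) (h := (5 / 71)) (by norm_num) (by norm_num)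
    (by norm_num) 917 2 (by norm_num) (by norm_num) mq m0 (by decide +kernel) c (by decide +kernel)
    hmq0 hmq1 (by decide +kernel) ms gs gd rfl rfl (fun k hk => by
      interval_cases k <;> decide +kernel) hg ok_ms ts ok_ts ok_id hpos ts' ok_ts' ok_id' hpos'
  norm_num at h ⊢
  exact h

end Pool.Agent.Lib.MP_b2bfca_co.KX.T11
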