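import Mathlib

/-!
# Integer polynomials in three variables as lists, Gram matrices

Polynomials in `u` (lists of integers), in `y` over these, in `x` over these; all operations reduce in
the kernel. `psdOK` tests `s G = L L^T + E` with `E` diagonally dominant.
-/

set_option autoImplicit false

namespace Pool.Agent.Lib.MP_b2bfca_co.KX

open Finset

section generic

variable {R : Type}

/-- Addition of lists of coefficients. -/
def padd (add : R → R → R) : List R → List R → List R
  | [], m => m
  | l, [] => l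
  | a :: l, b :: m => add a b :: padd add l m

/-- Multiplication of lists of coefficients. -/
def pmul (add mul : R → R → R) (zero : R) : List R → List R → List R
  | [], _ => []
  | a :: l, m => padd add (m.map (mul a)) (zero :: pmul add mul zero l m)

/-- Evaluation. -/
noncomputable def evp (ev : R → ℝ) (t : ℝ) : List R → ℝ
  | [] => 0
  | a :: l => ev a + t * evp ev t l

theorem evp_add {add : R → R → R} {ev : R → ℝ} (h : ∀ a b, ev (add a b) = ev a + ev b) (t : ℝ) :
    ∀ l m : List R, evp ev t (padd add l m) = evp ev t l + evp ev t m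
  | [], m => by simp [padd, evp]
  | a :: l, [] => by simp [padd, evp]
  | a :: l, b :: m => by
    simp only [padd, evp, h, evp_add h t l m]
    ring

theorem evp_map {f : R → R} {ev : R → ℝ} {c : ℝ} (h : ∀ a, ev (f a) = c * ev a) (t : ℝ) :
    ∀ l : List R, evp ev t (l.map f) = c * evp ev t l
  | [] => by simp [evp]
  | a :: l => by
    simp only [List.map_cons, evp, h, evp_map h t l]
    ring

theorem evp_mul {add mul : R → R → R} {zero : R} {ev : R → ℝ}
    (ha : ∀ a b, ev (add a b) = ev a + ev b) (hm : ∀ a b, ev (mul a b) = ev a * ev b)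
    (h0 : ev zero = 0) (t : ℝ) :
    ∀ l m : List R, evp ev t (pmul add mul zero l m) = evp ev t l * evp ev t m
  | [], m => by simp [pmul, evp]
  | a :: l, m => by
    simp only [pmul, evp_add ha, evp, h0, evp_map (hm a) t m, evp_mul ha hm h0 t l m]
    ring

/-- All coefficients are zero. -/
def pzero (z : R → Bool) : List R → Bool
  | [] => true
  | a :: l => z a && pzero z l

theorem evp_zero {z : R → Bool} {ev : R → ℝ} (h : ∀ a, z a = true → ev a = 0) (t : ℝ) :
    ∀ l : List R, pzero z l = true → evp ev t l = 0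
  | [], _ => by simp [evp]
  | a :: l, hl => by
    simp only [pzero, Bool.and_eq_true] at hl
    simp only [evp, h a hl.1, evp_zero h t l hl.2]
    ring

end generic

/-- Polynomials in `u`. -/
abbrev P1 := List ℤ

/-- Polynomials in `y`, `u`. -/
abbrev P2 := List P1

/-- Polynomials in `x`, `y`, `u`. -/
abbrev P3 := List P2

/-- Addition. -/
def add1 : P1 → P1 → P1 := padd fun a b => a + b

/-- Addition. -/
def add2 : P2 → P2 → P2 := padd add1

/-- Addition. -/
def add3 : P3 → P3 → P3 := padd add2

/-- Multiplication. -/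
def mul1 : P1 → P1 → P1 := pmul (fun a b => a + b) (fun a b => a * b) 0

/-- Multiplication. -/
def mul2 : P2 → P2 → P2 := pmul add1 mul1 []

/-- Multiplication. -/
def mul3 : P3 → P3 → P3 := pmul add2 mul2 []

/-- Multiplication by an integer. -/
def sc1 (c : ℤ) (l : P1) : P1 := l.map fun a => c * a

/-- Multiplication by an integer. -/
def sc2 (c : ℤ) (l : P2) : P2 := l.map (sc1 c)

/-- Multiplication by an integer. -/
def sc3 (c : ℤ) (l : P3) : P3 := l.map (sc2 c)

/-- The zero test. -/
def zero3 : P3 → Bool := pzero (pzero (pzero fun a : ℤ => a == 0))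

/-- Evaluation. -/
noncomputable def ev0 (a : ℤ) : ℝ := a

/-- Evaluation. -/
noncomputable def ev1 (u : ℝ) : P1 → ℝ := evp ev0 u

/-- Evaluation. -/
noncomputable def ev2 (y u : ℝ) : P2 → ℝ := evp (ev1 u) y

/-- Evaluation. -/
noncomputable def ev3 (x y u : ℝ) : P3 → ℝ := evp (ev2 y u) x

theorem ev0_add (a b : ℤ) : ev0 ((fun a b => a + b) a b) = ev0 a + ev0 b := by
  simp [ev0]

theorem ev0_mul (a b : ℤ) : ev0 ((fun a b => a * b) a b) = ev0 a * ev0 b := by
  simp [ev0]

theorem ev1_add (u : ℝ) (l m : P1) : ev1 u (add1 l m) = ev1 u l + ev1 u m :=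
  evp_add ev0_add u l m

theorem ev1_mul (u : ℝ) (l m : P1) : ev1 u (mul1 l m) = ev1 u l * ev1 u m :=
  evp_mul ev0_add ev0_mul (by simp [ev0]) u l m

theorem ev2_add (y u : ℝ) (l m : P2) : ev2 y u (add2 l m) = ev2 y u l + ev2 y u m :=
  evp_add (ev1_add u) y l m

theorem ev2_mul (y u : ℝ) (l m : P2) : ev2 y u (mul2 l m) = ev2 y u l * ev2 y u m :=
  evp_mul (ev1_add u) (ev1_mul u) (by simp [ev1, evp]) y l m

theorem ev3_add (x y u : ℝ) (l m : P3) : ev3 x y u (add3 l m) = ev3 x y u l + ev3 x y u m :=
  evp_add (ev2_add y u) x l m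

theorem ev3_mul (x y u : ℝ) (l m : P3) : ev3 x y u (mul3 l m) = ev3 x y u l * ev3 x y u m :=
  evp_mul (ev2_add y u) (ev2_mul y u) (by simp [ev2, evp]) x l m

theorem ev1_sc (c : ℤ) (u : ℝ) (l : P1) : ev1 u (sc1 c l) = c * ev1 u l :=
  evp_map (fun a => by simp [ev0]) u l

theorem ev2_sc (c : ℤ) (y u : ℝ) (l : P2) : ev2 y u (sc2 c l) = c * ev2 y u l :=
  evp_map (ev1_sc c u) y l

theorem ev3_sc (c : ℤ) (x y u : ℝ) (l : P3) : ev3 x y u (sc3 c l) = c * ev3 x y u l :=
  evp_map (ev2_sc c y u) x l

theorem ev3_zero {l : P3} (h : zero3 l = true) (x y u : ℝ) : ev3 x y u l = 0 :=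
  evp_zero (fun _ h2 => evp_zero (fun _ h1 => evp_zero (fun _ h0 => by
    simp only [beq_iff_eq] at h0
    simp [ev0, h0]) u _ h1) y _ h2) x l h

/-! ### Gram matrices -/

/-- Linear combination of polynomials. -/
def lin3 : List ℤ → List P3 → P3
  | c :: cs, z :: zs => add3 (sc3 c z) (lin3 cs zs)
  | _, _ => []

/-- The Gram form, first list. -/
def gram : List (List ℤ) → List P3 → List P3 → P3
  | r :: rs, z :: zs, Z => add3 (mul3 z (lin3 r Z)) (gram rs zs Z)
  | _, _, _ => []

/-- Entries. -/
def ge (M : List (List ℤ)) (i j : ℕ) : ℤ := (M.getD i []).getD j 0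

theorem lin3_eval (x y u : ℝ) : ∀ (c : List ℤ) (Z : List P3), c.length = Z.length →
    ev3 x y u (lin3 c Z) = ∑ j ∈ range Z.length, (c.getD j 0 : ℝ) * ev3 x y u (Z.getD j [])
  | [], [], _ => by simp [lin3, ev3, evp]
  | c :: cs, z :: zs, h => by
    have h' : cs.length = zs.length := by simpa using h
    rw [lin3, ev3_add, ev3_sc, lin3_eval x y u cs zs h', List.length_cons, Finset.sum_range_succ']
    simp only [List.getD_cons_succ, List.getD_cons_zero]
    ring
  | [], _ :: _, h => by simp at h
  | _ :: _, [], h => by simp at h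

theorem gram_eval (x y u : ℝ) : ∀ (G : List (List ℤ)) (zs Z : List P3), G.length = zs.length →
    (∀ r ∈ G, r.length = Z.length) →
    ev3 x y u (gram G zs Z) = ∑ i ∈ range zs.length, ∑ j ∈ range Z.length,
      (ge G i j : ℝ) * ev3 x y u (zs.getD i []) * ev3 x y u (Z.getD j [])
  | [], [], Z, _, _ => by simp [gram, ev3, evp]
  | r :: rs, z :: zs, Z, h, hr => by
    have h' : rs.length = zs.length := by simpa using h
    rw [gram, ev3_add, ev3_mul, lin3_eval x y u r Z (hr r (by simp)),
      gram_eval x y u rs zs Z h' (fun s hs => hr s (by simp [hs])), List.length_cons,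
      Finset.sum_range_succ' (fun i => ∑ j ∈ range Z.length,
        (ge (r :: rs) i j : ℝ) * ev3 x y u ((z :: zs).getD i []) * ev3 x y u (Z.getD j []))]
    simp only [ge, List.getD_cons_succ, List.getD_cons_zero, Finset.mul_sum]
    rw [add_comm]
    congr 1
    apply Finset.sum_congr rfl
    intro j _
    ring
  | [], _ :: _, _, h, _ => by simp at h
  | _ :: _, [], _, h, _ => by simp at h

/-- Sum of the first values. -/
def sumN (f : ℕ → ℤ) : ℕ → ℤ
  | 0 => 0
  | n + 1 => sumN f n + f n

theorem sumN_eq (f : ℕ → ℤ) (n : ℕ) : sumN f n = ∑ i ∈ range n, f i := by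
  induction n with
  | zero => rfl
  | succ n ih => rw [sumN, ih, Finset.sum_range_succ]

/-- The conjunction of the first values. -/
def allN (f : ℕ → Bool) : ℕ → Bool
  | 0 => true
  | n + 1 => allN f n && f n

theorem allN_iff {f : ℕ → Bool} {n : ℕ} (h : allN f n = true) : ∀ i < n, f i = true := by
  induction n with
  | zero => intro i hi; omega
  | succ n ih =>
    simp only [allN, Bool.and_eq_true] at h
    intro i hi
    rcases Nat.lt_succ_iff_lt_or_eq.1 hi with h1 | h1
    · exact ih h.1 i h1
    · rw [h1]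
      exact h.2

/-- The rest `s G - L L^T`. -/
def rest (n : ℕ) (s : ℤ) (G L : List (List ℤ)) (i j : ℕ) : ℤ :=
  s * ge G i j - sumN (fun k => ge L i k * ge L j k) n

/-- The test for positive semidefiniteness. -/
def psdOK (n : ℕ) (s : ℤ) (G L : List (List ℤ)) : Bool :=
  decide (0 < s) && (G.length == n) && (G.all fun r => r.length == n) &&
    allN (fun i => allN (fun j => ge G i j == ge G j i) i) n &&
    allN (fun i => decide (sumN (fun j => if i = j then 0 else |rest n s G L i j|) n ≤
      rest n s G L i i)) n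

theorem psd_of_ok {n : ℕ} {s : ℤ} {G L : List (List ℤ)} (h : psdOK n s G L = true) (v : ℕ → ℝ) :
    0 ≤ ∑ i ∈ range n, ∑ j ∈ range n, (ge G i j : ℝ) * v i * v j := by
  simp only [psdOK, Bool.and_eq_true, decide_eq_true_eq] at h
  obtain ⟨⟨⟨⟨hs, -⟩, -⟩, hsym⟩, hdom⟩ := h
  have hsy : ∀ i < n, ∀ j < n, ge G i j = ge G j i := by
    intro i hi j hj
    rcases lt_trichotomy i j with h1 | h1 | h1
    · have := allN_iff (allN_iff hsym j hj) i h1
      simp only [beq_iff_eq] at this
      exact this.symm
    · rw [h1]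
    · have := allN_iff (allN_iff hsym i hi) j h1
      simpa only [beq_iff_eq] using this
  have hE : ∀ i j, (s : ℝ) * (ge G i j : ℝ)
      = (∑ k ∈ range n, (ge L i k : ℝ) * (ge L j k : ℝ)) + (rest n s G L i j : ℝ) := by
    intro i j
    unfold rest
    rw [sumN_eq]
    push_cast
    ring
  have hEs : ∀ i < n, ∀ j < n, rest n s G L i j = rest n s G L j i := by
    intro i hi j hj
    unfold rest
    rw [hsy i hi j hj, sumN_eq, sumN_eq]
    congr 1
    exact Finset.sum_congr rfl fun k _ => mul_comm _ _
  have hd : ∀ i ∈ range n, ∑ j ∈ range n, (if i = j then (0 : ℝ) else |(rest n s G L i j : ℝ)|)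
      ≤ (rest n s G L i i : ℝ) := by
    intro i hi
    have h1 := allN_iff hdom i (Finset.mem_range.1 hi)
    simp only [decide_eq_true_eq] at h1
    rw [sumN_eq] at h1
    have h2 : ((∑ j ∈ range n, if i = j then (0 : ℤ) else |rest n s G L i j| : ℤ) : ℝ)
        ≤ ((rest n s G L i i : ℤ) : ℝ) := by exact_mod_cast h1
    refine le_trans (le_of_eq ?_) h2
    push_cast
    apply Finset.sum_congr rfl
    intro j _
    split_ifs <;> simp
  have hsR : (0 : ℝ) < s := by exact_mod_cast hs
  have key : (s : ℝ) * ∑ i ∈ range n, ∑ j ∈ range n, (ge G i j : ℝ) * v i * v j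
      = (∑ k ∈ range n, (∑ i ∈ range n, (ge L i k : ℝ) * v i) ^ 2)
        + ∑ i ∈ range n, ∑ j ∈ range n, (rest n s G L i j : ℝ) * v i * v j := by
    have e1 : ∑ k ∈ range n, (∑ i ∈ range n, (ge L i k : ℝ) * v i) ^ 2
        = ∑ i ∈ range n, ∑ j ∈ range n,
          (∑ k ∈ range n, (ge L i k : ℝ) * (ge L j k : ℝ)) * v i * v j := by
      simp only [sq, Finset.sum_mul_sum]
      rw [Finset.sum_comm]
      apply Finset.sum_congr rfl
      intro i _
      rw [Finset.sum_comm]
      apply Finset.sum_congr rfl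
      intro j _
      rw [Finset.sum_mul, Finset.sum_mul]
      apply Finset.sum_congr rfl
      intro k _
      ring
    rw [e1, ← Finset.sum_add_distrib, Finset.mul_sum]
    apply Finset.sum_congr rfl
    intro i _
    rw [← Finset.sum_add_distrib, Finset.mul_sum]
    apply Finset.sum_congr rfl
    intro j _
    have := hE i j
    calc (s : ℝ) * ((ge G i j : ℝ) * v i * v j) = ((s : ℝ) * (ge G i j : ℝ)) * v i * v j := by ring
      _ = _ := by rw [this]; ring
  have hdd : 0 ≤ ∑ i ∈ range n, ∑ j ∈ range n, (rest n s G L i j : ℝ) * v i * v j := by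
    have h1 : ∀ i ∈ range n, ∀ j ∈ range n,
        (if i = j then (rest n s G L i i : ℝ) * v i ^ 2 else
          -(|(rest n s G L i j : ℝ)| * ((v i ^ 2 + v j ^ 2) / 2)))
        ≤ (rest n s G L i j : ℝ) * v i * v j := by
      intro i _ j _
      split_ifs with hij
      · subst hij
        apply le_of_eq
        ring
      · have h2 : |(rest n s G L i j : ℝ) * v i * v j|
            ≤ |(rest n s G L i j : ℝ)| * ((v i ^ 2 + v j ^ 2) / 2) := by
          rw [mul_assoc, abs_mul]
          apply mul_le_mul_of_nonneg_left _ (abs_nonneg _)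
          rw [abs_le]
          constructor
          · nlinarith [sq_nonneg (v i + v j)]
          · nlinarith [sq_nonneg (v i - v j)]
        have h3 := neg_abs_le ((rest n s G L i j : ℝ) * v i * v j)
        linarith
    refine le_trans ?_ (Finset.sum_le_sum fun i hi => Finset.sum_le_sum fun j hj => h1 i hi j hj)
    have h4 : ∑ i ∈ range n, ∑ j ∈ range n,
        (if i = j then (rest n s G L i i : ℝ) * v i ^ 2 else
          -(|(rest n s G L i j : ℝ)| * ((v i ^ 2 + v j ^ 2) / 2)))
        = ∑ i ∈ range n, (rest n s G L i i : ℝ) * v i ^ 2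
          - ∑ i ∈ range n, (∑ j ∈ range n,
            (if i = j then (0 : ℝ) else |(rest n s G L i j : ℝ)|)) * v i ^ 2 := by
      have h5 : ∀ i ∈ range n, ∑ j ∈ range n,
          (if i = j then (rest n s G L i i : ℝ) * v i ^ 2 else
            -(|(rest n s G L i j : ℝ)| * ((v i ^ 2 + v j ^ 2) / 2)))
          = (rest n s G L i i : ℝ) * v i ^ 2
            - (∑ j ∈ range n, (if i = j then (0 : ℝ) else |(rest n s G L i j : ℝ)|))
              * (v i ^ 2 / 2)
            - ∑ j ∈ range n, (if i = j then (0 : ℝ) else |(rest n s G L i j : ℝ)|)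
              * (v j ^ 2 / 2) := by
        intro i hi
        have h6 : ∀ j ∈ range n, (if i = j then (rest n s G L i i : ℝ) * v i ^ 2 else
            -(|(rest n s G L i j : ℝ)| * ((v i ^ 2 + v j ^ 2) / 2)))
            = (if i = j then (rest n s G L i i : ℝ) * v i ^ 2 else 0)
              - (if i = j then (0 : ℝ) else |(rest n s G L i j : ℝ)|) * (v i ^ 2 / 2)
              - (if i = j then (0 : ℝ) else |(rest n s G L i j : ℝ)|) * (v j ^ 2 / 2) := by
          intro j _
          split_ifs
          · ring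
          · ring
        rw [Finset.sum_congr rfl h6, Finset.sum_sub_distrib, Finset.sum_sub_distrib,
          Finset.sum_ite_eq, if_pos hi, Finset.sum_mul]
      rw [Finset.sum_congr rfl h5, Finset.sum_sub_distrib, Finset.sum_sub_distrib]
      have h7 : ∑ i ∈ range n, ∑ j ∈ range n,
          (if i = j then (0 : ℝ) else |(rest n s G L i j : ℝ)|) * (v j ^ 2 / 2)
          = ∑ i ∈ range n, (∑ j ∈ range n,
            (if i = j then (0 : ℝ) else |(rest n s G L i j : ℝ)|)) * (v i ^ 2 / 2) := by
        rw [Finset.sum_comm]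
        apply Finset.sum_congr rfl
        intro i hi
        rw [Finset.sum_mul]
        apply Finset.sum_congr rfl
        intro j hj
        rw [hEs i (Finset.mem_range.1 hi) j (Finset.mem_range.1 hj)]
        by_cases hij : i = j
        · simp [hij]
        · rw [if_neg (Ne.symm hij), if_neg hij]
      rw [h7, sub_sub, ← Finset.sum_add_distrib]
      congr 1
      apply Finset.sum_congr rfl
      intro i _
      ring
    rw [h4, sub_nonneg]
    apply Finset.sum_le_sum
    intro i hi
    exact mul_le_mul_of_nonneg_right (hd i hi) (sq_nonneg _)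
  have h8 : 0 ≤ (s : ℝ) * ∑ i ∈ range n, ∑ j ∈ range n, (ge G i j : ℝ) * v i * v j := by
    rw [key]
    exact add_nonneg (Finset.sum_nonneg fun k _ => sq_nonneg _) hdd
  exact (mul_nonneg_iff_of_pos_left hsR).1 h8

/-- A Gram block: the basis, the Gram matrix, the scale and the approximate factor. -/
structure Blk where
  /-- basis -/
  Z : List P3
  /-- Gram matrix -/
  G : List (List ℤ)
  /-- scale -/
  s : ℤ
  /-- factor -/
  L : List (List ℤ)

/-- The polynomial of the block. -/
def Blk.poly (B : Blk) : P3 := gram B.G B.Z B.Z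

/-- The test of the block. -/
def Blk.ok (B : Blk) : Bool := psdOK B.Z.length B.s B.G B.L

theorem Blk.nonneg {B : Blk} (h : B.ok = true) (x y u : ℝ) : 0 ≤ ev3 x y u B.poly := by
  have h1 : psdOK B.Z.length B.s B.G B.L = true := h
  have h2 := h1
  simp only [psdOK, Bool.and_eq_true, beq_iff_eq, List.all_eq_true] at h2
  obtain ⟨⟨⟨⟨-, hG⟩, hr⟩, -⟩, -⟩ := h2
  rw [Blk.poly, gram_eval x y u B.G B.Z B.Z hG hr]
  exact psd_of_ok h1 fun i => ev3 x y u (B.Z.getD i [])

end Pool.Agent.Lib.MP_b2bfca_co.KX
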