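import Pool.Agent.Lib.MP_b2bfca_co.Limit

/-!
# Every packing has at most `n * kappa d` tangencies
-/

set_option autoImplicit false

namespace Pool.Agent.Lib.MP_b2bfca_co.KX

open Finset

theorem E_le_kappa (n d : ℕ) : (E n d : ℝ) ≤ n * kappa d := by
  rcases n with _ | n
  · have h0 : E 0 d = 0 := by
      unfold E
      rcases Set.eq_empty_or_nonempty {e : ℕ | ∃ (c : Fin 0 → EuclideanSpace ℝ (Fin d))
        (r : Fin 0 → ℝ), IsPacking c r ∧ e = edges c r} with he | he
      · rw [he]
        simp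
      · obtain ⟨c, r, _, e⟩ := Nat.sSup_mem he (E_bdd 0 d)
        rw [e]
        unfold edges
        simp
    rw [h0]
    simp
  · have h := le_ciSup (kappa_bdd d) n
    have h2 : (E (n + 1) d : ℝ) / ((n : ℝ) + 1) ≤ kappa d := h
    rw [div_le_iff₀ (by positivity)] at h2
    push_cast
    linarith

theorem edges_le_kappa {n d : ℕ} {c : Fin n → EuclideanSpace ℝ (Fin d)} {r : Fin n → ℝ}
    (h : IsPacking c r) : (edges c r : ℝ) ≤ n * kappa d := by
  have h1 : edges c r ≤ E n d := le_csSup (E_bdd n d) ⟨c, r, h, rfl⟩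
  have h2 : (edges c r : ℝ) ≤ (E n d : ℝ) := by exact_mod_cast h1
  exact h2.trans (E_le_kappa n d)

/-- If `kappa d` is a natural number `m`, then every packing of `n` balls has at most `m n`
tangencies. -/
theorem edges_le_of_kappa {n d m : ℕ} (hk : kappa d = m) {c : Fin n → EuclideanSpace ℝ (Fin d)}
    {r : Fin n → ℝ} (h : IsPacking c r) : edges c r ≤ m * n := by
  have h1 := edges_le_kappa h
  rw [hk] at h1
  have h2 : ((edges c r : ℕ) : ℝ) ≤ ((m * n : ℕ) : ℝ) := by
    push_cast
    linarith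
  exact_mod_cast h2

end Pool.Agent.Lib.MP_b2bfca_co.KX
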