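import Pool.Agent.Lib.MP_b2bfca_co.KX.Shape
import Pool.Agent.Lib.MP_b2bfca_co.KX.Chk

/-!
# From integer data to the bound
-/

set_option autoImplicit false

namespace Pool.Agent.Lib.MP_b2bfca_co.KX

open Finset

/-- A symmetric `3 × 3` matrix of integers. -/
structure M3 where
  /-- entry -/
  a : ℤ
  /-- entry -/
  b : ℤ
  /-- entry -/
  c : ℤ
  /-- entry -/
  d : ℤ
  /-- entry -/
  e : ℤ
  /-- entry -/
  f : ℤ

/-- The zero matrix. -/
def M3.z : M3 := ⟨0, 0, 0, 0, 0, 0⟩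

/-- The matrix. -/
def M3.mat (m : M3) : Fin 3 → Fin 3 → ℤ := ![![m.a, m.b, m.c], ![m.b, m.d, m.e], ![m.c, m.e, m.f]]

/-- The test for positive semidefiniteness. -/
def M3.ok (m : M3) : Bool :=
  (decide (0 < m.a) && decide (0 < m.a * m.d - m.b * m.b) &&
    decide (0 ≤ (m.a * m.d - m.b * m.b) * (m.a * m.f - m.c * m.c) -
      (m.a * m.e - m.b * m.c) * (m.a * m.e - m.b * m.c))) ||
  (m.a == 0 && m.b == 0 && m.c == 0 && decide (0 < m.d) && decide (0 ≤ m.d * m.f - m.e * m.e))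

private lemma sq_aux (a b c d e f s D E : ℝ) (ha : 0 < a) (hD : 0 < D) (hd : D = a * d - b * b)
    (hE : E = a * e - b * c) (h3 : 0 ≤ D * (a * f - c * c) - E * E) (hs : 0 ≤ s)
    {N : Fin 3 → Fin 3 → ℝ}
    (h00 : N 0 0 = a * s) (h01 : N 0 1 = b * s) (h02 : N 0 2 = c * s)
    (h10 : N 1 0 = b * s) (h11 : N 1 1 = d * s) (h12 : N 1 2 = e * s)
    (h20 : N 2 0 = c * s) (h21 : N 2 1 = e * s) (h22 : N 2 2 = f * s) : SQ N := by
  have hd' : d = (D + b * b) / a := by
    rw [hd]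
    field_simp
    ring
  have he' : e = (E + b * c) / a := by
    rw [hE]
    field_simp
    ring
  have ha' := ha.ne'
  have hD' := hD.ne'
  refine ⟨![s * a⁻¹, s * (a * D)⁻¹, s * (D * (a * f - c * c) - E * E) * (a * D)⁻¹],
    ![![a, b, c], ![0, D, E], ![0, 0, 1]], ?_, ?_⟩
  · intro l
    fin_cases l
    · show 0 ≤ s * a⁻¹
      positivity
    · show 0 ≤ s * (a * D)⁻¹
      positivity
    · exact mul_nonneg (mul_nonneg hs h3) (by positivity)
  · intro i j
    fin_cases i <;> fin_cases j <;>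
      simp only [Fin.sum_univ_three, Fin.zero_eta, Fin.mk_one, Fin.reduceFinMk,
        Matrix.cons_val_zero, Matrix.cons_val_one, Matrix.cons_val, h00, h01, h02, h10, h11, h12,
        h20, h21, h22, hd', he'] <;> field_simp <;> ring

private lemma sq_aux2 (d e f s : ℝ) (hd : 0 < d) (h3 : 0 ≤ d * f - e * e) (hs : 0 ≤ s)
    {N : Fin 3 → Fin 3 → ℝ}
    (h00 : N 0 0 = 0) (h01 : N 0 1 = 0) (h02 : N 0 2 = 0)
    (h10 : N 1 0 = 0) (h11 : N 1 1 = d * s) (h12 : N 1 2 = e * s)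
    (h20 : N 2 0 = 0) (h21 : N 2 1 = e * s) (h22 : N 2 2 = f * s) : SQ N := by
  have hd' := hd.ne'
  refine ⟨![0, s * d⁻¹, s * (d * f - e * e) * d⁻¹],
    ![![0, 0, 0], ![0, d, e], ![0, 0, 1]], ?_, ?_⟩
  · intro l
    fin_cases l
    · simp
    · show 0 ≤ s * d⁻¹
      positivity
    · exact mul_nonneg (mul_nonneg hs h3) (by positivity)
  · intro i j
    fin_cases i <;> fin_cases j <;>
      simp only [Fin.sum_univ_three, Fin.zero_eta, Fin.mk_one, Fin.reduceFinMk,
        Matrix.cons_val_zero, Matrix.cons_val_one, Matrix.cons_val, h00, h01, h02, h10, h11, h12,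
        h20, h21, h22] <;> field_simp <;> ring

theorem M3.sq {m : M3} (h : m.ok = true) {s : ℝ} (hs : 0 ≤ s) :
    SQ fun i j => (m.mat i j : ℝ) * s := by
  simp only [M3.ok, Bool.or_eq_true, Bool.and_eq_true, decide_eq_true_eq, beq_iff_eq] at h
  rcases h with ⟨⟨h1, h2⟩, h3⟩ | ⟨⟨⟨⟨h1, h2⟩, h3⟩, h4⟩, h5⟩
  · exact sq_aux m.a m.b m.c m.d m.e m.f s _ _ (by exact_mod_cast h1) (by exact_mod_cast h2) rfl rfl
      (by exact_mod_cast h3) hs rfl rfl rfl rfl rfl rfl rfl rfl rfl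
  · exact sq_aux2 m.d m.e m.f s (by exact_mod_cast h4) (by exact_mod_cast h5) hs
      (by show ((m.a : ℤ) : ℝ) * s = 0; rw [h1]; simp)
      (by show ((m.b : ℤ) : ℝ) * s = 0; rw [h2]; simp)
      (by show ((m.c : ℤ) : ℝ) * s = 0; rw [h3]; simp)
      (by show ((m.b : ℤ) : ℝ) * s = 0; rw [h2]; simp) rfl rfl
      (by show ((m.c : ℤ) : ℝ) * s = 0; rw [h3]; simp) rfl rfl

/-- The matrix times a polynomial in `u`. -/
def M3.P (m : M3) (g : P1) : P3 :=
  [[sc1 m.a g, sc1 m.b g, sc1 m.c g], [sc1 m.b g, sc1 m.d g, sc1 m.e g],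
    [sc1 m.c g, sc1 m.e g, sc1 m.f g]]

theorem M3.P_eval (m : M3) (g : P1) (x y u : ℝ) :
    ev3 x y u (m.P g) = qf (fun i j => (m.mat i j : ℝ)) x y * ev1 u g := by
  simp only [M3.P, ev3, ev2, evp, ev1_sc, qf, vv, M3.mat, Fin.sum_univ_three,
    Matrix.cons_val_zero, Matrix.cons_val_one, Matrix.cons_val]
  ring

/-- The kernel as a polynomial. -/
def phiL : List M3 → List P1 → P3
  | m :: ms, g :: gs => add3 (m.P g) (phiL ms gs)
  | _, _ => []

theorem phiL_eval (x y u : ℝ) : ∀ (ms : List M3) (gs : List P1), ms.length = gs.length →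
    ev3 x y u (phiL ms gs) = ∑ k ∈ range ms.length,
      qf (fun i j => ((ms.getD k M3.z).mat i j : ℝ)) x y * ev1 u (gs.getD k [])
  | [], [], _ => by simp [phiL, ev3, evp]
  | m :: ms, g :: gs, h => by
    have h' : ms.length = gs.length := by simpa using h
    rw [phiL, ev3_add, M3.P_eval, phiL_eval x y u ms gs h', List.length_cons,
      Finset.sum_range_succ']
    simp only [List.getD_cons_succ, List.getD_cons_zero]
    ring
  | [], _ :: _, h => by simp at h
  | _ :: _, [], h => by simp at h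

/-- A multiplier and a block. -/
structure Tm where
  /-- multiplier -/
  g : P3
  /-- block -/
  B : Blk

/-- The sum of the terms. -/
def tsum : List Tm → P3
  | [] => []
  | t :: ts => add3 (mul3 t.g t.B.poly) (tsum ts)

theorem tsum_nonneg {x y u : ℝ} : ∀ ts : List Tm, (∀ t ∈ ts, t.B.ok = true) →
    (∀ t ∈ ts, 0 ≤ ev3 x y u t.g) → 0 ≤ ev3 x y u (tsum ts)
  | [], _, _ => by simp [tsum, ev3, evp]
  | t :: ts, h1, h2 => by
    rw [tsum, ev3_add, ev3_mul]
    have h3 := tsum_nonneg ts (fun s hs => h1 s (by simp [hs])) fun s hs => h2 s (by simp [hs])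
    have h4 := Blk.nonneg (h1 t (by simp)) x y u
    have h5 := h2 t (by simp)
    positivity

/-- The sum of the coefficients. -/
def s1 : P1 → ℤ
  | [] => 0
  | a :: l => a + s1 l

/-- The substitution `u = 1`. -/
def s2 : P2 → P1
  | [] => []
  | a :: l => s1 a :: s2 l

/-- The substitution `u = 1`, `y = x`. -/
def dg : P3 → P1
  | [] => []
  | a :: l => add1 (s2 a) (0 :: dg l)

theorem s1_eval : ∀ l : P1, (s1 l : ℝ) = ev1 1 l
  | [] => by simp [s1, ev1, evp]
  | a :: l => by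
    have := s1_eval l
    simp only [ev1] at this
    simp only [s1, ev1, evp, ev0]
    push_cast
    rw [this]
    ring

theorem s2_eval (y : ℝ) : ∀ l : P2, ev1 y (s2 l) = ev2 y 1 l
  | [] => by simp [s2, ev1, ev2, evp]
  | a :: l => by
    have := s2_eval y l
    simp only [ev1, ev2] at this
    have h := s1_eval a
    simp only [ev1] at h
    simp only [s2, ev1, ev2, evp, ev0]
    rw [this, h]

theorem dg_eval (x : ℝ) : ∀ l : P3, ev1 x (dg l) = ev3 x x 1 l
  | [] => by simp [dg, ev1, ev3, evp]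
  | a :: l => by
    have h := dg_eval x l
    rw [dg, ev1_add, s2_eval]
    simp only [ev1, ev3] at h
    simp only [ev1, ev3, evp, ev0] at h ⊢
    rw [h]
    push_cast
    ring

/-- A polynomial in `x`. -/
def lx3 (l : P1) : P3 := l.map fun a => [[a]]

theorem lx3_eval (x y u : ℝ) : ∀ l : P1, ev3 x y u (lx3 l) = ev1 x l
  | [] => by simp [lx3, ev1, ev3, evp]
  | a :: l => by
    have h := lx3_eval x y u l
    simp only [lx3, ev1, ev3] at h
    simp only [lx3, List.map_cons, ev1, ev3, evp]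
    rw [h]
    simp [ev2, ev1, evp]

/-- `kappa d ≤ mu` from integer data: `S Phi` is the polynomial of the matrices `ms` and the
polynomials `gs`, where `gs_k = gd_k geg d k`. -/
theorem kappa_le_of_data {d K : ℕ} (hd : 3 ≤ d) {c0 h mu : ℝ} (hc0 : 0 < c0) (hh : 0 < h)
    (hh2 : h < 1 / 2) (hmu : 0 ≤ mu) (S c : ℤ) (hS : 0 < S) (hc : (S : ℝ) * c0 = 9 * c)
    (ms : List M3) (gs : List P1) (gd : List ℤ) (hl1 : ms.length = K + 1)
    (hl2 : gs.length = K + 1) (hgd : ∀ k, k ≤ K → 0 ≤ gd.getD k 0)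
    (hg : ∀ (u : ℝ) (k : ℕ), k ≤ K → (gd.getD k 0 : ℝ) * geg d k u = ev1 u (gs.getD k []))
    (hms : ms.all M3.ok = true)
    (ts : List Tm) (hts : (ts.all fun t => t.B.ok) = true)
    (hid : zero3 (add3 (add3 (M3.P ⟨9 * c, 3 * c, -3 * c, c, -c, c⟩ [1]) (phiL ms gs))
      (tsum ts)) = true)
    (hgpos : ∀ x y u : ℝ, -1 ≤ x → x ≤ 1 → -1 ≤ y → y ≤ 1 → -1 ≤ u →
      u ≤ 1 / 2 - h * (x + y) - 2 * h ^ 2 * (x * y) → ∀ t ∈ ts, 0 ≤ ev3 x y u t.g)
    (R : ℤ) (hR : (S : ℝ) * (2 * c0 * mu) = 3 * R)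
    (ts' : List Tm) (hts' : (ts'.all fun t => t.B.ok) = true)
    (hid' : zero3 (add3 (lx3 (add1 [-3 * R, -R, R] (mul1 [1, 1]
      (dg (add3 (M3.P ⟨9 * c, 3 * c, -3 * c, c, -c, c⟩ [1]) (phiL ms gs))))))
      (tsum ts')) = true)
    (hgpos' : ∀ x : ℝ, -1 ≤ x → x ≤ 1 → ∀ t ∈ ts', 0 ≤ ev3 x 0 0 t.g) :
    kappa d ≤ mu := by
  have hSR : (0 : ℝ) < S := by exact_mod_cast hS
  set N : ℕ → Fin 3 → Fin 3 → ℝ := fun k i j =>
    ((ms.getD k M3.z).mat i j : ℝ) * ((gd.getD k 0 : ℝ) / S) with hN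
  have hphi : ∀ x y u : ℝ, ev3 x y u (add3 (M3.P ⟨9 * c, 3 * c, -3 * c, c, -c, c⟩ [1])
      (phiL ms gs)) = S * Phi d K c0 N x y u := by
    intro x y u
    rw [ev3_add, phiL_eval x y u ms gs (by rw [hl1, hl2]), M3.P_eval, hl1]
    unfold Phi
    rw [mul_add, Finset.mul_sum]
    congr 1
    · have h1 : (S : ℝ) * (c0 * mq x * mq y) = 9 * c * (mq x * mq y) := by
        rw [← hc]
        ring
      rw [h1]
      simp only [ev1, evp, ev0, qf, vv, M3.mat, Fin.sum_univ_three, Matrix.cons_val_zero,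
        Matrix.cons_val_one, Matrix.cons_val]
      unfold mq
      push_cast
      ring
    · apply Finset.sum_congr rfl
      intro k hk
      have hk' : k ≤ K := Nat.lt_succ_iff.1 (Finset.mem_range.1 hk)
      rw [← hg u k hk']
      have h2 : qf (N k) x y = qf (fun i j => ((ms.getD k M3.z).mat i j : ℝ)) x y
          * ((gd.getD k 0 : ℝ) / S) := by
        simp only [hN, qf, Finset.sum_mul]
        apply Finset.sum_congr rfl
        intro i _
        apply Finset.sum_congr rfl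
        intro j _
        ring
      rw [h2]
      field_simp
  apply kappa_le_of_shape (K := K) hd hc0 hh hh2 hmu (N := N)
  · intro k hk
    have hmem : (ms.getD k M3.z) ∈ ms := by
      have hlt : k < ms.length := by omega
      rw [List.getD_eq_getElem _ _ hlt]
      exact List.getElem_mem hlt
    have hok : (ms.getD k M3.z).ok = true := by
      rw [List.all_eq_true] at hms
      exact hms _ hmem
    have h3 : (0 : ℝ) ≤ (gd.getD k 0 : ℝ) / S := by
      have : (0 : ℝ) ≤ (gd.getD k 0 : ℝ) := by exact_mod_cast hgd k hk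
      positivity
    exact M3.sq hok h3
  · intro x y u h1 h2 h3 h4 h5 h6
    have h7 := ev3_zero hid x y u
    rw [ev3_add, hphi] at h7
    rw [List.all_eq_true] at hts
    have h8 := tsum_nonneg ts hts (hgpos x y u h1 h2 h3 h4 h5 h6)
    have h9 : (S : ℝ) * Phi d K c0 N x y u ≤ 0 := by linarith
    by_contra hcon
    push Not at hcon
    have := mul_pos hSR hcon
    linarith
  · intro x h1 h2
    have h7 := ev3_zero hid' x 0 0
    rw [ev3_add, lx3_eval, ev1_add, ev1_mul, dg_eval, hphi] at h7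
    rw [List.all_eq_true] at hts'
    have h8 := tsum_nonneg ts' hts' (hgpos' x h1 h2)
    have h9 : ev1 x [-3 * R, -R, R] = - ((S : ℝ) * (2 * c0 * mu) * mq x) := by
      rw [hR]
      simp only [ev1, evp, ev0]
      unfold mq
      push_cast
      ring
    have h10 : ev1 x [1, 1] = 1 + x := by
      simp [ev1, evp, ev0]
    rw [h9, h10] at h7
    have h11 : (S : ℝ) * ((1 + x) * Phi d K c0 N x x 1) ≤ (S : ℝ) * (2 * c0 * mu * mq x) := by
      nlinarith
    exact le_of_mul_le_mul_left h11 hSR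

end Pool.Agent.Lib.MP_b2bfca_co.KX
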