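import Pool.Agent.Lib.MP_b2bfca_co.Harm

/-!
# Positivity of the Gegenbauer kernels

`geg d k` is the monic Gegenbauer polynomial of degree `k` for the unit sphere of `ℝ^d`.
`geg_psd`: the kernel `geg d k ⟨x, y⟩` is positive semidefinite on the unit sphere (Schoenberg).
-/

set_option autoImplicit false
set_option linter.unusedSectionVars false

namespace Pool.Agent.Lib.MP_b2bfca_co.KX

open Finset MvPolynomial

/-- The coefficients of the recursion. -/
noncomputable def gc (d k : ℕ) : ℝ :=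
  (((k : ℝ) + 1) * ((k : ℝ) + d - 2)) / (((d : ℝ) + 2 * k) * ((d : ℝ) + 2 * k - 2))

/-- The monic Gegenbauer polynomial of degree `k` in dimension `d`. -/
noncomputable def geg (d : ℕ) : ℕ → ℝ → ℝ
  | 0, _ => 1
  | 1, t => t
  | k + 2, t => t * geg d (k + 1) t - gc d k * geg d k t

variable {ι : Type*} [Fintype ι] [DecidableEq ι]

/-- Zonal harmonics. -/
private noncomputable def zh (x : ι → ℝ) (k : ℕ) : MvPolynomial ι ℝ := pw 0 x 1 k

private lemma one_Hm : Hm 0 (1 : MvPolynomial ι ℝ) := by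
  refine ⟨isHomogeneous_one ι ℝ, ?_⟩
  simp [lap]

private lemma zh_Hm (hn : 3 ≤ Fintype.card ι) (x : ι → ℝ) (k : ℕ) : Hm k (zh x k) := by
  have := pw_Hm hn (x := x) (one_Hm (ι := ι)) k
  rwa [zero_add] at this

private lemma dx_one (x : ι → ℝ) : dx x (1 : MvPolynomial ι ℝ) = 0 := by
  simp [dx]

private lemma eval_lx (x y : ι → ℝ) : eval y (lx x) = ∑ a, x a * y a := by
  simp [lx]

private lemma eval_r2 (y : ι → ℝ) : eval y (r2 : MvPolynomial ι ℝ) = ∑ a, y a * y a := by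
  simp [r2]

/-- The lowering relation, from dimension three on. -/
private lemma dx_pw3 (hn : 3 ≤ Fintype.card ι) {x : ι → ℝ} (hx : ∑ a, x a * x a = 1) (j : ℕ) :
    dx x (pw 0 x 1 (j + 1)) = C (rho ι 0 (j + 1)) * pw 0 x 1 j := by
  have hn' : (3 : ℝ) ≤ (Fintype.card ι : ℝ) := by exact_mod_cast hn
  induction j with
  | zero =>
    have e : rho ι 0 1 = 1 := by
      unfold rho
      have h1 : (Fintype.card ι : ℝ) + 2 * ((0 : ℕ) : ℝ) + 2 * ((1 : ℕ) : ℝ) - 4 ≠ 0 := by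
        push_cast
        nlinarith
      rw [div_eq_iff h1]
      push_cast
      ring
    show dx x (cx (0 + 0) x 1) = _
    rw [dx_cx_zero x (dx_one x), hx]
    simp [e, pw]
  | succ j ih =>
    have hj : (0 : ℝ) ≤ j := Nat.cast_nonneg j
    show dx x (cx (0 + (j + 1)) x (pw 0 x 1 (j + 1))) = _
    rw [dx_cx (by omega) x (by omega), hx, ih]
    have e0 : 0 + (j + 1) - 1 = 0 + j := by omega
    rw [e0, cx_C_mul]
    show C 1 * pw 0 x 1 (j + 1) + C (((Fintype.card ι : ℝ) + 2 * ((0 + (j + 1) : ℕ) : ℝ) - 4)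
      * al ι (0 + (j + 1))) * (C (rho ι 0 (j + 1)) * pw 0 x 1 (j + 1)) = _
    rw [← mul_assoc, ← map_mul, ← add_mul, ← map_add]
    congr 2
    unfold al rho
    push_cast
    have h1 : (Fintype.card ι : ℝ) + 2 * (0 + (j + 1)) - 2 ≠ 0 := by nlinarith
    have h2 : (Fintype.card ι : ℝ) + 2 * 0 + 2 * (j + 1) - 4 ≠ 0 := by nlinarith
    have h3 : (Fintype.card ι : ℝ) + 2 * 0 + 2 * (j + 1 + 1) - 4 ≠ 0 := by nlinarith
    field_simp
    ring

private lemma zh_succ (hn : 3 ≤ Fintype.card ι) {x : ι → ℝ} (hx : ∑ a, x a * x a = 1) (k : ℕ) :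
    zh x (k + 2) = lx x * zh x (k + 1) - C (al ι (k + 1) * rho ι 0 (k + 1)) * (r2 * zh x k) := by
  have h1 : zh x (k + 2) = cx (k + 1) x (zh x (k + 1)) := by
    show cx (0 + (k + 1)) x (pw 0 x 1 (k + 1)) = cx (k + 1) x (pw 0 x 1 (k + 1))
    rw [zero_add]
  rw [h1]
  unfold cx
  have h2 : dx x (zh x (k + 1)) = C (rho ι 0 (k + 1)) * zh x k :=
    dx_pw3 hn hx k
  rw [h2, map_mul]
  ring

private lemma zh_eval (hn : 3 ≤ Fintype.card ι) {x y : ι → ℝ} (hx : ∑ a, x a * x a = 1)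
    (hy : ∑ a, y a * y a = 1) (k : ℕ) :
    eval y (zh x k) = geg (Fintype.card ι) k (∑ a, x a * y a) ∧
      eval y (zh x (k + 1)) = geg (Fintype.card ι) (k + 1) (∑ a, x a * y a) := by
  have hn' : (3 : ℝ) ≤ (Fintype.card ι : ℝ) := by exact_mod_cast hn
  induction k with
  | zero =>
    constructor
    · simp [zh, pw, geg]
    · show eval y (cx (0 + 0) x 1) = ∑ a, x a * y a
      unfold cx
      rw [dx_one]
      simp [eval_lx]
  | succ k ih =>
    refine ⟨ih.2, ?_⟩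
    show eval y (zh x (k + 2)) = geg (Fintype.card ι) (k + 2) (∑ a, x a * y a)
    rw [zh_succ hn hx k]
    simp only [map_sub, map_mul, eval_C, eval_lx, eval_r2, hy, ih.1, ih.2, geg, one_mul]
    congr 2
    unfold al rho gc
    have hk : (0 : ℝ) ≤ k := Nat.cast_nonneg k
    have h1 : (Fintype.card ι : ℝ) + 2 * k ≠ 0 := by nlinarith
    have h2 : (Fintype.card ι : ℝ) + 2 * k - 2 ≠ 0 := by nlinarith
    have h3 : (Fintype.card ι : ℝ) + 2 * ((k + 1 : ℕ) : ℝ) - 2 ≠ 0 := by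
      push_cast
      nlinarith
    have h4 : (Fintype.card ι : ℝ) + 2 * ((0 : ℕ) : ℝ) + 2 * ((k + 1 : ℕ) : ℝ) - 4 ≠ 0 := by
      push_cast
      nlinarith
    push_cast at h3 h4 ⊢
    rw [div_mul_div_comm, div_eq_div_iff (mul_ne_zero h3 h4) (mul_ne_zero h1 h2)]
    ring

private lemma eval_dx {k : ℕ} {q : MvPolynomial ι ℝ} (hq : q.IsHomogeneous k) (y : ι → ℝ) :
    eval y (dx y q) = k * eval y q := by
  have h := congrArg (eval y) hq.sum_X_mul_pderiv
  rw [nsmul_eq_mul, map_mul, map_natCast] at h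
  rw [← h]
  simp [dx]

private lemma fi_one_C (c : ℝ) : fi (1 : MvPolynomial ι ℝ) (C c) = c := by
  rw [← C_1, ← monomial_zero', fi_monomial_left]
  simp [fc]

private lemma fi_zh (y : ι → ℝ) (k : ℕ) :
    ∀ q : MvPolynomial ι ℝ, Hm k q → fi (zh y k) q = (k.factorial : ℝ) * eval y q := by
  induction k with
  | zero =>
    intro q hq
    have h1 := hq.1
    rw [← totalDegree_zero_iff_isHomogeneous, totalDegree_eq_zero_iff_eq_C] at h1
    rw [h1]
    show fi 1 _ = _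
    rw [fi_one_C]
    simp
  | succ k ih =>
    intro q hq
    have h1 : zh y (k + 1) = cx k y (zh y k) := by
      show cx (0 + k) y (pw 0 y 1 k) = cx k y (pw 0 y 1 k)
      rw [zero_add]
    have h2 := hq.dx y
    rw [Nat.add_sub_cancel] at h2
    rw [h1, fi_cx y _ hq.2, ih _ h2, eval_dx hq.1, Nat.factorial_succ]
    push_cast
    ring

/-- The Fischer product of two zonal harmonics. -/
private lemma fi_zh_zh (hn : 3 ≤ Fintype.card ι) {x y : ι → ℝ} (hx : ∑ a, x a * x a = 1)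
    (hy : ∑ a, y a * y a = 1) (k : ℕ) :
    fi (zh x k) (zh y k) = (k.factorial : ℝ) * geg (Fintype.card ι) k (∑ a, x a * y a) := by
  rw [fi_zh x k _ (zh_Hm (by omega) y k), (zh_eval hn hy hx k).1]
  congr 2
  exact Finset.sum_congr rfl fun a _ => mul_comm _ _

theorem geg_psd_aux (hn : 3 ≤ Fintype.card ι) {κ : Type*} (S : Finset κ) (x : κ → ι → ℝ)
    (hx : ∀ i ∈ S, ∑ a, x i a * x i a = 1) (u : κ → ℝ) (k : ℕ) :
    0 ≤ ∑ i ∈ S, ∑ j ∈ S, u i * u j * geg (Fintype.card ι) k (∑ a, x i a * x j a) := by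
  have h1 : fi (∑ i ∈ S, C (u i) * zh (x i) k) (∑ i ∈ S, C (u i) * zh (x i) k)
      = (k.factorial : ℝ) * ∑ i ∈ S, ∑ j ∈ S, u i * u j
        * geg (Fintype.card ι) k (∑ a, x i a * x j a) := by
    rw [fi_sum_left, Finset.mul_sum]
    apply Finset.sum_congr rfl
    intro i hi
    rw [fi_sum_right, Finset.mul_sum]
    apply Finset.sum_congr rfl
    intro j hj
    rw [fi_C_mul_left, fi_C_mul_right, fi_zh_zh hn (hx i hi) (hx j hj)]
    ring
  have h2 := fi_self_nonneg (∑ i ∈ S, C (u i) * zh (x i) k)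
  rw [h1] at h2
  have h3 : (0 : ℝ) < (k.factorial : ℝ) := by exact_mod_cast Nat.factorial_pos k
  exact (mul_nonneg_iff_of_pos_left h3).1 h2

/-- Schoenberg: the kernel `geg d k ⟨x, y⟩` is positive semidefinite on the unit sphere. -/
theorem geg_psd {d : ℕ} (hd : 3 ≤ d) {κ : Type*} (S : Finset κ)
    (x : κ → EuclideanSpace ℝ (Fin d)) (hx : ∀ i ∈ S, ‖x i‖ = 1) (u : κ → ℝ) (k : ℕ) :
    0 ≤ ∑ i ∈ S, ∑ j ∈ S, u i * u j * geg d k (inner ℝ (x i) (x j)) := by
  have hin : ∀ v w : EuclideanSpace ℝ (Fin d), inner ℝ v w = ∑ a, v a * w a := by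
    intro v w
    rw [PiLp.inner_apply]
    exact Finset.sum_congr rfl fun a _ => by simp [mul_comm]
  have h := geg_psd_aux (ι := Fin d) (by rw [Fintype.card_fin]; exact hd) S
    (fun i a => x i a) (fun i hi => by
      rw [← hin, real_inner_self_eq_norm_sq, hx i hi]
      norm_num) u k
  rw [Fintype.card_fin] at h
  simpa only [hin] using h

end Pool.Agent.Lib.MP_b2bfca_co.KX
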