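import Pool.Agent.Lib.MP_b2bfca_co.KX.Fin

/-!
# From integer data to the bound, general form

Any dimension `d ≥ 3`, any number of features `1, x, ..., x^(n-1)`, any weight
`w = (1 + x) mq(x) / (2 m0)` with `w(x) + w(-x) = 1`, any rational bound.
-/

set_option autoImplicit false

namespace Pool.Agent.Lib.MP_b2bfca_co.KX

open Finset

/-- A kernel given by a positive semidefinite matrix and one Gegenbauer polynomial. -/
theorem PD.psd {d : ℕ} (hd : 3 ≤ d) {n : ℕ} (M : ℕ → ℕ → ℝ)
    (hsym : ∀ i < n, ∀ j < n, M i j = M j i)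
    (hM : ∀ v : ℕ → ℝ, 0 ≤ ∑ i ∈ range n, ∑ j ∈ range n, M i j * v i * v j)
    (φ : ℝ → ℕ → ℝ) (k : ℕ) :
    PD d fun a b u => (∑ i ∈ range n, ∑ j ∈ range n, M i j * φ a i * φ b j) * KX.geg d k u := by
  classical
  set A : Matrix (Fin n) (Fin n) ℝ := fun i j => M i j with hA
  have hpsd : A.PosSemidef := by
    refine Matrix.PosSemidef.of_dotProduct_mulVec_nonneg ?_ fun x => ?_
    · apply Matrix.IsHermitian.ext
      intro i j
      simp only [hA, star_trivial]
      exact hsym j j.2 i i.2
    · have h1 := hM fun i => if h : i < n then x ⟨i, h⟩ else 0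
      have h2 : star x ⬝ᵥ A.mulVec x = ∑ i : Fin n, ∑ j : Fin n, M i j * x i * x j := by
        simp only [dotProduct, Matrix.mulVec, star_trivial, hA, Finset.mul_sum]
        apply Finset.sum_congr rfl
        intro i _
        apply Finset.sum_congr rfl
        intro j _
        ring
      rw [h2]
      refine h1.trans (le_of_eq ?_)
      rw [Finset.sum_range]
      apply Finset.sum_congr rfl
      intro i _
      rw [Finset.sum_range]
      apply Finset.sum_congr rfl
      intro j _
      simp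
  obtain ⟨B, hB⟩ : ∃ B : Matrix (Fin n) (Fin n) ℝ, A = star B * B := by
    open scoped MatrixOrder in
    exact CStarAlgebra.nonneg_iff_eq_star_mul_self.mp hpsd.nonneg
  have hent : ∀ i j : Fin n, M i j = ∑ l : Fin n, B l i * B l j := by
    intro i j
    have h1 : A i j = (star B * B) i j := by rw [hB]
    simp only [Matrix.mul_apply, Matrix.star_apply, star_trivial] at h1
    exact h1
  have h2 : PD d fun a b u => ∑ l : Fin n, (∑ i : Fin n, B l i * φ a i)
      * (∑ i : Fin n, B l i * φ b i) * KX.geg d k u := by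
    apply PD.sum
    intro l _
    exact PD.geg hd (fun a => ∑ i : Fin n, B l i * φ a i) k
  refine h2.congr fun a b u => ?_
  rw [← Finset.sum_mul]
  congr 1
  rw [Finset.sum_range]
  have h3 : ∀ i : Fin n, ∑ j ∈ range n, M i j * φ a i * φ b j
      = ∑ l : Fin n, ∑ j : Fin n, (B l i * φ a i) * (B l j * φ b j) := by
    intro i
    rw [Finset.sum_range, Finset.sum_comm]
    apply Finset.sum_congr rfl
    intro j _
    rw [hent, Finset.sum_mul, Finset.sum_mul]
    apply Finset.sum_congr rfl
    intro l _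
    ring
  simp only [h3]
  rw [Finset.sum_comm]
  apply Finset.sum_congr rfl
  intro l _
  rw [Finset.sum_mul_sum]

theorem evp_sum {R : Type} (ev : R → ℝ) (t : ℝ) (e : R) : ∀ l : List R,
    evp ev t l = ∑ i ∈ range l.length, ev (l.getD i e) * t ^ i
  | [] => by simp [evp]
  | a :: l => by
    rw [evp, evp_sum ev t e l, List.length_cons, Finset.sum_range_succ', Finset.mul_sum]
    simp only [List.getD_cons_succ, List.getD_cons_zero, pow_zero, mul_one]
    rw [add_comm]
    congr 1
    apply Finset.sum_congr rfl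
    intro i _
    ring

/-- A matrix times a polynomial in `u`. -/
def mP (M : List (List ℤ)) (g : P1) : P3 := M.map fun r => r.map fun a => sc1 a g

theorem mP_eval (x y u : ℝ) (g : P1) {n : ℕ} {M : List (List ℤ)} (h1 : M.length = n)
    (h2 : ∀ r ∈ M, r.length = n) :
    ev3 x y u (mP M g) = (∑ i ∈ range n, ∑ j ∈ range n, (ge M i j : ℝ) * x ^ i * y ^ j)
      * ev1 u g := by
  have h3 : ∀ r : List ℤ, r.length = n → ev2 y u (r.map fun a => sc1 a g)
      = (∑ j ∈ range n, (r.getD j 0 : ℝ) * y ^ j) * ev1 u g := by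
    intro r hr
    unfold ev2
    rw [evp_sum (ev1 u) y (sc1 0 g), List.length_map, hr, Finset.sum_mul]
    apply Finset.sum_congr rfl
    intro j _
    rw [List.getD_map (f := fun a => sc1 a g) (d := 0), ev1_sc]
    ring
  unfold ev3 mP
  rw [evp_sum (ev2 y u) x (([] : List ℤ).map fun a => sc1 a g), List.length_map, h1,
    Finset.sum_mul]
  apply Finset.sum_congr rfl
  intro i hi
  rw [List.getD_map (f := fun r : List ℤ => r.map fun a => sc1 a g) (d := [])]
  have hlt : i < M.length := by
    rw [h1]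
    exact Finset.mem_range.1 hi
  have hmem : M.getD i [] ∈ M := by
    rw [List.getD_eq_getElem _ _ hlt]
    exact List.getElem_mem hlt
  rw [h3 _ (h2 _ hmem)]
  simp only [Finset.sum_mul]
  apply Finset.sum_congr rfl
  intro j _
  simp only [ge]
  ring

/-- A matrix with its certificate. -/
structure Mt where
  /-- matrix -/
  M : List (List ℤ)
  /-- scale -/
  s : ℤ
  /-- factor -/
  L : List (List ℤ)

/-- The empty matrix. -/
def Mt.z : Mt := ⟨[], 1, []⟩

/-- The kernel as a polynomial. -/
def phiM : List Mt → List P1 → P3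
  | m :: ms, g :: gs => add3 (mP m.M g) (phiM ms gs)
  | _, _ => []

/-- The quadratic form. -/
noncomputable def qm (n : ℕ) (m : Mt) (x y : ℝ) : ℝ :=
  ∑ i ∈ range n, ∑ j ∈ range n, (ge m.M i j : ℝ) * x ^ i * y ^ j

theorem phiM_eval (x y u : ℝ) {n : ℕ} : ∀ (ms : List Mt) (gs : List P1), ms.length = gs.length →
    (∀ m ∈ ms, m.M.length = n ∧ ∀ r ∈ m.M, r.length = n) →
    ev3 x y u (phiM ms gs) = ∑ k ∈ range ms.length,
      qm n (ms.getD k Mt.z) x y * ev1 u (gs.getD k [])
  | [], [], _, _ => by simp [phiM, ev3, evp]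
  | m :: ms, g :: gs, h, hm => by
    have h' : ms.length = gs.length := by simpa using h
    have h1 := hm m (by simp)
    rw [phiM, ev3_add, mP_eval x y u g h1.1 h1.2, phiM_eval x y u ms gs h'
      (fun m' hm' => hm m' (by simp [hm'])), List.length_cons, Finset.sum_range_succ']
    simp only [List.getD_cons_succ, List.getD_cons_zero, qm]
    ring
  | [], _ :: _, h, _ => by simp at h
  | _ :: _, [], h, _ => by simp at h

/-- `p(-x)`. -/
def flip1 : P1 → P1
  | [] => []
  | a :: l => a :: sc1 (-1) (flip1 l)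

theorem flip1_eval (x : ℝ) : ∀ l : P1, ev1 x (flip1 l) = ev1 (-x) l
  | [] => by simp [flip1, ev1, evp]
  | a :: l => by
    have h := flip1_eval x l
    have h2 := ev1_sc (-1) x (flip1 l)
    simp only [ev1] at h h2 ⊢
    simp only [flip1, evp]
    rw [h2, h]
    push_cast
    ring

/-- The zero test in one variable. -/
def zero1 : P1 → Bool := pzero fun a : ℤ => a == 0

theorem ev1_zero {l : P1} (h : zero1 l = true) (x : ℝ) : ev1 x l = 0 :=
  evp_zero (fun _ h0 => by
    simp only [beq_iff_eq] at h0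
    simp [ev0, h0]) x l h

/-- `kappa d ≤ mun / mud` from integer data. `mq` and `m0`: the weight is
`w = (1 + x) mq(x) / (2 m0)`; the polynomial of the kernel is `c mq(x) mq(y)` plus the polynomial of the
matrices `ms` and the polynomials `gs`, where `gs_k = gd_k geg d k`. -/
theorem kappa_le_gen {d K n : ℕ} (hd : 3 ≤ d) {h : ℝ} (hh : 0 < h)
    (hh2 : h < 1 / 2) (mun mud : ℤ) (hmun : 0 ≤ mun) (hmud : 0 < mud)
    (mq : P1) (m0 : ℤ) (hm0 : 0 < m0) (c : ℤ) (hc : 0 < c)
    (hmq0 : ∀ x : ℝ, -1 ≤ x → x ≤ 1 → 0 ≤ ev1 x mq) (hmq1 : (m0 : ℝ) ≤ ev1 1 mq)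
    (hmq2 : zero1 (add1 (add1 (mul1 [1, 1] mq) (mul1 [1, -1] (flip1 mq))) [-2 * m0]) = true)
    (ms : List Mt) (gs : List P1) (gd : List ℤ) (hl1 : ms.length = K + 1)
    (hl2 : gs.length = K + 1) (hgd : ∀ k, k ≤ K → 0 ≤ gd.getD k 0)
    (hg : ∀ (u : ℝ) (k : ℕ), k ≤ K → (gd.getD k 0 : ℝ) * geg d k u = ev1 u (gs.getD k []))
    (hms : (ms.all fun m => psdOK n m.s m.M m.L) = true)
    (ts : List Tm) (hts : (ts.all fun t => t.B.ok) = true)
    (hid : zero3 (add3 (add3 (mul3 (lx3 mq) (sc3 c [mq.map fun a => [a]])) (phiM ms gs))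
      (tsum ts)) = true)
    (hgpos : ∀ x y u : ℝ, -1 ≤ x → x ≤ 1 → -1 ≤ y → y ≤ 1 → -1 ≤ u →
      u ≤ 1 / 2 - h * (x + y) - 2 * h ^ 2 * (x * y) → ∀ t ∈ ts, 0 ≤ ev3 x y u t.g)
    (ts' : List Tm) (hts' : (ts'.all fun t => t.B.ok) = true)
    (hid' : zero3 (add3 (lx3 (add1 (sc1 (-(2 * c * m0 * mun)) mq) (sc1 mud (mul1 [1, 1]
      (dg (add3 (mul3 (lx3 mq) (sc3 c [mq.map fun a => [a]])) (phiM ms gs)))))))
      (tsum ts')) = true)
    (hgpos' : ∀ x : ℝ, -1 ≤ x → x ≤ 1 → ∀ t ∈ ts', 0 ≤ ev3 x 0 0 t.g) :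
    kappa d ≤ (mun : ℝ) / mud := by
  have hm0R : (0 : ℝ) < m0 := by exact_mod_cast hm0
  have hcR : (0 : ℝ) < c := by exact_mod_cast hc
  have hmudR : (0 : ℝ) < mud := by exact_mod_cast hmud
  have hmunR : (0 : ℝ) ≤ mun := by exact_mod_cast hmun
  set P : P3 := add3 (mul3 (lx3 mq) (sc3 c [mq.map fun a => [a]])) (phiM ms gs) with hP
  have hok : ∀ m ∈ ms, psdOK n m.s m.M m.L = true := by
    rw [List.all_eq_true] at hms
    exact hms
  have hlen : ∀ m ∈ ms, m.M.length = n ∧ ∀ r ∈ m.M, r.length = n := by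
    intro m hm
    have h1 := hok m hm
    simp only [psdOK, Bool.and_eq_true, beq_iff_eq, List.all_eq_true] at h1
    exact ⟨h1.1.1.1.2, h1.1.1.2⟩
  have hmem : ∀ k, k ≤ K → ms.getD k Mt.z ∈ ms := by
    intro k hk
    have hlt : k < ms.length := by omega
    rw [List.getD_eq_getElem _ _ hlt]
    exact List.getElem_mem hlt
  have hly : ∀ y u : ℝ, ∀ l : P1, ev2 y u (l.map fun a => [a]) = ev1 y l := by
    intro y u l
    have h1 := lx3_eval y 0 u l
    rw [← h1]
    unfold lx3
    induction l with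
    | nil => simp [ev2, ev3, evp]
    | cons a l ih =>
      have h2 := ih (lx3_eval y 0 u l)
      simp only [ev2, ev3] at h2
      simp only [List.map_cons, ev2, ev3, evp]
      rw [h2]
      simp
  have hPe : ∀ x y u : ℝ, ev3 x y u P = c * (ev1 x mq * ev1 y mq)
      + ∑ k ∈ range (K + 1), ((gd.getD k 0 : ℝ) * (qm n (ms.getD k Mt.z) x y * geg d k u)) := by
    intro x y u
    rw [hP, ev3_add, ev3_mul, lx3_eval, ev3_sc, phiM_eval x y u ms gs (by rw [hl1, hl2]) hlen, hl1]
    congr 1
    · have h1 : ev3 x y u [mq.map fun a => [a]] = ev1 y mq := by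
        simp only [ev3, evp]
        rw [hly]
        ring
      rw [h1]
      ring
    · apply Finset.sum_congr rfl
      intro k hk
      rw [← hg u k (Nat.lt_succ_iff.1 (Finset.mem_range.1 hk))]
      ring
  -- the certificate
  have hx : ∀ a : ℝ, 1 / 2 - h ≤ a → a ≤ 1 / 2 + h → -1 ≤ xx h a ∧ xx h a ≤ 1 := by
    intro a h1 h2
    unfold xx
    constructor
    · rw [le_div_iff₀ hh]
      linarith
    · rw [div_le_iff₀ hh]
      linarith
  have hax : ∀ a : ℝ, a = 1 / 2 + h * xx h a := by
    intro a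
    unfold xx
    field_simp
    ring
  have hC : Cert d (1 / 2 - h) (1 / 2 + h) (4 * c * m0 ^ 2) ((mun : ℝ) / mud)
      (fun a => (1 + xx h a) * ev1 (xx h a) mq / (2 * m0))
      (fun a b u => (1 + xx h a) * (1 + xx h b) * ev3 (xx h a) (xx h b) u P) := by
    refine ⟨by linarith, by linarith, by ring, by positivity, by positivity, ?_, ?_, ?_, ?_, ?_, ?_⟩
    · intro a h1 h2
      obtain ⟨h3, h4⟩ := hx a h1 h2
      have h5 := hmq0 _ h3 h4
      have h6 : 0 ≤ 1 + xx h a := by linarith
      positivity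
    · have h1 : xx h (1 / 2 + h) = 1 := by
        unfold xx
        rw [div_eq_one_iff_eq hh.ne']
        ring
      simp only [h1]
      rw [le_div_iff₀ (by positivity)]
      linarith
    · intro a _ _
      have h1 : xx h (1 - a) = - xx h a := by
        unfold xx
        rw [← neg_div]
        congr 1
        ring
      simp only [h1]
      have h2 := ev1_zero hmq2 (xx h a)
      rw [ev1_add, ev1_add, ev1_mul, ev1_mul, flip1_eval] at h2
      have e1 : ev1 (xx h a) [1, 1] = 1 + xx h a := by simp [ev1, evp, ev0]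
      have e2 : ev1 (xx h a) [1, -1] = 1 + - xx h a := by simp [ev1, evp, ev0]
      have e3 : ev1 (xx h a) [-2 * m0] = -2 * m0 := by simp [ev1, evp, ev0]
      rw [e1, e2, e3] at h2
      rw [← add_div, le_div_iff₀ (by positivity)]
      linarith
    · have h1 : PD d fun a b u => ∑ k ∈ range (K + 1),
          (gd.getD k 0 : ℝ) * ((∑ i ∈ range n, ∑ j ∈ range n, (ge (ms.getD k Mt.z).M i j : ℝ)
            * ((1 + xx h a) * xx h a ^ i) * ((1 + xx h b) * xx h b ^ j)) * geg d k u) := by
        apply PD.sum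
        intro k hk
        have hk' : k ≤ K := Nat.lt_succ_iff.1 (Finset.mem_range.1 hk)
        have h2 := hok _ (hmem k hk')
        have h3 : (0 : ℝ) ≤ (gd.getD k 0 : ℝ) := by exact_mod_cast hgd k hk'
        refine PD.smul (PD.psd hd (fun i j => (ge (ms.getD k Mt.z).M i j : ℝ)) ?_ (psd_of_ok h2)
          (fun a i => (1 + xx h a) * xx h a ^ i) k) h3
        intro i hi j hj
        have h4 := h2
        simp only [psdOK, Bool.and_eq_true] at h4
        have hsym := h4.1.2
        rcases lt_trichotomy i j with h5 | h5 | h5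
        · have := allN_iff (allN_iff hsym j hj) i h5
          simp only [beq_iff_eq] at this
          simp only [this]
        · rw [h5]
        · have := allN_iff (allN_iff hsym i hi) j h5
          simp only [beq_iff_eq] at this
          simp only [this]
      refine h1.congr fun a b u => ?_
      rw [hPe, mul_add, Finset.mul_sum]
      have h2 : ∀ k, (1 + xx h a) * (1 + xx h b) * ((gd.getD k 0 : ℝ)
          * (qm n (ms.getD k Mt.z) (xx h a) (xx h b) * geg d k u))
          = (gd.getD k 0 : ℝ) * ((∑ i ∈ range n, ∑ j ∈ range n, (ge (ms.getD k Mt.z).M i j : ℝ)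
            * ((1 + xx h a) * xx h a ^ i) * ((1 + xx h b) * xx h b ^ j)) * geg d k u) := by
        intro k
        have h3 : (1 + xx h a) * (1 + xx h b) * qm n (ms.getD k Mt.z) (xx h a) (xx h b)
            = ∑ i ∈ range n, ∑ j ∈ range n, (ge (ms.getD k Mt.z).M i j : ℝ)
            * ((1 + xx h a) * xx h a ^ i) * ((1 + xx h b) * xx h b ^ j) := by
          unfold qm
          rw [Finset.mul_sum]
          apply Finset.sum_congr rfl
          intro i _
          rw [Finset.mul_sum]
          apply Finset.sum_congr rfl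
          intro j _
          ring
        rw [← h3]
        ring
      simp only [h2]
      field_simp
      ring
    · intro a b u h1 h2 h3 h4 h5 h6
      obtain ⟨h7, h8⟩ := hx a h1 h2
      obtain ⟨h9, h10⟩ := hx b h3 h4
      have h7' := ev3_zero hid (xx h a) (xx h b) u
      rw [ev3_add] at h7'
      rw [List.all_eq_true] at hts
      have h8' := tsum_nonneg ts hts (hgpos _ _ u h7 h8 h9 h10 h5 (by
        refine h6.trans (le_of_eq ?_)
        conv_lhs => rw [hax a, hax b]
        ring))
      have h12 : 0 ≤ (1 + xx h a) * (1 + xx h b) := mul_nonneg (by linarith) (by linarith)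
      exact mul_nonpos_of_nonneg_of_nonpos h12 (by linarith)
    · intro a h1 h2
      obtain ⟨h3, h4⟩ := hx a h1 h2
      have h7 := ev3_zero hid' (xx h a) 0 0
      rw [ev3_add, lx3_eval, ev1_add, ev1_sc, ev1_sc, ev1_mul, dg_eval] at h7
      rw [List.all_eq_true] at hts'
      have h8 := tsum_nonneg ts' hts' (hgpos' _ h3 h4)
      have h10 : ev1 (xx h a) [1, 1] = 1 + xx h a := by simp [ev1, evp, ev0]
      rw [h10] at h7
      push_cast at h7
      have h11 : (mud : ℝ) * ((1 + xx h a) * ev3 (xx h a) (xx h a) 1 P)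
          ≤ 2 * c * m0 * mun * ev1 (xx h a) mq := by linarith
      have h6 : 0 ≤ 1 + xx h a := by linarith
      have h13 := mul_le_mul_of_nonneg_left h11 h6
      have h14 : 4 * (c : ℝ) * m0 ^ 2 * ((mun : ℝ) / mud)
          * ((1 + xx h a) * ev1 (xx h a) mq / (2 * m0))
          = (1 + xx h a) * (2 * c * m0 * mun * ev1 (xx h a) mq) / mud := by
        field_simp
        ring
      rw [h14, le_div_iff₀ hmudR]
      linarith
  exact hC.kappa_le

end Pool.Agent.Lib.MP_b2bfca_co.KX
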