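import Pool.Agent.Lib.MP_b2bfca_co.KX.Fin

/-!
# Kronecker substitution: a polynomial identity from one integer identity

`kv3 X Y U T`: the value at integers; `nv3 x y u T`: the value at natural numbers of the polynomial
with the absolute values of the coefficients. If `nv3 1 1 1 T < U`, `nv3 1 1 U T < Y`,
`nv3 1 Y U T < X` and `kv3 X Y U T = 0`, then all coefficients of `T` are zero.
-/

set_option autoImplicit false

namespace Pool.Agent.Lib.MP_b2bfca_co.KX

open Finset

section generic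

variable {R : Type}

/-- Integer value. -/
def kvp (kv : R → ℤ) (t : ℤ) : List R → ℤ
  | [] => 0
  | a :: l => kv a + t * kvp kv t l

/-- Norm. -/
def nvp (nv : R → ℕ) (t : ℕ) : List R → ℕ
  | [] => 0
  | a :: l => nv a + t * nvp nv t l

theorem evp_cast {ev : R → ℝ} {kv : R → ℤ} (h : ∀ a, ev a = (kv a : ℝ)) (t : ℤ) :
    ∀ l : List R, evp ev (t : ℝ) l = ((kvp kv t l : ℤ) : ℝ)
  | [] => by simp [evp, kvp]
  | a :: l => by
    simp only [evp, kvp, h, evp_cast h t l]
    push_cast
    ring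

theorem nvp_add {add : R → R → R} {nv : R → ℕ} (h : ∀ a b, nv (add a b) ≤ nv a + nv b) (t : ℕ) :
    ∀ l m : List R, nvp nv t (padd add l m) ≤ nvp nv t l + nvp nv t m
  | [], m => by simp [padd, nvp]
  | a :: l, [] => by simp [padd, nvp]
  | a :: l, b :: m => by
    simp only [padd, nvp]
    have h1 := h a b
    have h2 := Nat.mul_le_mul_left t (nvp_add h t l m)
    rw [Nat.mul_add] at h2
    omega

theorem nvp_map {f : R → R} {nv : R → ℕ} {c : ℕ} (h : ∀ a, nv (f a) ≤ c * nv a) (t : ℕ) :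
    ∀ l : List R, nvp nv t (l.map f) ≤ c * nvp nv t l
  | [] => by simp [nvp]
  | a :: l => by
    simp only [List.map_cons, nvp]
    have h1 := h a
    have h2 := Nat.mul_le_mul_left t (nvp_map h t l)
    calc nv (f a) + t * nvp nv t (l.map f) ≤ c * nv a + t * (c * nvp nv t l) :=
          Nat.add_le_add h1 h2
      _ = c * (nv a + t * nvp nv t l) := by ring

theorem nvp_mul {add mul : R → R → R} {zero : R} {nv : R → ℕ}
    (ha : ∀ a b, nv (add a b) ≤ nv a + nv b) (hm : ∀ a b, nv (mul a b) ≤ nv a * nv b)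
    (h0 : nv zero = 0) (t : ℕ) :
    ∀ l m : List R, nvp nv t (pmul add mul zero l m) ≤ nvp nv t l * nvp nv t m
  | [], m => by simp [pmul, nvp]
  | a :: l, m => by
    simp only [pmul]
    refine (nvp_add ha t _ _).trans ?_
    have h1 := nvp_map (hm a) t m
    have h2 := Nat.mul_le_mul_left t (nvp_mul ha hm h0 t l m)
    simp only [nvp, h0]
    calc nvp nv t (m.map (mul a)) + (0 + t * nvp nv t (pmul add mul zero l m))
        ≤ nv a * nvp nv t m + (0 + t * (nvp nv t l * nvp nv t m)) :=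
          Nat.add_le_add h1 (Nat.add_le_add_left h2 0)
      _ = (nv a + t * nvp nv t l) * nvp nv t m := by ring

theorem nvp_mem {nv : R → ℕ} : ∀ (l : List R) (a : R), a ∈ l → nv a ≤ nvp nv 1 l
  | b :: l, a, h => by
    simp only [nvp, Nat.one_mul]
    rcases List.mem_cons.1 h with rfl | h
    · omega
    · have := nvp_mem (nv := nv) l a h
      omega

theorem kvp_le {kv : R → ℤ} {nv : R → ℕ} (h : ∀ a, (kv a).natAbs ≤ nv a) (t : ℕ) :
    ∀ l : List R, (kvp kv (t : ℤ) l).natAbs ≤ nvp nv t l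
  | [] => by simp [kvp, nvp]
  | a :: l => by
    simp only [kvp, nvp]
    refine (Int.natAbs_add_le _ _).trans (Nat.add_le_add (h a) ?_)
    rw [Int.natAbs_mul, Int.natAbs_natCast]
    exact Nat.mul_le_mul_left t (kvp_le h t l)

theorem kvp_zero {kv : R → ℤ} {nv : R → ℕ} (h : ∀ a, (kv a).natAbs ≤ nv a) {t : ℕ} :
    ∀ l : List R, nvp nv 1 l < t → kvp kv (t : ℤ) l = 0 → ∀ a ∈ l, kv a = 0
  | [], _, _ => by simp
  | b :: l, hb, h0 => by
    simp only [nvp, Nat.one_mul] at hb
    simp only [kvp] at h0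
    have h1 := h b
    have h2 : (t : ℤ) ∣ kv b := ⟨-kvp kv (t : ℤ) l, by linarith⟩
    have h3 : kv b = 0 := by
      apply Int.eq_zero_of_abs_lt_dvd h2
      rw [Int.abs_eq_natAbs]
      omega
    rw [h3, zero_add] at h0
    have h4 : kvp kv (t : ℤ) l = 0 := by
      rcases mul_eq_zero.1 h0 with h5 | h5
      · exfalso
        have : t = 0 := by exact_mod_cast h5
        omega
      · exact h5
    intro a ha
    rcases List.mem_cons.1 ha with rfl | ha
    · exact h3
    · exact kvp_zero h l (by omega) h4 a ha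

theorem evp_all_zero {ev : R → ℝ} (t : ℝ) : ∀ l : List R, (∀ a ∈ l, ev a = 0) → evp ev t l = 0
  | [], _ => by simp [evp]
  | a :: l, h => by
    simp only [evp, h a (by simp), evp_all_zero t l (fun b hb => h b (by simp [hb]))]
    ring

end generic

/-- Value. -/
def kv1 (u : ℤ) : P1 → ℤ := kvp (fun a => a) u

/-- Value. -/
def kv2 (y u : ℤ) : P2 → ℤ := kvp (kv1 u) y

/-- Value. -/
def kv3 (x y u : ℤ) : P3 → ℤ := kvp (kv2 y u) x

/-- Norm. -/
def nv1 (u : ℕ) : P1 → ℕ := nvp Int.natAbs u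

/-- Norm. -/
def nv2 (y u : ℕ) : P2 → ℕ := nvp (nv1 u) y

/-- Norm. -/
def nv3 (x y u : ℕ) : P3 → ℕ := nvp (nv2 y u) x

theorem ev1_cast (u : ℤ) (l : P1) : ev1 (u : ℝ) l = (kv1 u l : ℝ) :=
  evp_cast (fun a => by simp [ev0]) u l

theorem ev2_cast (y u : ℤ) (l : P2) : ev2 (y : ℝ) (u : ℝ) l = (kv2 y u l : ℝ) :=
  evp_cast (fun a => ev1_cast u a) y l

theorem ev3_cast (x y u : ℤ) (l : P3) : ev3 (x : ℝ) (y : ℝ) (u : ℝ) l = (kv3 x y u l : ℝ) :=
  evp_cast (fun a => ev2_cast y u a) x l

theorem kv3_add (x y u : ℤ) (l m : P3) : kv3 x y u (add3 l m) = kv3 x y u l + kv3 x y u m := by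
  have h := ev3_add (x : ℝ) (y : ℝ) (u : ℝ) l m
  rw [ev3_cast, ev3_cast, ev3_cast] at h
  exact_mod_cast h

theorem kv3_mul (x y u : ℤ) (l m : P3) : kv3 x y u (mul3 l m) = kv3 x y u l * kv3 x y u m := by
  have h := ev3_mul (x : ℝ) (y : ℝ) (u : ℝ) l m
  rw [ev3_cast, ev3_cast, ev3_cast] at h
  exact_mod_cast h

theorem kv3_sc (c x y u : ℤ) (l : P3) : kv3 x y u (sc3 c l) = c * kv3 x y u l := by
  have h := ev3_sc c (x : ℝ) (y : ℝ) (u : ℝ) l
  rw [ev3_cast, ev3_cast] at h
  exact_mod_cast h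

theorem nv1_add (u : ℕ) (l m : P1) : nv1 u (add1 l m) ≤ nv1 u l + nv1 u m :=
  nvp_add (fun a b => Int.natAbs_add_le a b) u l m

theorem nv2_add (y u : ℕ) (l m : P2) : nv2 y u (add2 l m) ≤ nv2 y u l + nv2 y u m :=
  nvp_add (nv1_add u) y l m

theorem nv3_add (x y u : ℕ) (l m : P3) : nv3 x y u (add3 l m) ≤ nv3 x y u l + nv3 x y u m :=
  nvp_add (nv2_add y u) x l m

theorem nv1_mul (u : ℕ) (l m : P1) : nv1 u (mul1 l m) ≤ nv1 u l * nv1 u m :=
  nvp_mul (fun a b => Int.natAbs_add_le a b) (fun a b => (Int.natAbs_mul a b).le) rfl u l m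

theorem nv2_mul (y u : ℕ) (l m : P2) : nv2 y u (mul2 l m) ≤ nv2 y u l * nv2 y u m :=
  nvp_mul (nv1_add u) (nv1_mul u) rfl y l m

theorem nv3_mul (x y u : ℕ) (l m : P3) : nv3 x y u (mul3 l m) ≤ nv3 x y u l * nv3 x y u m :=
  nvp_mul (nv2_add y u) (nv2_mul y u) rfl x l m

theorem nv1_sc (c : ℤ) (u : ℕ) (l : P1) : nv1 u (sc1 c l) ≤ c.natAbs * nv1 u l :=
  nvp_map (fun a => (Int.natAbs_mul c a).le) u l

theorem nv2_sc (c : ℤ) (y u : ℕ) (l : P2) : nv2 y u (sc2 c l) ≤ c.natAbs * nv2 y u l :=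
  nvp_map (nv1_sc c u) y l

theorem nv3_sc (c : ℤ) (x y u : ℕ) (l : P3) : nv3 x y u (sc3 c l) ≤ c.natAbs * nv3 x y u l :=
  nvp_map (nv2_sc c y u) x l

theorem kv1_le (u : ℕ) (l : P1) : (kv1 (u : ℤ) l).natAbs ≤ nv1 u l := kvp_le (fun _ => le_rfl) u l

theorem kv2_le (y u : ℕ) (l : P2) : (kv2 (y : ℤ) (u : ℤ) l).natAbs ≤ nv2 y u l :=
  kvp_le (kv1_le u) y l

/-- Kronecker substitution. -/
theorem kron {T : P3} {X Y U : ℕ} (h1 : nv3 1 1 1 T < U) (h2 : nv3 1 1 U T < Y)
    (h3 : nv3 1 Y U T < X) (h0 : kv3 (X : ℤ) (Y : ℤ) (U : ℤ) T = 0) (x y u : ℝ) :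
    ev3 x y u T = 0 := by
  have e3 := kvp_zero (kv2_le Y U) T h3 h0
  refine evp_all_zero x T fun a ha => ?_
  have e2 := kvp_zero (kv1_le U) a (lt_of_le_of_lt (nvp_mem (nv := nv2 1 U) T a ha) h2) (e3 a ha)
  refine evp_all_zero y a fun b hb => ?_
  have h4 : nv1 1 b < U := by
    refine lt_of_le_of_lt ?_ h1
    exact (nvp_mem (nv := nv1 1) a b hb).trans (nvp_mem (nv := nv2 1 1) T a ha)
  have e1 := kvp_zero (kv := fun c : ℤ => c) (nv := Int.natAbs) (fun _ => le_rfl) b h4 (e2 b hb)
  refine evp_all_zero u b fun c hc => ?_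
  rw [e1 c hc]
  simp [ev0]

/-! ### Gram forms -/

/-- Linear form. -/
def linZ : List ℤ → List ℤ → ℤ
  | c :: cs, z :: zs => c * z + linZ cs zs
  | _, _ => 0

/-- Quadratic form. -/
def gramZ : List (List ℤ) → List ℤ → List ℤ → ℤ
  | r :: rs, z :: zs, Z => z * linZ r Z + gramZ rs zs Z
  | _, _, _ => 0

/-- Sum of the absolute values. -/
def rn : List ℤ → ℕ
  | [] => 0
  | a :: l => a.natAbs + rn l

/-- Sum of the absolute values. -/
def mn : List (List ℤ) → ℕ
  | [] => 0
  | r :: l => rn r + mn l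

/-- Sum. -/
def sn : List ℕ → ℕ
  | [] => 0
  | a :: l => a + sn l

theorem kv3_lin (x y u : ℤ) : ∀ (c : List ℤ) (Z : List P3),
    kv3 x y u (lin3 c Z) = linZ c (Z.map (kv3 x y u))
  | [], _ => by simp [lin3, linZ, kv3, kvp]
  | _ :: _, [] => by simp [lin3, linZ, kv3, kvp]
  | c :: cs, z :: zs => by
    rw [lin3, kv3_add, kv3_sc, kv3_lin x y u cs zs, List.map_cons, linZ]

theorem kv3_gram (x y u : ℤ) : ∀ (G : List (List ℤ)) (zs Z : List P3),
    kv3 x y u (gram G zs Z) = gramZ G (zs.map (kv3 x y u)) (Z.map (kv3 x y u))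
  | [], _, _ => by simp [gram, gramZ, kv3, kvp]
  | _ :: _, [], _ => by simp [gram, gramZ, kv3, kvp]
  | r :: rs, z :: zs, Z => by
    rw [gram, kv3_add, kv3_mul, kv3_lin, kv3_gram x y u rs zs Z, List.map_cons, gramZ]

theorem nv3_lin (x y u : ℕ) : ∀ (c : List ℤ) (Z : List P3),
    nv3 x y u (lin3 c Z) ≤ rn c * sn (Z.map (nv3 x y u))
  | [], _ => by simp [lin3, nv3, nvp]
  | _ :: _, [] => by simp [lin3, nv3, nvp]
  | c :: cs, z :: zs => by
    rw [lin3]
    refine (nv3_add x y u _ _).trans ?_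
    have h1 := nv3_sc c x y u z
    have h2 := nv3_lin x y u cs zs
    simp only [List.map_cons, rn, sn]
    set p := nv3 x y u z
    set q := sn (zs.map (nv3 x y u))
    calc nv3 x y u (sc3 c z) + nv3 x y u (lin3 cs zs) ≤ c.natAbs * p + rn cs * q :=
          Nat.add_le_add h1 h2
      _ ≤ (c.natAbs + rn cs) * (p + q) := by
          have e : (c.natAbs + rn cs) * (p + q) =
              c.natAbs * p + rn cs * q + (c.natAbs * q + rn cs * p) := by ring
          omega

theorem nv3_gram (x y u : ℕ) : ∀ (G : List (List ℤ)) (zs Z : List P3),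
    nv3 x y u (gram G zs Z) ≤ mn G * (sn (zs.map (nv3 x y u)) * sn (Z.map (nv3 x y u)))
  | [], _, _ => by simp [gram, nv3, nvp]
  | _ :: _, [], _ => by simp [gram, nv3, nvp]
  | r :: rs, z :: zs, Z => by
    rw [gram]
    refine (nv3_add x y u _ _).trans ?_
    have h1 := nv3_mul x y u z (lin3 r Z)
    have h2 := nv3_lin x y u r Z
    have h3 := nv3_gram x y u rs zs Z
    simp only [List.map_cons, mn, sn]
    set p := nv3 x y u z
    set q := sn (zs.map (nv3 x y u))
    set w := sn (Z.map (nv3 x y u))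
    have h4 : nv3 x y u (mul3 z (lin3 r Z)) ≤ p * (rn r * w) := h1.trans (Nat.mul_le_mul_left _ h2)
    calc nv3 x y u (mul3 z (lin3 r Z)) + nv3 x y u (gram rs zs Z)
        ≤ p * (rn r * w) + mn rs * (q * w) := Nat.add_le_add h4 h3
      _ ≤ (rn r + mn rs) * ((p + q) * w) := by
          have e : (rn r + mn rs) * ((p + q) * w) =
              p * (rn r * w) + mn rs * (q * w) + (rn r * (q * w) + mn rs * (p * w)) := by ring
          omega

/-- Value of the sum of the terms. -/
def tsZ (x y u : ℤ) : List Tm → ℤ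
  | [] => 0
  | t :: ts => kv3 x y u t.g * gramZ t.B.G (t.B.Z.map (kv3 x y u)) (t.B.Z.map (kv3 x y u))
      + tsZ x y u ts

/-- Bound for the norm of the sum of the terms. -/
def tsN (x y u : ℕ) : List Tm → ℕ
  | [] => 0
  | t :: ts => nv3 x y u t.g * (mn t.B.G * (sn (t.B.Z.map (nv3 x y u)) *
      sn (t.B.Z.map (nv3 x y u)))) + tsN x y u ts

theorem kv3_tsum (x y u : ℤ) : ∀ ts : List Tm, kv3 x y u (tsum ts) = tsZ x y u ts
  | [] => by simp [tsum, tsZ, kv3, kvp]
  | t :: ts => by
    rw [tsum, kv3_add, kv3_mul, kv3_tsum x y u ts, Blk.poly, kv3_gram, tsZ]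

theorem nv3_tsum (x y u : ℕ) : ∀ ts : List Tm, nv3 x y u (tsum ts) ≤ tsN x y u ts
  | [] => by simp [tsum, tsN, nv3, nvp]
  | t :: ts => by
    rw [tsum, tsN]
    refine (nv3_add x y u _ _).trans (Nat.add_le_add ?_ (nv3_tsum x y u ts))
    refine (nv3_mul x y u _ _).trans (Nat.mul_le_mul_left _ ?_)
    rw [Blk.poly]
    exact nv3_gram x y u _ _ _

/-- The test. -/
def kchk (X Y U : ℕ) (P : P3) (ts : List Tm) : Bool :=
  decide (kv3 (X : ℤ) (Y : ℤ) (U : ℤ) P + tsZ (X : ℤ) (Y : ℤ) (U : ℤ) ts = 0) &&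
    decide (nv3 1 1 1 P + tsN 1 1 1 ts < U) && decide (nv3 1 1 U P + tsN 1 1 U ts < Y) &&
    decide (nv3 1 Y U P + tsN 1 Y U ts < X)

theorem kchk_ok {X Y U : ℕ} {P : P3} {ts : List Tm} (h : kchk X Y U P ts = true) (x y u : ℝ) :
    ev3 x y u P + ev3 x y u (tsum ts) = 0 := by
  unfold kchk at h
  simp only [Bool.and_eq_true, decide_eq_true_eq] at h
  obtain ⟨⟨⟨h0, h1⟩, h2⟩, h3⟩ := h
  rw [← ev3_add]
  have hn : ∀ x y u : ℕ, nv3 x y u (add3 P (tsum ts)) ≤ nv3 x y u P + tsN x y u ts := fun x y u =>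
    (nv3_add x y u _ _).trans (Nat.add_le_add_left (nv3_tsum x y u ts) _)
  refine kron (lt_of_le_of_lt (hn _ _ _) h1) (lt_of_le_of_lt (hn _ _ _) h2)
    (lt_of_le_of_lt (hn _ _ _) h3) ?_ x y u
  rw [kv3_add, kv3_tsum]
  exact h0

/-! ### Fast test for positive semidefiniteness -/

/-- Packed columns. -/
def cp (B : ℤ) : List (List ℤ) → List ℤ
  | [] => []
  | r :: rs => add1 r (sc1 B (cp B rs))

/-- The rows of `s G = L L^T + E`, packed. -/
def rowsOK (B s : ℤ) (C : List ℤ) : List (List ℤ) → List (List ℤ) → List (List ℤ) → Bool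
  | [], [], [] => true
  | g :: G, l :: L, e :: E => decide (s * kv1 B g = linZ l C + kv1 B e) && rowsOK B s C G L E
  | _, _, _ => false

/-- Diagonal dominance. -/
def domOK : ℕ → List (List ℤ) → Bool
  | _, [] => true
  | i, r :: rs => decide ((rn r : ℤ) ≤ 2 * r.getD i 0) && domOK (i + 1) rs

/-- The fast test. -/
def psdF (n : ℕ) (s : ℤ) (G L E : List (List ℤ)) (B : ℕ) : Bool :=
  decide (0 < s) && (G.length == n) && (G.all fun r => r.length == n) &&
    (L.length == n) && (L.all fun r => r.length == n) &&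
    (E.length == n) && (E.all fun r => r.length == n) &&
    (cp (B : ℤ) G == G.map (kv1 (B : ℤ))) &&
    rowsOK (B : ℤ) s (cp (B : ℤ) L) G L E &&
    decide (s.natAbs * mn G + mn L * mn L + mn E + 2 * mn G < B) && domOK 0 E

theorem rn_getD : ∀ (l : List ℤ) (i : ℕ), (l.getD i 0).natAbs ≤ rn l
  | [], i => by simp
  | a :: l, 0 => by simp [rn]
  | a :: l, i + 1 => by
    rw [List.getD_cons_succ, rn]
    exact (rn_getD l i).trans (Nat.le_add_left _ _)

theorem mn_getD : ∀ (M : List (List ℤ)) (i : ℕ), rn (M.getD i []) ≤ mn M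
  | [], i => by simp [rn]
  | a :: l, 0 => by simp [mn]
  | a :: l, i + 1 => by
    rw [List.getD_cons_succ, mn]
    exact (mn_getD l i).trans (Nat.le_add_left _ _)

theorem ge_le (M : List (List ℤ)) (i j : ℕ) : (ge M i j).natAbs ≤ mn M :=
  (rn_getD _ j).trans (mn_getD M i)

theorem kv1_sum (B : ℤ) : ∀ (l : List ℤ) (n : ℕ), l.length = n →
    kv1 B l = ∑ j ∈ range n, l.getD j 0 * B ^ j
  | [], n, h => by
    have : n = 0 := by simpa using h.symm
    subst this
    simp [kv1, kvp]
  | a :: l, n, h => by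
    obtain ⟨m, rfl⟩ : ∃ m, n = m + 1 := ⟨l.length, by simpa using h.symm⟩
    have h' : l.length = m := by simpa using h
    have ih := kv1_sum B l m h'
    rw [Finset.sum_range_succ']
    simp only [List.getD_cons_succ, List.getD_cons_zero, pow_zero, mul_one]
    have e : kv1 B (a :: l) = a + B * kv1 B l := rfl
    rw [e, ih, Finset.mul_sum, add_comm]
    congr 1
    apply Finset.sum_congr rfl
    intro j _
    ring

theorem padd_getD : ∀ (l m : List ℤ) (j : ℕ),
    (add1 l m).getD j 0 = l.getD j 0 + m.getD j 0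
  | [], m, j => by simp [add1, padd]
  | a :: l, [], j => by simp [add1, padd]
  | a :: l, b :: m, 0 => by simp [add1, padd]
  | a :: l, b :: m, j + 1 => by
    have := padd_getD l m j
    simp only [add1, padd, List.getD_cons_succ] at this ⊢
    exact this

theorem sc1_getD (c : ℤ) : ∀ (l : List ℤ) (j : ℕ), (sc1 c l).getD j 0 = c * l.getD j 0
  | [], j => by simp [sc1]
  | a :: l, 0 => by simp [sc1]
  | a :: l, j + 1 => by
    have := sc1_getD c l j
    simp only [sc1, List.map_cons, List.getD_cons_succ] at this ⊢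
    exact this

theorem cp_getD (B : ℤ) : ∀ (M : List (List ℤ)) (n : ℕ), M.length = n → ∀ k,
    (cp B M).getD k 0 = ∑ j ∈ range n, ge M j k * B ^ j
  | [], n, h, k => by
    have : n = 0 := by simpa using h.symm
    subst this
    simp [cp]
  | r :: M, n, h, k => by
    obtain ⟨m, rfl⟩ : ∃ m, n = m + 1 := ⟨M.length, by simpa using h.symm⟩
    have h' : M.length = m := by simpa using h
    rw [cp, padd_getD, sc1_getD, cp_getD B M m h' k, Finset.sum_range_succ']
    simp only [ge, List.getD_cons_succ, List.getD_cons_zero, pow_zero, mul_one]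
    rw [Finset.mul_sum, add_comm]
    congr 1
    apply Finset.sum_congr rfl
    intro j _
    ring

theorem linZ_sum : ∀ (l C : List ℤ) (n : ℕ), l.length = n →
    linZ l C = ∑ k ∈ range n, l.getD k 0 * C.getD k 0
  | [], C, n, h => by
    have : n = 0 := by simpa using h.symm
    subst this
    simp [linZ]
  | a :: l, [], n, h => by simp [linZ]
  | a :: l, c :: C, n, h => by
    obtain ⟨m, rfl⟩ : ∃ m, n = m + 1 := ⟨l.length, by simpa using h.symm⟩
    have h' : l.length = m := by simpa using h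
    rw [linZ, linZ_sum l C m h', Finset.sum_range_succ']
    simp only [List.getD_cons_succ, List.getD_cons_zero]
    ring

/-- Digits are unique. -/
theorem digits_zero {B : ℕ} : ∀ (n : ℕ) (w : ℕ → ℤ), (∀ j < n, (w j).natAbs < B) →
    ∑ j ∈ range n, w j * (B : ℤ) ^ j = 0 → ∀ j < n, w j = 0
  | 0, _, _, _ => by simp
  | n + 1, w, hw, h => by
    rw [Finset.sum_range_succ'] at h
    have e : ∑ k ∈ range n, w (k + 1) * (B : ℤ) ^ (k + 1) =
        (B : ℤ) * ∑ k ∈ range n, w (k + 1) * (B : ℤ) ^ k := by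
      rw [Finset.mul_sum]
      apply Finset.sum_congr rfl
      intro k _
      ring
    rw [e, pow_zero, mul_one] at h
    have h0 := hw 0 (by omega)
    have h2 : (B : ℤ) ∣ w 0 := ⟨-∑ k ∈ range n, w (k + 1) * (B : ℤ) ^ k, by linarith⟩
    have h3 : w 0 = 0 := by
      apply Int.eq_zero_of_abs_lt_dvd h2
      rw [Int.abs_eq_natAbs]
      omega
    rw [h3, add_zero] at h
    have h4 : ∑ k ∈ range n, w (k + 1) * (B : ℤ) ^ k = 0 := by
      rcases mul_eq_zero.1 h with h5 | h5
      · exfalso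
        have : B = 0 := by exact_mod_cast h5
        omega
      · exact h5
    have ih := digits_zero n (fun k => w (k + 1)) (fun k hk => hw (k + 1) (by omega)) h4
    intro j hj
    rcases j with _ | j
    · exact h3
    · exact ih j (by omega)

theorem rowsOK_get {B s : ℤ} {C : List ℤ} : ∀ {G L E : List (List ℤ)},
    rowsOK B s C G L E = true → ∀ i < G.length,
      s * kv1 B (G.getD i []) = linZ (L.getD i []) C + kv1 B (E.getD i [])
  | [], [], [], _, i, hi => by simp at hi
  | g :: G, l :: L, e :: E, h, i, hi => by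
    simp only [rowsOK, Bool.and_eq_true, decide_eq_true_eq] at h
    rcases i with _ | i
    · simpa using h.1
    · simp only [List.getD_cons_succ]
      exact rowsOK_get h.2 i (by simpa using hi)
  | [], [], _ :: _, h, _, _ => by simp [rowsOK] at h
  | [], _ :: _, _, h, _, _ => by simp [rowsOK] at h
  | _ :: _, [], _, h, _, _ => by simp [rowsOK] at h
  | _ :: _, _ :: _, [], h, _, _ => by simp [rowsOK] at h

theorem domOK_get : ∀ {E : List (List ℤ)} {k : ℕ}, domOK k E = true → ∀ i < E.length,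
    (rn (E.getD i []) : ℤ) ≤ 2 * (E.getD i []).getD (k + i) 0
  | [], _, _, i, hi => by simp at hi
  | r :: E, k, h, i, hi => by
    simp only [domOK, Bool.and_eq_true, decide_eq_true_eq] at h
    rcases i with _ | i
    · simpa using h.1
    · have h1 := domOK_get h.2 i (by simpa using hi)
      have e : k + 1 + i = k + (i + 1) := by ring
      rw [e] at h1
      simpa only [List.getD_cons_succ] using h1

theorem rn_sum : ∀ (l : List ℤ) (n : ℕ), l.length = n →
    (rn l : ℤ) = ∑ j ∈ range n, |l.getD j 0|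
  | [], n, h => by
    have : n = 0 := by simpa using h.symm
    subst this
    simp [rn]
  | a :: l, n, h => by
    obtain ⟨m, rfl⟩ : ∃ m, n = m + 1 := ⟨l.length, by simpa using h.symm⟩
    have h' : l.length = m := by simpa using h
    rw [rn, Finset.sum_range_succ']
    simp only [List.getD_cons_succ, List.getD_cons_zero]
    rw [← rn_sum l m h', Int.abs_eq_natAbs]
    push_cast
    ring

theorem allN_of {f : ℕ → Bool} : ∀ {n : ℕ}, (∀ i < n, f i = true) → allN f n = true
  | 0, _ => rfl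
  | n + 1, h => by
    simp only [allN, Bool.and_eq_true]
    exact ⟨allN_of fun i hi => h i (by omega), h n (by omega)⟩

theorem len_getD {M : List (List ℤ)} {n : ℕ} (h : ∀ r ∈ M, r.length = n) {i : ℕ}
    (hi : i < M.length) : (M.getD i []).length = n := by
  rw [List.getD_eq_getElem _ _ hi]
  exact h _ (List.getElem_mem hi)

/-- The fast test implies the test. -/
theorem psdF_ok {n : ℕ} {s : ℤ} {G L E : List (List ℤ)} {B : ℕ} (h : psdF n s G L E B = true) :
    psdOK n s G L = true := by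
  unfold psdF at h
  simp only [Bool.and_eq_true, decide_eq_true_eq, beq_iff_eq, List.all_eq_true] at h
  obtain ⟨⟨⟨⟨⟨⟨⟨⟨⟨⟨hs, hG⟩, hGr⟩, hL⟩, hLr⟩, hE⟩, hEr⟩, hsym⟩, hrows⟩, hB⟩, hdom⟩ := h
  -- symmetry
  have hsy : ∀ i < n, ∀ j < n, ge G i j = ge G j i := by
    intro i hi
    have h1 : (cp (B : ℤ) G).getD i 0 = (G.map (kv1 (B : ℤ))).getD i 0 := by rw [hsym]
    rw [cp_getD (B : ℤ) G n hG i] at h1
    have h2 : (G.map (kv1 (B : ℤ))).getD i 0 = kv1 (B : ℤ) (G.getD i []) := by
      have : (0 : ℤ) = kv1 (B : ℤ) [] := rfl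
      rw [this, List.getD_map (f := kv1 (B : ℤ)) (d := [])]
    rw [h2, kv1_sum (B : ℤ) (G.getD i []) n (len_getD hGr (by omega))] at h1
    have h3 : ∑ j ∈ range n, (ge G i j - ge G j i) * (B : ℤ) ^ j = 0 := by
      simp only [sub_mul, Finset.sum_sub_distrib]
      rw [h1]
      exact sub_self _
    have h4 := digits_zero n (fun j => ge G i j - ge G j i) (fun j _ => by
      have e1 := ge_le G i j
      have e2 := ge_le G j i
      have e3 := Int.natAbs_sub_le (ge G i j) (ge G j i)
      omega) h3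
    intro j hj
    have := h4 j hj
    linarith
  -- rows
  have hrest : ∀ i < n, ∀ j < n, rest n s G L i j = ge E i j := by
    intro i hi
    have h1 := rowsOK_get hrows i (by omega)
    rw [kv1_sum (B : ℤ) (G.getD i []) n (len_getD hGr (by omega)),
      kv1_sum (B : ℤ) (E.getD i []) n (len_getD hEr (by omega)),
      linZ_sum (L.getD i []) _ n (len_getD hLr (by omega))] at h1
    have h2 : ∑ k ∈ range n, (L.getD i []).getD k 0 * (cp (B : ℤ) L).getD k 0 =
        ∑ j ∈ range n, (∑ k ∈ range n, ge L i k * ge L j k) * (B : ℤ) ^ j := by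
      have e1 : ∀ k, (L.getD i []).getD k 0 * (cp (B : ℤ) L).getD k 0 =
          ∑ j ∈ range n, (ge L i k * ge L j k) * (B : ℤ) ^ j := by
        intro k
        rw [cp_getD (B : ℤ) L n hL k, Finset.mul_sum]
        apply Finset.sum_congr rfl
        intro j _
        simp only [ge]
        ring
      rw [Finset.sum_congr rfl fun k _ => e1 k, Finset.sum_comm]
      apply Finset.sum_congr rfl
      intro j _
      rw [Finset.sum_mul]
    rw [h2] at h1
    have h3 : ∑ j ∈ range n, (rest n s G L i j - ge E i j) * (B : ℤ) ^ j = 0 := by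
      have e1 : ∀ j, (rest n s G L i j - ge E i j) * (B : ℤ) ^ j =
          s * ((G.getD i []).getD j 0 * (B : ℤ) ^ j) -
          (∑ k ∈ range n, ge L i k * ge L j k) * (B : ℤ) ^ j -
          (E.getD i []).getD j 0 * (B : ℤ) ^ j := by
        intro j
        unfold rest
        rw [sumN_eq]
        simp only [ge]
        ring
      rw [Finset.sum_congr rfl fun j _ => e1 j, Finset.sum_sub_distrib, Finset.sum_sub_distrib,
        ← Finset.mul_sum]
      linarith
    have hdot : ∀ j, (∑ k ∈ range n, ge L i k * ge L j k).natAbs ≤ mn L * mn L := by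
      intro j
      have h5 : (∑ k ∈ range n, ge L i k * ge L j k).natAbs ≤
          ∑ k ∈ range n, (ge L i k).natAbs * mn L := by
        have h6 : ∀ m : ℕ, (∑ k ∈ range m, ge L i k * ge L j k).natAbs ≤
            ∑ k ∈ range m, (ge L i k).natAbs * mn L := by
          intro m
          induction m with
          | zero => simp
          | succ m ih =>
            rw [Finset.sum_range_succ, Finset.sum_range_succ]
            refine (Int.natAbs_add_le _ _).trans (Nat.add_le_add ih ?_)
            rw [Int.natAbs_mul]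
            exact Nat.mul_le_mul_left _ (ge_le L j m)
        exact h6 n
      refine h5.trans ?_
      rw [← Finset.sum_mul]
      refine Nat.mul_le_mul_right _ ?_
      have h7 : (∑ k ∈ range n, (ge L i k).natAbs : ℕ) = rn (L.getD i []) := by
        have h8 := rn_sum (L.getD i []) n (len_getD hLr (by omega))
        have h9 : ((∑ k ∈ range n, (ge L i k).natAbs : ℕ) : ℤ) = ∑ k ∈ range n, |ge L i k| := by
          push_cast
          apply Finset.sum_congr rfl
          intro k _
          rfl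
        have h10 : ((∑ k ∈ range n, (ge L i k).natAbs : ℕ) : ℤ) = (rn (L.getD i []) : ℤ) := by
          rw [h9, h8]
          rfl
        exact_mod_cast h10
      rw [h7]
      exact mn_getD L i
    have h4 := digits_zero n (fun j => rest n s G L i j - ge E i j) (fun j _ => by
      have e1 := ge_le G i j
      have e2 := ge_le E i j
      have e3 := hdot j
      have e4 : (rest n s G L i j).natAbs ≤ s.natAbs * mn G + mn L * mn L := by
        unfold rest
        rw [sumN_eq]
        refine (Int.natAbs_sub_le _ _).trans (Nat.add_le_add ?_ e3)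
        rw [Int.natAbs_mul]
        exact Nat.mul_le_mul_left _ e1
      have e5 := Int.natAbs_sub_le (rest n s G L i j) (ge E i j)
      omega) h3
    intro j hj
    have := h4 j hj
    linarith
  unfold psdOK
  simp only [Bool.and_eq_true, decide_eq_true_eq, beq_iff_eq, List.all_eq_true]
  refine ⟨⟨⟨⟨hs, hG⟩, hGr⟩, ?_⟩, ?_⟩
  · apply allN_of
    intro i hi
    apply allN_of
    intro j hj
    simp only [beq_iff_eq]
    exact hsy i hi j (by omega)
  · apply allN_of
    intro i hi
    rw [decide_eq_true_eq, sumN_eq]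
    have h1 := domOK_get hdom i (by omega)
    rw [zero_add, rn_sum (E.getD i []) n (len_getD hEr (by omega))] at h1
    have h2 : ∑ j ∈ range n, (if i = j then (0 : ℤ) else |rest n s G L i j|) =
        ∑ j ∈ range n, |(E.getD i []).getD j 0| - |(E.getD i []).getD i 0| := by
      have e1 : ∀ j ∈ range n, (if i = j then (0 : ℤ) else |rest n s G L i j|) =
          |(E.getD i []).getD j 0| - (if i = j then |(E.getD i []).getD i 0| else 0) := by
        intro j hj
        split_ifs with hij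
        · rw [← hij]
          ring
        · rw [hrest i hi j (Finset.mem_range.1 hj)]
          simp [ge]
      rw [Finset.sum_congr rfl e1, Finset.sum_sub_distrib, Finset.sum_ite_eq,
        if_pos (Finset.mem_range.2 hi)]
    rw [h2, hrest i hi i hi]
    have h3 : 0 ≤ ∑ j ∈ range n, |(E.getD i []).getD j 0| :=
      Finset.sum_nonneg fun j _ => abs_nonneg _
    have h4 : 0 ≤ (E.getD i []).getD i 0 := by linarith
    rw [abs_of_nonneg h4]
    have h5 : ge E i i = (E.getD i []).getD i 0 := rfl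
    rw [h5]
    linarith

/-- The fast test for a block. -/
theorem ok_blk {Z : List P3} {G L E : List (List ℤ)} {s : ℤ} {n B : ℕ}
    (h : psdF n s G L E B = true) (hZ : (Z.length == n) = true) :
    (Blk.mk Z G s L).ok = true := by
  have h1 : Z.length = n := by simpa using hZ
  subst h1
  exact psdF_ok h

end Pool.Agent.Lib.MP_b2bfca_co.KX
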