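import Mathlib

/-!
# The extended binary Golay code, in systematic form

The rows of the check matrix are the index lists `Dl`; `cw k` is the code word whose first twelve bits
are the binary digits of `k`.
-/

set_option autoImplicit false

namespace Pool.Agent.Lib.MP_b2bfca_co.KX.Leech

/-- The supports of the twelve parity checks. -/
def Dl : List (List (Fin 24)) :=
  [[1, 2, 3, 4, 5, 6, 7, 8, 9, 10, 11, 12],
   [0, 1, 2, 4, 5, 6, 10, 13],
   [0, 1, 3, 4, 5, 9, 11, 14],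
   [0, 2, 3, 4, 8, 10, 11, 15],
   [0, 1, 2, 3, 7, 9, 10, 16],
   [0, 1, 2, 6, 8, 9, 11, 17],
   [0, 1, 5, 7, 8, 10, 11, 18],
   [0, 4, 6, 7, 9, 10, 11, 19],
   [0, 3, 5, 6, 8, 9, 10, 20],
   [0, 2, 4, 5, 7, 8, 9, 21],
   [0, 1, 3, 4, 6, 7, 8, 22],
   [0, 2, 3, 5, 6, 7, 11, 23]]

/-- The binary digits. -/
def bt (k i : ℕ) : ℕ := k / 2 ^ i % 2

/-- The code words. -/
def cw (k : ℕ) : Fin 24 → ℕ :=
  ![bt k 0, bt k 1, bt k 2, bt k 3, bt k 4, bt k 5, bt k 6, bt k 7, bt k 8, bt k 9, bt k 10, bt k 11,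
    (bt k 1 + bt k 2 + bt k 3 + bt k 4 + bt k 5 + bt k 6 + bt k 7 + bt k 8 + bt k 9 + bt k 10 + bt k 11) % 2,
    (bt k 0 + bt k 1 + bt k 2 + bt k 4 + bt k 5 + bt k 6 + bt k 10) % 2,
    (bt k 0 + bt k 1 + bt k 3 + bt k 4 + bt k 5 + bt k 9 + bt k 11) % 2,
    (bt k 0 + bt k 2 + bt k 3 + bt k 4 + bt k 8 + bt k 10 + bt k 11) % 2,
    (bt k 0 + bt k 1 + bt k 2 + bt k 3 + bt k 7 + bt k 9 + bt k 10) % 2,
    (bt k 0 + bt k 1 + bt k 2 + bt k 6 + bt k 8 + bt k 9 + bt k 11) % 2,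
    (bt k 0 + bt k 1 + bt k 5 + bt k 7 + bt k 8 + bt k 10 + bt k 11) % 2,
    (bt k 0 + bt k 4 + bt k 6 + bt k 7 + bt k 9 + bt k 10 + bt k 11) % 2,
    (bt k 0 + bt k 3 + bt k 5 + bt k 6 + bt k 8 + bt k 9 + bt k 10) % 2,
    (bt k 0 + bt k 2 + bt k 4 + bt k 5 + bt k 7 + bt k 8 + bt k 9) % 2,
    (bt k 0 + bt k 1 + bt k 3 + bt k 4 + bt k 6 + bt k 7 + bt k 8) % 2,
    (bt k 0 + bt k 2 + bt k 3 + bt k 5 + bt k 6 + bt k 7 + bt k 11) % 2]

/-- The weights of the code words. -/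
def wt (k : ℕ) : ℕ :=
  bt k 0 + bt k 1 + bt k 2 + bt k 3 + bt k 4 + bt k 5 + bt k 6 + bt k 7 + bt k 8 + bt k 9 + bt k 10 + bt k 11 +
    ((bt k 1 + bt k 2 + bt k 3 + bt k 4 + bt k 5 + bt k 6 + bt k 7 + bt k 8 + bt k 9 + bt k 10 + bt k 11) % 2) +
    ((bt k 0 + bt k 1 + bt k 2 + bt k 4 + bt k 5 + bt k 6 + bt k 10) % 2) +
    ((bt k 0 + bt k 1 + bt k 3 + bt k 4 + bt k 5 + bt k 9 + bt k 11) % 2) +
    ((bt k 0 + bt k 2 + bt k 3 + bt k 4 + bt k 8 + bt k 10 + bt k 11) % 2) +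
    ((bt k 0 + bt k 1 + bt k 2 + bt k 3 + bt k 7 + bt k 9 + bt k 10) % 2) +
    ((bt k 0 + bt k 1 + bt k 2 + bt k 6 + bt k 8 + bt k 9 + bt k 11) % 2) +
    ((bt k 0 + bt k 1 + bt k 5 + bt k 7 + bt k 8 + bt k 10 + bt k 11) % 2) +
    ((bt k 0 + bt k 4 + bt k 6 + bt k 7 + bt k 9 + bt k 10 + bt k 11) % 2) +
    ((bt k 0 + bt k 3 + bt k 5 + bt k 6 + bt k 8 + bt k 9 + bt k 10) % 2) +
    ((bt k 0 + bt k 2 + bt k 4 + bt k 5 + bt k 7 + bt k 8 + bt k 9) % 2) +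
    ((bt k 0 + bt k 1 + bt k 3 + bt k 4 + bt k 6 + bt k 7 + bt k 8) % 2) +
    ((bt k 0 + bt k 2 + bt k 3 + bt k 5 + bt k 6 + bt k 7 + bt k 11) % 2)

theorem bt_lt (k i : ℕ) : bt k i < 2 := Nat.mod_lt _ (by norm_num)

/-- The weights are `0` or at least `8`, and divisible by four. -/
theorem tabB : ∀ a0 a1 a2 a3 a4 a5 a6 a7 a8 a9 a10 a11 : Bool,
    ((a0.toNat + a1.toNat + a2.toNat + a3.toNat + a4.toNat + a5.toNat + a6.toNat + a7.toNat + a8.toNat + a9.toNat + a10.toNat + a11.toNat +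
      ((a1.toNat + a2.toNat + a3.toNat + a4.toNat + a5.toNat + a6.toNat + a7.toNat + a8.toNat + a9.toNat + a10.toNat + a11.toNat) % 2) +
      ((a0.toNat + a1.toNat + a2.toNat + a4.toNat + a5.toNat + a6.toNat + a10.toNat) % 2) +
      ((a0.toNat + a1.toNat + a3.toNat + a4.toNat + a5.toNat + a9.toNat + a11.toNat) % 2) +
      ((a0.toNat + a2.toNat + a3.toNat + a4.toNat + a8.toNat + a10.toNat + a11.toNat) % 2) +
      ((a0.toNat + a1.toNat + a2.toNat + a3.toNat + a7.toNat + a9.toNat + a10.toNat) % 2) +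
      ((a0.toNat + a1.toNat + a2.toNat + a6.toNat + a8.toNat + a9.toNat + a11.toNat) % 2) +
      ((a0.toNat + a1.toNat + a5.toNat + a7.toNat + a8.toNat + a10.toNat + a11.toNat) % 2) +
      ((a0.toNat + a4.toNat + a6.toNat + a7.toNat + a9.toNat + a10.toNat + a11.toNat) % 2) +
      ((a0.toNat + a3.toNat + a5.toNat + a6.toNat + a8.toNat + a9.toNat + a10.toNat) % 2) +
      ((a0.toNat + a2.toNat + a4.toNat + a5.toNat + a7.toNat + a8.toNat + a9.toNat) % 2) +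
      ((a0.toNat + a1.toNat + a3.toNat + a4.toNat + a6.toNat + a7.toNat + a8.toNat) % 2) +
      ((a0.toNat + a2.toNat + a3.toNat + a5.toNat + a6.toNat + a7.toNat + a11.toNat) % 2) = 0 ∨
    8 ≤ a0.toNat + a1.toNat + a2.toNat + a3.toNat + a4.toNat + a5.toNat + a6.toNat + a7.toNat + a8.toNat + a9.toNat + a10.toNat + a11.toNat +
      ((a1.toNat + a2.toNat + a3.toNat + a4.toNat + a5.toNat + a6.toNat + a7.toNat + a8.toNat + a9.toNat + a10.toNat + a11.toNat) % 2) +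
      ((a0.toNat + a1.toNat + a2.toNat + a4.toNat + a5.toNat + a6.toNat + a10.toNat) % 2) +
      ((a0.toNat + a1.toNat + a3.toNat + a4.toNat + a5.toNat + a9.toNat + a11.toNat) % 2) +
      ((a0.toNat + a2.toNat + a3.toNat + a4.toNat + a8.toNat + a10.toNat + a11.toNat) % 2) +
      ((a0.toNat + a1.toNat + a2.toNat + a3.toNat + a7.toNat + a9.toNat + a10.toNat) % 2) +
      ((a0.toNat + a1.toNat + a2.toNat + a6.toNat + a8.toNat + a9.toNat + a11.toNat) % 2) +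
      ((a0.toNat + a1.toNat + a5.toNat + a7.toNat + a8.toNat + a10.toNat + a11.toNat) % 2) +
      ((a0.toNat + a4.toNat + a6.toNat + a7.toNat + a9.toNat + a10.toNat + a11.toNat) % 2) +
      ((a0.toNat + a3.toNat + a5.toNat + a6.toNat + a8.toNat + a9.toNat + a10.toNat) % 2) +
      ((a0.toNat + a2.toNat + a4.toNat + a5.toNat + a7.toNat + a8.toNat + a9.toNat) % 2) +
      ((a0.toNat + a1.toNat + a3.toNat + a4.toNat + a6.toNat + a7.toNat + a8.toNat) % 2) +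
      ((a0.toNat + a2.toNat + a3.toNat + a5.toNat + a6.toNat + a7.toNat + a11.toNat) % 2)) ∧
    (a0.toNat + a1.toNat + a2.toNat + a3.toNat + a4.toNat + a5.toNat + a6.toNat + a7.toNat + a8.toNat + a9.toNat + a10.toNat + a11.toNat +
      ((a1.toNat + a2.toNat + a3.toNat + a4.toNat + a5.toNat + a6.toNat + a7.toNat + a8.toNat + a9.toNat + a10.toNat + a11.toNat) % 2) +
      ((a0.toNat + a1.toNat + a2.toNat + a4.toNat + a5.toNat + a6.toNat + a10.toNat) % 2) +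
      ((a0.toNat + a1.toNat + a3.toNat + a4.toNat + a5.toNat + a9.toNat + a11.toNat) % 2) +
      ((a0.toNat + a2.toNat + a3.toNat + a4.toNat + a8.toNat + a10.toNat + a11.toNat) % 2) +
      ((a0.toNat + a1.toNat + a2.toNat + a3.toNat + a7.toNat + a9.toNat + a10.toNat) % 2) +
      ((a0.toNat + a1.toNat + a2.toNat + a6.toNat + a8.toNat + a9.toNat + a11.toNat) % 2) +
      ((a0.toNat + a1.toNat + a5.toNat + a7.toNat + a8.toNat + a10.toNat + a11.toNat) % 2) +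
      ((a0.toNat + a4.toNat + a6.toNat + a7.toNat + a9.toNat + a10.toNat + a11.toNat) % 2) +
      ((a0.toNat + a3.toNat + a5.toNat + a6.toNat + a8.toNat + a9.toNat + a10.toNat) % 2) +
      ((a0.toNat + a2.toNat + a4.toNat + a5.toNat + a7.toNat + a8.toNat + a9.toNat) % 2) +
      ((a0.toNat + a1.toNat + a3.toNat + a4.toNat + a6.toNat + a7.toNat + a8.toNat) % 2) +
      ((a0.toNat + a2.toNat + a3.toNat + a5.toNat + a6.toNat + a7.toNat + a11.toNat) % 2)) % 4 = 0) := by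
  decide +kernel

theorem card_wt8 : ((Finset.range 4096).filter fun k => wt k = 8).card = 759 := by
  decide +kernel

theorem dig (k : ℕ) (hk : k < 4096) : k = 1 * bt k 0 + 2 * bt k 1 + 4 * bt k 2 + 8 * bt k 3 + 16 * bt k 4 + 32 * bt k 5 + 64 * bt k 6 + 128 * bt k 7 + 256 * bt k 8 + 512 * bt k 9 + 1024 * bt k 10 + 2048 * bt k 11 := by
  unfold bt
  norm_num
  omega

end Pool.Agent.Lib.MP_b2bfca_co.KX.Leech
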