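import Pool.Agent.Lib.MP_b2bfca_co.KX.Geg
import Pool.Agent.Lib.MP_b2bfca_co.Kappa

/-!
# The linear programming bound with types

The type of the neighbour `j` of the ball `i` is `r_j / (r_i + r_j)`; the types of `j` seen from `i` and
of `i` seen from `j` have sum one; two neighbours of types `a`, `b` in the directions `x`, `y` satisfy
`⟨x, y⟩ ≤ 1 - 2 a b`.
-/

set_option autoImplicit false

namespace Pool.Agent.Lib.MP_b2bfca_co.KX

open Finset

/-- The kernel `F (b, b', ⟨x, x'⟩)` is positive semidefinite on `ℝ × S^(d-1)`. -/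
def PD (d : ℕ) (F : ℝ → ℝ → ℝ → ℝ) : Prop :=
  ∀ (κ : Type) (S : Finset κ) (x : κ → EuclideanSpace ℝ (Fin d)) (b : κ → ℝ),
    (∀ i ∈ S, ‖x i‖ = 1) → 0 ≤ ∑ i ∈ S, ∑ j ∈ S, F (b i) (b j) (inner ℝ (x i) (x j))

theorem PD.zero (d : ℕ) : PD d fun _ _ _ => 0 := by
  intro κ S x b _
  simp

theorem PD.add {d : ℕ} {F G : ℝ → ℝ → ℝ → ℝ} (hF : PD d F) (hG : PD d G) :
    PD d fun a b u => F a b u + G a b u := by
  intro κ S x b hx
  simp only [Finset.sum_add_distrib]
  exact add_nonneg (hF κ S x b hx) (hG κ S x b hx)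

theorem PD.smul {d : ℕ} {F : ℝ → ℝ → ℝ → ℝ} (hF : PD d F) {c : ℝ} (hc : 0 ≤ c) :
    PD d fun a b u => c * F a b u := by
  intro κ S x b hx
  simp only [← Finset.mul_sum]
  exact mul_nonneg hc (hF κ S x b hx)

theorem PD.sum {d : ℕ} {τ : Type*} (T : Finset τ) {F : τ → ℝ → ℝ → ℝ → ℝ}
    (hF : ∀ t ∈ T, PD d (F t)) : PD d fun a b u => ∑ t ∈ T, F t a b u := by
  classical
  induction T using Finset.induction_on with
  | empty => simpa using PD.zero d
  | insert t T ht ih =>
    have h1 := (hF t (Finset.mem_insert_self t T)).add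
      (ih fun s hs => hF s (Finset.mem_insert_of_mem hs))
    simpa only [Finset.sum_insert ht] using h1

theorem PD.congr {d : ℕ} {F G : ℝ → ℝ → ℝ → ℝ} (hF : PD d F) (h : ∀ a b u, G a b u = F a b u) :
    PD d G := by
  have : G = F := by
    funext a b u
    exact h a b u
  rw [this]
  exact hF

/-- One function of the type times one Gegenbauer polynomial. -/
theorem PD.geg {d : ℕ} (hd : 3 ≤ d) (m : ℝ → ℝ) (k : ℕ) :
    PD d fun a b u => m a * m b * KX.geg d k u := by
  intro κ S x b hx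
  exact geg_psd hd S x hx (fun i => m (b i)) k

/-- The same with a nonnegative coefficient. -/
theorem PD.cgeg {d : ℕ} (hd : 3 ≤ d) (m : ℝ → ℝ) (k : ℕ) {c : ℝ} (hc : 0 ≤ c) :
    PD d fun a b u => c * (m a * m b * KX.geg d k u) := (PD.geg hd m k).smul hc

/-- The type of the neighbour `j` seen from `i`. -/
noncomputable def ty {n : ℕ} (r : Fin n → ℝ) (i j : Fin n) : ℝ := r j / (r i + r j)

private lemma ty_add {n : ℕ} {r : Fin n → ℝ} (hr : ∀ i, 0 < r i) (i j : Fin n) :
    ty r i j + ty r j i = 1 := by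
  unfold ty
  have h1 := hr i
  have h2 := hr j
  have h3 : r i + r j ≠ 0 := by linarith
  rw [add_comm (r j) (r i), ← add_div, add_comm (r j) (r i), div_self h3]

private lemma inner_le {V : Type*} [NormedAddCommGroup V] [InnerProductSpace ℝ V] {v v' : V}
    {ρ r r' : ℝ} (hρ : 0 < ρ) (hr : 0 < r) (hr' : 0 < r') (h1 : ‖v‖ = ρ + r) (h2 : ‖v'‖ = ρ + r')
    (h3 : r + r' ≤ ‖v - v'‖) :
    inner ℝ ((‖v‖)⁻¹ • v) ((‖v'‖)⁻¹ • v') ≤ 1 - 2 * (r / (ρ + r)) * (r' / (ρ + r')) := by
  have h4 : ‖v - v'‖ ^ 2 = ‖v‖ ^ 2 - 2 * inner ℝ v v' + ‖v'‖ ^ 2 := norm_sub_sq_real v v'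
  have h5 : (r + r') ^ 2 ≤ ‖v - v'‖ ^ 2 := pow_le_pow_left₀ (by linarith) h3 2
  rw [h4, h1, h2] at h5
  have h6 : inner ℝ v v' ≤ (ρ + r) * (ρ + r') - 2 * (r * r') := by nlinarith
  rw [real_inner_smul_left, real_inner_smul_right, h1, h2]
  have e1 : 0 < ρ + r := by linarith
  have e2 : 0 < ρ + r' := by linarith
  have h7 : (ρ + r)⁻¹ * ((ρ + r')⁻¹ * inner ℝ v v') = inner ℝ v v' / ((ρ + r) * (ρ + r')) := by
    field_simp
  have h8 : 1 - 2 * (r / (ρ + r)) * (r' / (ρ + r'))
      = ((ρ + r) * (ρ + r') - 2 * (r * r')) / ((ρ + r) * (ρ + r')) := by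
    field_simp
  rw [h7, h8]
  exact div_le_div_of_nonneg_right h6 (by positivity)

/-- Neighbours of type at least `al`. -/
noncomputable def nbt {n d : ℕ} (c : Fin n → EuclideanSpace ℝ (Fin d)) (r : Fin n → ℝ) (al : ℝ)
    (i : Fin n) : Finset (Fin n) :=
  univ.filter fun j => i ≠ j ∧ dist (c i) (c j) = r i + r j ∧ al ≤ ty r i j

/-- The hypotheses on the certificate. -/
structure Cert (d : ℕ) (al be c mu : ℝ) (w : ℝ → ℝ) (F : ℝ → ℝ → ℝ → ℝ) : Prop where
  al_pos : 0 < al
  al_le : al ≤ be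
  al_add : al + be = 1
  c_pos : 0 < c
  mu_nonneg : 0 ≤ mu
  w_nonneg : ∀ a, al ≤ a → a ≤ be → 0 ≤ w a
  w_be : 1 ≤ w be
  w_add : ∀ a, al ≤ a → a ≤ be → 1 ≤ w a + w (1 - a)
  pd : PD d fun a b u => F a b u - c * (w a * w b)
  neg : ∀ a b u, al ≤ a → a ≤ be → al ≤ b → b ≤ be → -1 ≤ u → u ≤ 1 - 2 * a * b → F a b u ≤ 0
  diag : ∀ a, al ≤ a → a ≤ be → F a a 1 ≤ c * mu * w a

section

variable {d : ℕ} {al be c mu : ℝ} {w : ℝ → ℝ} {F : ℝ → ℝ → ℝ → ℝ}

/-- The bound for the neighbours of one ball. -/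
theorem Cert.ball (C : Cert d al be c mu w F) {n : ℕ} {ce : Fin n → EuclideanSpace ℝ (Fin d)}
    {r : Fin n → ℝ} (h : IsPacking ce r) (i : Fin n) :
    ∑ j ∈ nbt ce r al i, w (min (ty r i j) be) ≤ mu := by
  classical
  set S := nbt ce r al i with hS
  set x : Fin n → EuclideanSpace ℝ (Fin d) := fun j => (‖ce j - ce i‖)⁻¹ • (ce j - ce i) with hx
  set b : Fin n → ℝ := fun j => min (ty r i j) be with hb
  have hr := h.1
  have hmem : ∀ j ∈ S, i ≠ j ∧ ‖ce j - ce i‖ = r i + r j ∧ al ≤ ty r i j := by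
    intro j hj
    obtain ⟨h1, h2, h3⟩ := (Finset.mem_filter.mp hj).2
    refine ⟨h1, ?_, h3⟩
    rw [← dist_eq_norm, dist_comm]
    exact h2
  have hnorm : ∀ j ∈ S, ‖x j‖ = 1 := by
    intro j hj
    have h1 : ‖ce j - ce i‖ ≠ 0 := by
      rw [(hmem j hj).2.1]
      have := hr i
      have := hr j
      linarith
    simp only [hx]
    rw [norm_smul, norm_inv, norm_norm, inv_mul_cancel₀ h1]
  have hb1 : ∀ j ∈ S, al ≤ b j := fun j hj => le_min (hmem j hj).2.2 C.al_le
  have hb2 : ∀ j, b j ≤ be := fun j => min_le_right _ _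
  have hb3 : ∀ j, b j ≤ ty r i j := fun j => min_le_left _ _
  have hpair : ∀ j ∈ S, ∀ k ∈ S, j ≠ k → F (b j) (b k) (inner ℝ (x j) (x k)) ≤ 0 := by
    intro j hj k hk hjk
    have e1 := hb1 j hj
    have e2 := hb1 k hk
    apply C.neg _ _ _ e1 (hb2 j) e2 (hb2 k)
    · have h1 := abs_real_inner_le_norm (x j) (x k)
      rw [hnorm j hj, hnorm k hk, mul_one] at h1
      exact (abs_le.1 h1).1
    · have h1 := inner_le (hr i) (hr j) (hr k) (hmem j hj).2.1 (hmem k hk).2.1 (by
        have e3 : ce j - ce i - (ce k - ce i) = ce j - ce k := by abel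
        rw [e3, ← dist_eq_norm]
        exact h.2 j k hjk)
      refine h1.trans ?_
      have h2 : b j * b k ≤ ty r i j * ty r i k :=
        mul_le_mul (hb3 j) (hb3 k) (C.al_pos.le.trans e2)
          ((C.al_pos.le.trans e1).trans (hb3 j))
      have h3 : r j / (r i + r j) = ty r i j := rfl
      have h4 : r k / (r i + r k) = ty r i k := rfl
      rw [h3, h4]
      linarith
  have hdiag : ∀ j ∈ S, F (b j) (b j) (inner ℝ (x j) (x j)) ≤ c * mu * w (b j) := by
    intro j hj
    rw [real_inner_self_eq_norm_sq, hnorm j hj, one_pow]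
    exact C.diag _ (hb1 j hj) (hb2 j)
  have hsum : ∑ j ∈ S, ∑ k ∈ S, F (b j) (b k) (inner ℝ (x j) (x k))
      ≤ ∑ j ∈ S, c * mu * w (b j) := by
    apply Finset.sum_le_sum
    intro j hj
    rw [← Finset.add_sum_erase S _ hj]
    have h1 : ∑ k ∈ S.erase j, F (b j) (b k) (inner ℝ (x j) (x k)) ≤ 0 :=
      Finset.sum_nonpos fun k hk =>
        hpair j hj k (Finset.mem_of_mem_erase hk) (Finset.ne_of_mem_erase hk).symm
    have h2 := hdiag j hj
    linarith
  have hpd := C.pd (Fin n) S x b hnorm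
  simp only [Finset.sum_sub_distrib] at hpd
  have e1 : ∑ j ∈ S, ∑ k ∈ S, c * (w (b j) * w (b k)) = c * (∑ j ∈ S, w (b j)) ^ 2 := by
    simp only [← Finset.mul_sum]
    rw [← Finset.sum_mul]
    ring
  rw [e1] at hpd
  rw [← Finset.mul_sum] at hsum
  have hw0 : 0 ≤ ∑ j ∈ S, w (b j) :=
    Finset.sum_nonneg fun j hj => C.w_nonneg _ (hb1 j hj) (hb2 j)
  set W := ∑ j ∈ S, w (b j) with hW
  have h3 : c * W ^ 2 ≤ c * mu * W := by linarith
  by_contra hcon
  push Not at hcon
  have h4 : 0 < W := lt_of_le_of_lt C.mu_nonneg hcon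
  have h5 : c * W * (W - mu) ≤ 0 := by nlinarith
  have h6 : 0 < c * W * (W - mu) := mul_pos (mul_pos C.c_pos h4) (by linarith)
  linarith

theorem Cert.edges_le (C : Cert d al be c mu w F) {n : ℕ} {ce : Fin n → EuclideanSpace ℝ (Fin d)}
    {r : Fin n → ℝ} (h : IsPacking ce r) : (edges ce r : ℝ) ≤ n * mu := by
  classical
  have hr := h.1
  set W : Fin n → Fin n → ℝ := fun i j =>
    if al ≤ ty r i j then w (min (ty r i j) be) else 0 with hW
  have hW1 : ∀ i j, 1 ≤ W i j + W j i := by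
    intro i j
    have hs := ty_add hr i j
    have hs' := C.al_add
    simp only [hW]
    by_cases h1 : al ≤ ty r i j
    · by_cases h2 : al ≤ ty r j i
      · rw [if_pos h1, if_pos h2, min_eq_left (by linarith), min_eq_left (by linarith)]
        have e : ty r j i = 1 - ty r i j := by linarith
        rw [e]
        exact C.w_add _ h1 (by linarith)
      · push Not at h2
        rw [if_pos h1, if_neg (by linarith), min_eq_right (by linarith), add_zero]
        exact C.w_be
    · push Not at h1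
      have h2 : al ≤ ty r j i := by
        have := C.al_le
        linarith
      rw [if_neg (by linarith), if_pos h2, min_eq_right (by linarith), zero_add]
      exact C.w_be
  have h1 : (edges ce r : ℝ) = ∑ i : Fin n, ∑ j : Fin n,
      if i < j ∧ dist (ce i) (ce j) = r i + r j then (1 : ℝ) else 0 := by
    unfold edges
    rw [Finset.card_filter, Fintype.sum_prod_type]
    push_cast
    rfl
  have h2 : (edges ce r : ℝ) ≤ ∑ i : Fin n, ∑ j : Fin n,
      if i < j ∧ dist (ce i) (ce j) = r i + r j then W i j + W j i else 0 := by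
    rw [h1]
    apply Finset.sum_le_sum
    intro i _
    apply Finset.sum_le_sum
    intro j _
    split_ifs
    · exact hW1 i j
    · exact le_rfl
  have h3 : ∑ i : Fin n, ∑ j : Fin n,
      (if i < j ∧ dist (ce i) (ce j) = r i + r j then W i j + W j i else 0)
      = ∑ i : Fin n, ∑ j : Fin n,
        if i ≠ j ∧ dist (ce i) (ce j) = r i + r j then W i j else 0 := by
    have e1 : ∀ i j : Fin n,
        (if i < j ∧ dist (ce i) (ce j) = r i + r j then W i j + W j i else 0)
        = (if i < j ∧ dist (ce i) (ce j) = r i + r j then W i j else 0)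
          + (if i < j ∧ dist (ce i) (ce j) = r i + r j then W j i else 0) := by
      intro i j
      split_ifs <;> simp
    simp only [e1, Finset.sum_add_distrib]
    rw [Finset.sum_comm (f := fun i j =>
      if i < j ∧ dist (ce i) (ce j) = r i + r j then W j i else 0)]
    rw [← Finset.sum_add_distrib]
    apply Finset.sum_congr rfl
    intro i _
    rw [← Finset.sum_add_distrib]
    apply Finset.sum_congr rfl
    intro j _
    rw [dist_comm (ce j) (ce i), add_comm (r j) (r i)]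
    rcases lt_trichotomy i j with h4 | h4 | h4
    · have h5 : ¬ j < i := not_lt.2 h4.le
      have h6 : i ≠ j := h4.ne
      simp [h4, h5, h6]
    · subst h4
      simp
    · have h5 : ¬ i < j := not_lt.2 h4.le
      have h6 : i ≠ j := h4.ne'
      simp [h4, h5, h6]
  have h4 : ∀ i : Fin n, (∑ j : Fin n,
      if i ≠ j ∧ dist (ce i) (ce j) = r i + r j then W i j else 0) ≤ mu := by
    intro i
    refine le_trans (le_of_eq ?_) (C.ball h i)
    rw [nbt, Finset.sum_filter]
    apply Finset.sum_congr rfl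
    intro j _
    simp only [hW]
    by_cases e1 : i ≠ j ∧ dist (ce i) (ce j) = r i + r j
    · by_cases e2 : al ≤ ty r i j
      · rw [if_pos e1, if_pos e2, if_pos ⟨e1.1, e1.2, e2⟩]
      · rw [if_pos e1, if_neg e2, if_neg fun h => e2 h.2.2]
    · rw [if_neg e1, if_neg fun h => e1 ⟨h.1, h.2.1⟩]
  calc (edges ce r : ℝ) ≤ _ := h2
    _ = _ := h3
    _ ≤ ∑ _i : Fin n, mu := Finset.sum_le_sum fun i _ => h4 i
    _ = n * mu := by simp

theorem Cert.E_le (C : Cert d al be c mu w F) (n : ℕ) : (E n d : ℝ) ≤ n * mu := by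
  unfold E
  rcases Set.eq_empty_or_nonempty {e : ℕ | ∃ (c : Fin n → EuclideanSpace ℝ (Fin d))
    (r : Fin n → ℝ), IsPacking c r ∧ e = edges c r} with he | he
  · rw [he]
    simp only [csSup_empty, Nat.bot_eq_zero, Nat.cast_zero]
    exact mul_nonneg (Nat.cast_nonneg n) C.mu_nonneg
  · obtain ⟨ce, r, h, e⟩ := Nat.sSup_mem he (E_bdd n d)
    rw [e]
    exact C.edges_le h

theorem Cert.kappa_le (C : Cert d al be c mu w F) : kappa d ≤ mu := by
  unfold kappa
  refine ciSup_le fun n => ?_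
  rw [div_le_iff₀ (by positivity)]
  have := C.E_le (n + 1)
  push_cast at this
  linarith

end

end Pool.Agent.Lib.MP_b2bfca_co.KX
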