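import Pool.Agent.Lib.MP_b2bfca_co.Limit

/-!
# Lower bounds from lattices

`L` is a subgroup of `ℤ^d` which contains `N0 ℤ^d`, all its nonzero vectors have norm at least `m`, and
`V` is a finite set of vectors of `L` of norm `m`. Then `|V| / 2 ≤ κ_d`.
-/

set_option autoImplicit false

namespace Pool.Agent.Lib.MP_b2bfca_co.KX

open Finset Filter Topology

section

variable {d : ℕ}

/-- The squared norm of an integer vector. -/
def nq (x : Fin d → ℤ) : ℤ := ∑ i, x i ^ 2

/-- The point of the Euclidean space. -/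
noncomputable def pt (x : Fin d → ℤ) : EuclideanSpace ℝ (Fin d) :=
  WithLp.toLp 2 fun i => (x i : ℝ)

private lemma dist_pt (x y : Fin d → ℤ) : dist (pt x) (pt y) = √((nq (x - y) : ℤ) : ℝ) := by
  rw [EuclideanSpace.dist_eq]
  congr 1
  unfold nq
  push_cast
  apply Finset.sum_congr rfl
  intro i _
  rw [Real.dist_eq, sq_abs]
  simp [pt]

theorem pairs_le {m : ℤ} (hm : 0 < m) (S : Finset (Fin d → ℤ)) (hS : S.Nonempty)
    (h1 : ∀ x ∈ S, ∀ y ∈ S, x ≠ y → m ≤ nq (x - y))
    (Q : Finset ((Fin d → ℤ) × (Fin d → ℤ)))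
    (hQ : ∀ p ∈ Q, p.1 ∈ S ∧ p.2 ∈ S ∧ nq (p.1 - p.2) = m) :
    (Q.card : ℝ) ≤ 2 * (kappa d * S.card) := by
  classical
  set e := S.equivFin with he
  set v : Fin S.card → Fin d → ℤ := fun i => (e.symm i : Fin d → ℤ) with hv
  have hvS : ∀ i, v i ∈ S := fun i => (e.symm i).2
  have hvi : Function.Injective v := fun i j h => e.symm.injective (Subtype.ext h)
  have hex : ∀ x ∈ S, ∃ i, v i = x := fun x hx => ⟨e ⟨x, hx⟩, by rw [hv]; simp⟩
  have hmR : (0 : ℝ) < (m : ℝ) := by exact_mod_cast hm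
  set r : ℝ := √(m : ℝ) / 2 with hr
  have hrr : r + r = √(m : ℝ) := by
    rw [hr]
    ring
  have hpack : IsPacking (fun i => pt (v i)) (fun _ => r) := by
    refine ⟨fun i => by positivity, fun i j hij => ?_⟩
    simp only
    rw [hrr, dist_pt]
    apply Real.sqrt_le_sqrt
    exact_mod_cast h1 _ (hvS i) _ (hvS j) fun h => hij (hvi h)
  have hE : edges (fun i => pt (v i)) (fun _ => r) ≤ E S.card d :=
    le_csSup (E_bdd _ _) ⟨_, _, hpack, rfl⟩
  set Fl := univ.filter fun p : Fin S.card × Fin S.card =>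
    p.1 < p.2 ∧ dist (pt (v p.1)) (pt (v p.2)) = r + r with hFl
  have hFl' : edges (fun i => pt (v i)) (fun _ => r) = Fl.card := rfl
  have hsub : Q ⊆ (Fl.image fun p => (v p.1, v p.2)) ∪ (Fl.image fun p => (v p.2, v p.1)) := by
    rintro ⟨x, y⟩ hp
    obtain ⟨hx, hy, hxy⟩ := hQ _ hp
    simp only at hx hy hxy
    obtain ⟨i, rfl⟩ := hex x hx
    obtain ⟨j, rfl⟩ := hex y hy
    have hd : dist (pt (v i)) (pt (v j)) = r + r := by
      rw [dist_pt, hxy, hrr]
    have hij : i ≠ j := by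
      rintro rfl
      rw [dist_self, hrr] at hd
      have : 0 < √(m : ℝ) := Real.sqrt_pos.2 hmR
      linarith
    rw [mem_union, mem_image, mem_image]
    rcases lt_or_gt_of_ne hij with h | h
    · exact Or.inl ⟨(i, j), by rw [hFl, mem_filter]; exact ⟨mem_univ _, h, hd⟩, rfl⟩
    · refine Or.inr ⟨(j, i), ?_, rfl⟩
      rw [hFl, mem_filter]
      refine ⟨mem_univ _, h, ?_⟩
      simp only
      rw [dist_comm, hd]
  have hcard : Q.card ≤ 2 * E S.card d := by
    refine (card_le_card hsub).trans ((card_union_le _ _).trans ?_)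
    have h2 : (Fl.image fun p => (v p.1, v p.2)).card ≤ Fl.card := card_image_le
    have h3 : (Fl.image fun p => (v p.2, v p.1)).card ≤ Fl.card := card_image_le
    rw [hFl'] at hE
    omega
  obtain ⟨n, hn⟩ : ∃ n, S.card = n + 1 := ⟨S.card - 1, by
    have := hS.card_pos
    omega⟩
  have h3 : (E (n + 1) d : ℝ) / ((n : ℝ) + 1) ≤ kappa d := le_ciSup (kappa_bdd d) n
  rw [div_le_iff₀ (by positivity)] at h3
  rw [hn] at hcard
  rw [hn]
  push_cast
  have h4 : (Q.card : ℝ) ≤ 2 * (E (n + 1) d : ℝ) := by exact_mod_cast hcard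
  linarith

/-- The box `[0, M)^d`. -/
noncomputable def box (d : ℕ) (M : ℤ) : Finset (Fin d → ℤ) := Fintype.piFinset fun _ => Finset.Ico 0 M

theorem mem_box {M : ℤ} {x : Fin d → ℤ} : x ∈ box d M ↔ ∀ i, 0 ≤ x i ∧ x i < M := by
  simp [box, Fintype.mem_piFinset]

open Classical in
/-- The points of the lattice in the box. -/
noncomputable def lb (L : AddSubgroup (Fin d → ℤ)) (M : ℤ) : Finset (Fin d → ℤ) :=
  (box d M).filter fun x => x ∈ L

theorem mem_lb {L : AddSubgroup (Fin d → ℤ)} {M : ℤ} {x : Fin d → ℤ} :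
    x ∈ lb L M ↔ (∀ i, 0 ≤ x i ∧ x i < M) ∧ x ∈ L := by
  simp only [lb, Finset.mem_filter, mem_box]

theorem card_lb (L : AddSubgroup (Fin d → ℤ)) {N0 : ℤ} (hN0 : 0 < N0)
    (hN : ∀ v : Fin d → ℤ, (fun i => N0 * v i) ∈ L) (K : ℕ) :
    (lb L (N0 * K)).card = K ^ d * (lb L N0).card := by
  classical
  have hbox : (box d (K : ℤ)).card = K ^ d := by
    simp [box, Fintype.card_piFinset]
  rw [← hbox, ← Finset.card_product]
  refine Finset.card_nbij' (fun x => (fun i => x i / N0, fun i => x i % N0))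
    (fun p => fun i => N0 * p.1 i + p.2 i) ?_ ?_ ?_ ?_
  · intro x hx
    obtain ⟨h1, h2⟩ := mem_lb.1 (Finset.mem_coe.1 hx)
    rw [Finset.mem_coe, Finset.mem_product]
    refine ⟨mem_box.2 fun i => ⟨?_, ?_⟩, mem_lb.2 ⟨fun i => ⟨?_, ?_⟩, ?_⟩⟩
    · exact Int.ediv_nonneg (h1 i).1 hN0.le
    · exact Int.ediv_lt_of_lt_mul hN0 (by rw [mul_comm]; exact (h1 i).2)
    · exact Int.emod_nonneg _ hN0.ne'
    · exact Int.emod_lt_of_pos _ hN0
    · have h3 : (fun i => x i % N0) = x - fun i => N0 * (x i / N0) := by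
        funext i
        simp only [Pi.sub_apply]
        have := Int.emod_add_mul_ediv (x i) N0
        linarith
      show (fun i => x i % N0) ∈ L
      rw [h3]
      exact L.sub_mem h2 (hN _)
  · intro p hp
    rw [Finset.mem_coe, Finset.mem_product] at hp
    have h1 := mem_box.1 hp.1
    obtain ⟨h2, h3⟩ := mem_lb.1 hp.2
    rw [Finset.mem_coe, mem_lb]
    refine ⟨fun i => ⟨?_, ?_⟩, ?_⟩
    · have := mul_nonneg hN0.le (h1 i).1
      have := (h2 i).1
      linarith
    · have h4 : p.1 i + 1 ≤ K := (h1 i).2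
      have h5 := mul_le_mul_of_nonneg_left h4 hN0.le
      have := (h2 i).2
      linarith
    · exact L.add_mem (hN _) h3
  · intro x _
    funext i
    simp only
    have := Int.emod_add_mul_ediv (x i) N0
    linarith
  · intro p hp
    rw [Finset.mem_coe, Finset.mem_product] at hp
    obtain ⟨h2, -⟩ := mem_lb.1 hp.2
    have h4 : ∀ i, (N0 * p.1 i + p.2 i) / N0 = p.1 i := by
      intro i
      rw [Int.mul_add_ediv_left _ _ hN0.ne', Int.ediv_eq_zero_of_lt (h2 i).1 (h2 i).2, add_zero]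
    have h5 : ∀ i, (N0 * p.1 i + p.2 i) % N0 = p.2 i := by
      intro i
      rw [Int.mul_add_emod_self_left, Int.emod_eq_of_lt (h2 i).1 (h2 i).2]
    simp only [h4, h5]

theorem kappa_ge_lattice (L : AddSubgroup (Fin d → ℤ)) {N0 m : ℤ} (hN0 : 0 < N0) (hm : 0 < m)
    (hN : ∀ v : Fin d → ℤ, (fun i => N0 * v i) ∈ L)
    (hL : ∀ v ∈ L, v ≠ 0 → m ≤ nq v)
    (V : Finset (Fin d → ℤ)) (hV : ∀ v ∈ V, v ∈ L ∧ nq v = m) :
    (V.card : ℝ) / 2 ≤ kappa d := by
  classical
  set b : ℕ := m.toNat with hb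
  have hbm : (b : ℤ) = m := Int.toNat_of_nonneg hm.le
  set q : ℕ := (lb L N0).card with hq
  have hq0 : 0 < q := by
    rw [hq, Finset.card_pos]
    exact ⟨0, mem_lb.2 ⟨fun i => ⟨le_rfl, hN0⟩, L.zero_mem⟩⟩
  have hVb : ∀ v ∈ V, ∀ i, |v i| ≤ b * N0 := by
    intro v hv i
    have h1 : v i ^ 2 ≤ nq v := Finset.single_le_sum (f := fun i => v i ^ 2)
      (fun j _ => sq_nonneg _) (Finset.mem_univ i)
    rw [(hV v hv).2] at h1
    have h2 : |v i| ≤ m := by
      rw [← sq_abs] at h1
      by_contra hcon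
      push Not at hcon
      nlinarith [abs_nonneg (v i)]
    rw [hbm]
    nlinarith
  have hmain : ∀ K : ℕ, 2 * b < K →
      (V.card : ℝ) * (((K : ℝ) - 2 * b) / K) ^ d ≤ 2 * kappa d := by
    intro K hK
    obtain ⟨J, hJ⟩ : ∃ J : ℕ, K = J + 2 * b := ⟨K - 2 * b, by omega⟩
    have hJ0 : 0 < J := by omega
    have hK0 : 0 < K := by omega
    set S := lb L (N0 * K) with hS
    set Q : Finset ((Fin d → ℤ) × (Fin d → ℤ)) := ((lb L (N0 * J)) ×ˢ V).image fun p =>
      ((fun i => p.1 i + b * N0), (fun i => p.1 i + b * N0 + p.2 i)) with hQd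
    have hQc : Q.card = (lb L (N0 * J)).card * V.card := by
      rw [hQd, Finset.card_image_of_injOn, Finset.card_product]
      rintro ⟨x, v⟩ _ ⟨y, w⟩ _ h
      simp only [Prod.mk.injEq] at h
      obtain ⟨h1, h2⟩ := h
      have h3 : x = y := by
        funext i
        have := congrFun h1 i
        linarith
      subst h3
      have h4 : v = w := by
        funext i
        have := congrFun h2 i
        linarith
      rw [h4]
    have hshift : (fun _ : Fin d => (b : ℤ) * N0) ∈ L := by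
      have := hN fun _ => (b : ℤ)
      simpa only [mul_comm] using this
    have hQ : ∀ p ∈ Q, p.1 ∈ S ∧ p.2 ∈ S ∧ nq (p.1 - p.2) = m := by
      intro p hp
      rw [hQd, Finset.mem_image] at hp
      obtain ⟨⟨x, v⟩, hxv, rfl⟩ := hp
      rw [Finset.mem_product] at hxv
      obtain ⟨h1, h2⟩ := mem_lb.1 hxv.1
      have h3 := hV v hxv.2
      have h4 := hVb v hxv.2
      simp only at h1 h2 h3 h4
      have hbN : 0 ≤ (b : ℤ) * N0 := by positivity
      have hKJ : N0 * (K : ℤ) = N0 * J + 2 * (b * N0) := by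
        rw [hJ]
        push_cast
        ring
      have h5 : (fun i => x i + b * N0) ∈ L := L.add_mem h2 hshift
      refine ⟨?_, ?_, ?_⟩
      · rw [hS, mem_lb]
        refine ⟨fun i => ⟨?_, ?_⟩, h5⟩
        · have := (h1 i).1
          linarith
        · have := (h1 i).2
          linarith
      · rw [hS, mem_lb]
        refine ⟨fun i => ⟨?_, ?_⟩, L.add_mem h5 h3.1⟩
        · have := (h1 i).1
          have := neg_abs_le (v i)
          have := h4 i
          linarith
        · have := (h1 i).2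
          have := le_abs_self (v i)
          have := h4 i
          linarith
      · rw [← h3.2]
        unfold nq
        apply Finset.sum_congr rfl
        intro i _
        simp only [Pi.sub_apply]
        ring
    have hSne : S.Nonempty := by
      refine ⟨0, mem_lb.2 ⟨fun i => ⟨le_rfl, ?_⟩, L.zero_mem⟩⟩
      have : (0 : ℤ) < K := by exact_mod_cast hK0
      exact mul_pos hN0 this
    have h1 := pairs_le hm S hSne (fun x hx y hy hxy =>
      hL _ (L.sub_mem (mem_lb.1 hx).2 (mem_lb.1 hy).2) (sub_ne_zero.2 hxy)) Q hQ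
    rw [hQc, hS, card_lb L hN0 hN, card_lb L hN0 hN, ← hq] at h1
    push_cast at h1
    have hKR : (0 : ℝ) < K := by exact_mod_cast hK0
    have hqR : (0 : ℝ) < q := by exact_mod_cast hq0
    have h2 : ((K : ℝ) - 2 * b) = J := by
      rw [hJ]
      push_cast
      ring
    rw [h2, div_pow, mul_div_assoc', div_le_iff₀ (by positivity)]
    have h3 : (q : ℝ) * ((V.card : ℝ) * (J : ℝ) ^ d) ≤ q * (2 * kappa d * (K : ℝ) ^ d) := by
      linarith
    exact le_of_mul_le_mul_left h3 hqR
  have hlim : Tendsto (fun K : ℕ => (V.card : ℝ) * (((K : ℝ) - 2 * b) / K) ^ d) atTop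
      (𝓝 ((V.card : ℝ) * 1 ^ d)) := by
    apply Tendsto.const_mul
    apply Tendsto.pow
    have h1 : Tendsto (fun K : ℕ => (1 : ℝ) - 2 * b / (K : ℝ)) atTop (𝓝 (1 - 0)) :=
      tendsto_const_nhds.sub (tendsto_const_div_atTop_nhds_zero_nat _)
    rw [sub_zero] at h1
    refine h1.congr' ?_
    filter_upwards [eventually_gt_atTop 0] with K hK
    have : (K : ℝ) ≠ 0 := by positivity
    field_simp
  rw [one_pow, mul_one] at hlim
  have h2 : (V.card : ℝ) ≤ 2 * kappa d := by
    refine le_of_tendsto hlim ?_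
    filter_upwards [eventually_gt_atTop (2 * b)] with K hK
    exact hmain K hK
  linarith

end

end Pool.Agent.Lib.MP_b2bfca_co.KX
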