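import Pool.Agent.Lib.MP_b2bfca_co.KX.Golay
import Pool.Agent.Lib.MP_b2bfca_co.KX.Low

/-!
# The Leech lattice
-/

set_option autoImplicit false

namespace Pool.Agent.Lib.MP_b2bfca_co.KX.Leech

open Finset

private lemma par {n : ℕ} {c : ℤ} (hc : c = 0 ∨ c = 1) (h : (2 : ℤ) ∣ (n : ℤ) + c) :
    c = (((n % 2 : ℕ)) : ℤ) := by
  omega

theorem sum24 (f : Fin 24 → ℤ) : ∑ i, f i = f 0 + f 1 + f 2 + f 3 + f 4 + f 5 + f 6 + f 7 + f 8 + f 9 + f 10 + f 11 + f 12 + f 13 + f 14 + f 15 + f 16 + f 17 + f 18 + f 19 + f 20 + f 21 + f 22 + f 23 := by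
  simp only [Fin.sum_univ_castSucc, Fin.sum_univ_zero, zero_add]
  rfl

/-- Zero-one vectors satisfying the parity checks. -/
theorem golay_bits (b : Fin 24 → ℤ) (hb : ∀ i, b i = 0 ∨ b i = 1)
    (hp : ∀ l ∈ Dl, (2 : ℤ) ∣ (l.map b).sum) :
    (∑ i, b i = 0 ∨ 8 ≤ ∑ i, b i) ∧ (4 : ℤ) ∣ ∑ i, b i := by
  have hx : ∀ i, ∃ a : Bool, b i = (a.toNat : ℤ) := by
    intro i
    rcases hb i with h | h
    · exact ⟨false, by simp [h]⟩
    · exact ⟨true, by simp [h]⟩

  obtain ⟨a0, h0⟩ := hx 0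
  obtain ⟨a1, h1⟩ := hx 1
  obtain ⟨a2, h2⟩ := hx 2
  obtain ⟨a3, h3⟩ := hx 3
  obtain ⟨a4, h4⟩ := hx 4
  obtain ⟨a5, h5⟩ := hx 5
  obtain ⟨a6, h6⟩ := hx 6
  obtain ⟨a7, h7⟩ := hx 7
  obtain ⟨a8, h8⟩ := hx 8
  obtain ⟨a9, h9⟩ := hx 9
  obtain ⟨a10, h10⟩ := hx 10
  obtain ⟨a11, h11⟩ := hx 11
  have hp' := hp
  simp only [Dl, List.mem_cons, List.not_mem_nil, or_false, forall_eq_or_imp, forall_eq,
    List.map_cons, List.map_nil, List.sum_cons, List.sum_nil, add_zero] at hp'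
  obtain ⟨p0, p1, p2, p3, p4, p5, p6, p7, p8, p9, p10, p11⟩ := hp'
  have g0 : b 12 = ((((a1.toNat + a2.toNat + a3.toNat + a4.toNat + a5.toNat + a6.toNat + a7.toNat + a8.toNat + a9.toNat + a10.toNat + a11.toNat) % 2 : ℕ)) : ℤ) := by
    refine par (hb 12) ?_
    rw [h1, h2, h3, h4, h5, h6, h7, h8, h9, h10, h11] at p0
    convert p0 using 1
    push_cast
    ring
  have g1 : b 13 = ((((a0.toNat + a1.toNat + a2.toNat + a4.toNat + a5.toNat + a6.toNat + a10.toNat) % 2 : ℕ)) : ℤ) := by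
    refine par (hb 13) ?_
    rw [h0, h1, h2, h4, h5, h6, h10] at p1
    convert p1 using 1
    push_cast
    ring
  have g2 : b 14 = ((((a0.toNat + a1.toNat + a3.toNat + a4.toNat + a5.toNat + a9.toNat + a11.toNat) % 2 : ℕ)) : ℤ) := by
    refine par (hb 14) ?_
    rw [h0, h1, h3, h4, h5, h9, h11] at p2
    convert p2 using 1
    push_cast
    ring
  have g3 : b 15 = ((((a0.toNat + a2.toNat + a3.toNat + a4.toNat + a8.toNat + a10.toNat + a11.toNat) % 2 : ℕ)) : ℤ) := by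
    refine par (hb 15) ?_
    rw [h0, h2, h3, h4, h8, h10, h11] at p3
    convert p3 using 1
    push_cast
    ring
  have g4 : b 16 = ((((a0.toNat + a1.toNat + a2.toNat + a3.toNat + a7.toNat + a9.toNat + a10.toNat) % 2 : ℕ)) : ℤ) := by
    refine par (hb 16) ?_
    rw [h0, h1, h2, h3, h7, h9, h10] at p4
    convert p4 using 1
    push_cast
    ring
  have g5 : b 17 = ((((a0.toNat + a1.toNat + a2.toNat + a6.toNat + a8.toNat + a9.toNat + a11.toNat) % 2 : ℕ)) : ℤ) := by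
    refine par (hb 17) ?_
    rw [h0, h1, h2, h6, h8, h9, h11] at p5
    convert p5 using 1
    push_cast
    ring
  have g6 : b 18 = ((((a0.toNat + a1.toNat + a5.toNat + a7.toNat + a8.toNat + a10.toNat + a11.toNat) % 2 : ℕ)) : ℤ) := by
    refine par (hb 18) ?_
    rw [h0, h1, h5, h7, h8, h10, h11] at p6
    convert p6 using 1
    push_cast
    ring
  have g7 : b 19 = ((((a0.toNat + a4.toNat + a6.toNat + a7.toNat + a9.toNat + a10.toNat + a11.toNat) % 2 : ℕ)) : ℤ) := by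
    refine par (hb 19) ?_
    rw [h0, h4, h6, h7, h9, h10, h11] at p7
    convert p7 using 1
    push_cast
    ring
  have g8 : b 20 = ((((a0.toNat + a3.toNat + a5.toNat + a6.toNat + a8.toNat + a9.toNat + a10.toNat) % 2 : ℕ)) : ℤ) := by
    refine par (hb 20) ?_
    rw [h0, h3, h5, h6, h8, h9, h10] at p8
    convert p8 using 1
    push_cast
    ring
  have g9 : b 21 = ((((a0.toNat + a2.toNat + a4.toNat + a5.toNat + a7.toNat + a8.toNat + a9.toNat) % 2 : ℕ)) : ℤ) := by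
    refine par (hb 21) ?_
    rw [h0, h2, h4, h5, h7, h8, h9] at p9
    convert p9 using 1
    push_cast
    ring
  have g10 : b 22 = ((((a0.toNat + a1.toNat + a3.toNat + a4.toNat + a6.toNat + a7.toNat + a8.toNat) % 2 : ℕ)) : ℤ) := by
    refine par (hb 22) ?_
    rw [h0, h1, h3, h4, h6, h7, h8] at p10
    convert p10 using 1
    push_cast
    ring
  have g11 : b 23 = ((((a0.toNat + a2.toNat + a3.toNat + a5.toNat + a6.toNat + a7.toNat + a11.toNat) % 2 : ℕ)) : ℤ) := by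
    refine par (hb 23) ?_
    rw [h0, h2, h3, h5, h6, h7, h11] at p11
    convert p11 using 1
    push_cast
    ring
  have hs : ∑ i, b i = (((a0.toNat + a1.toNat + a2.toNat + a3.toNat + a4.toNat + a5.toNat + a6.toNat + a7.toNat + a8.toNat + a9.toNat + a10.toNat + a11.toNat +
      ((a1.toNat + a2.toNat + a3.toNat + a4.toNat + a5.toNat + a6.toNat + a7.toNat + a8.toNat + a9.toNat + a10.toNat + a11.toNat) % 2) +
      ((a0.toNat + a1.toNat + a2.toNat + a4.toNat + a5.toNat + a6.toNat + a10.toNat) % 2) +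
      ((a0.toNat + a1.toNat + a3.toNat + a4.toNat + a5.toNat + a9.toNat + a11.toNat) % 2) +
      ((a0.toNat + a2.toNat + a3.toNat + a4.toNat + a8.toNat + a10.toNat + a11.toNat) % 2) +
      ((a0.toNat + a1.toNat + a2.toNat + a3.toNat + a7.toNat + a9.toNat + a10.toNat) % 2) +
      ((a0.toNat + a1.toNat + a2.toNat + a6.toNat + a8.toNat + a9.toNat + a11.toNat) % 2) +
      ((a0.toNat + a1.toNat + a5.toNat + a7.toNat + a8.toNat + a10.toNat + a11.toNat) % 2) +
      ((a0.toNat + a4.toNat + a6.toNat + a7.toNat + a9.toNat + a10.toNat + a11.toNat) % 2) +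
      ((a0.toNat + a3.toNat + a5.toNat + a6.toNat + a8.toNat + a9.toNat + a10.toNat) % 2) +
      ((a0.toNat + a2.toNat + a4.toNat + a5.toNat + a7.toNat + a8.toNat + a9.toNat) % 2) +
      ((a0.toNat + a1.toNat + a3.toNat + a4.toNat + a6.toNat + a7.toNat + a8.toNat) % 2) +
      ((a0.toNat + a2.toNat + a3.toNat + a5.toNat + a6.toNat + a7.toNat + a11.toNat) % 2) : ℕ)) : ℤ) := by
    rw [sum24, h0, h1, h2, h3, h4, h5, h6, h7, h8, h9, h10, h11, g0, g1, g2, g3, g4, g5, g6, g7, g8, g9, g10, g11]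
    push_cast
    ring
  have ht := tabB a0 a1 a2 a3 a4 a5 a6 a7 a8 a9 a10 a11
  rw [hs]
  refine ⟨?_, ?_⟩
  · rcases ht.1 with h | h
    · left
      exact_mod_cast h
    · right
      exact_mod_cast h
  · have := Nat.dvd_of_mod_eq_zero ht.2
    exact_mod_cast this

end Pool.Agent.Lib.MP_b2bfca_co.KX.Leech
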