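import Pool.Agent.Lib.MP_b2bfca_co.KX.LeechA

/-!
# The Leech lattice: definition and minimal norm
-/

set_option autoImplicit false

namespace Pool.Agent.Lib.MP_b2bfca_co.KX.Leech

open Finset

theorem lsum_add (l : List (Fin 24)) (x y : Fin 24 → ℤ) :
    (l.map (x + y)).sum = (l.map x).sum + (l.map y).sum := by
  induction l with
  | nil => simp
  | cons a l ih =>
    simp only [List.map_cons, List.sum_cons, ih, Pi.add_apply]
    ring

theorem lsum_smul (l : List (Fin 24)) (c : ℤ) (x : Fin 24 → ℤ) :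
    (l.map fun i => c * x i).sum = c * (l.map x).sum := by
  induction l with
  | nil => simp
  | cons a l ih =>
    simp only [List.map_cons, List.sum_cons, ih]
    ring

theorem lsum_neg (l : List (Fin 24)) (x : Fin 24 → ℤ) :
    (l.map (-x)).sum = -(l.map x).sum := by
  have := lsum_smul l (-1) x
  have e : (fun i => (-1 : ℤ) * x i) = -x := by
    funext i
    simp
  rw [e] at this
  rw [this]
  ring

theorem lsum_const (l : List (Fin 24)) (c : ℤ) :
    (l.map fun _ => c).sum = c * l.length := by
  simp [mul_comm]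

/-- The Leech lattice, scaled by `√8`. -/
def L : AddSubgroup (Fin 24 → ℤ) where
  carrier := {x | (∀ i, (2 : ℤ) ∣ x i - x 0) ∧ (∀ l ∈ Dl, (4 : ℤ) ∣ (l.map x).sum) ∧
    (8 : ℤ) ∣ (∑ i, x i) - 4 * x 0}
  zero_mem' := by
    refine ⟨fun i => by simp, fun l _ => ?_, by simp⟩
    have := lsum_const l 0
    rw [zero_mul] at this
    have e : (0 : Fin 24 → ℤ) = fun _ => 0 := rfl
    rw [e, this]
    exact dvd_zero _
  add_mem' := by
    rintro x y ⟨h1, h2, h3⟩ ⟨g1, g2, g3⟩
    refine ⟨fun i => ?_, fun l hl => ?_, ?_⟩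
    · have e : (x + y) i - (x + y) 0 = (x i - x 0) + (y i - y 0) := by
        simp only [Pi.add_apply]
        ring
      rw [e]
      exact dvd_add (h1 i) (g1 i)
    · rw [lsum_add]
      exact dvd_add (h2 l hl) (g2 l hl)
    · have e : (∑ i, (x + y) i) - 4 * (x + y) 0 =
          ((∑ i, x i) - 4 * x 0) + ((∑ i, y i) - 4 * y 0) := by
        simp only [Pi.add_apply, Finset.sum_add_distrib]
        ring
      rw [e]
      exact dvd_add h3 g3
  neg_mem' := by
    rintro x ⟨h1, h2, h3⟩
    refine ⟨fun i => ?_, fun l hl => ?_, ?_⟩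
    · have e : (-x) i - (-x) 0 = -(x i - x 0) := by
        simp only [Pi.neg_apply]
        ring
      rw [e]
      exact dvd_neg.2 (h1 i)
    · rw [lsum_neg]
      exact dvd_neg.2 (h2 l hl)
    · have e : (∑ i, (-x) i) - 4 * (-x) 0 = -((∑ i, x i) - 4 * x 0) := by
        simp only [Pi.neg_apply, Finset.sum_neg_distrib]
        ring
      rw [e]
      exact dvd_neg.2 h3

theorem mem_L {x : Fin 24 → ℤ} : x ∈ L ↔ (∀ i, (2 : ℤ) ∣ x i - x 0) ∧
    (∀ l ∈ Dl, (4 : ℤ) ∣ (l.map x).sum) ∧ (8 : ℤ) ∣ (∑ i, x i) - 4 * x 0 := Iff.rfl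

theorem eight_mem (v : Fin 24 → ℤ) : (fun i => (8 : ℤ) * v i) ∈ L := by
  rw [mem_L]
  refine ⟨fun i => ?_, fun l _ => ?_, ?_⟩
  · exact ⟨4 * v i - 4 * v 0, by ring⟩
  · rw [lsum_smul]
    exact Dvd.dvd.mul_right (by norm_num) _
  · rw [← Finset.mul_sum]
    exact ⟨∑ i, v i - 4 * v 0, by ring⟩

/-- The lists of `Dl` have length `8` or `12`. -/
theorem Dl_len : ∀ l ∈ Dl, (4 : ℤ) ∣ (l.length : ℤ) := by
  intro l hl
  have h : ∀ l ∈ Dl, 4 ∣ l.length := by decide
  exact_mod_cast h l hl

theorem min_even {x : Fin 24 → ℤ} (hx : x ∈ L) (h0 : (2 : ℤ) ∣ x 0) (hne : x ≠ 0) :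
    32 ≤ nq x := by
  obtain ⟨h1, h2, h3⟩ := mem_L.1 hx
  have hy : ∀ i, ∃ y : ℤ, x i = 2 * y := by
    intro i
    have := dvd_add (h1 i) h0
    rw [sub_add_cancel] at this
    exact this
  choose y hy using hy
  have hxy : x = fun i => 2 * y i := funext hy
  -- the parities form a code word
  set b : Fin 24 → ℤ := fun i => y i % 2 with hb
  have hb1 : ∀ i, b i = 0 ∨ b i = 1 := fun i => Int.emod_two_eq_zero_or_one (y i)
  have hyb : ∀ l : List (Fin 24), (2 : ℤ) ∣ (l.map y).sum - (l.map b).sum := by
    intro l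
    induction l with
    | nil => simp
    | cons a l ih =>
      simp only [List.map_cons, List.sum_cons]
      have e : (2 : ℤ) ∣ y a - b a := by
        simp only [hb]
        omega
      have e5 : y a + (l.map y).sum - (b a + (l.map b).sum) =
          (y a - b a) + ((l.map y).sum - (l.map b).sum) := by ring
      rw [e5]
      exact dvd_add e ih
  have hp : ∀ l ∈ Dl, (2 : ℤ) ∣ (l.map b).sum := by
    intro l hl
    have e1 := h2 l hl
    rw [hxy, lsum_smul] at e1
    have e2 : (2 : ℤ) ∣ (l.map y).sum := by omega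
    have e3 := hyb l
    omega
  obtain ⟨hw, _⟩ := golay_bits b hb1 hp
  have hsq : ∀ i, b i ≤ y i ^ 2 := by
    intro i
    rcases hb1 i with h | h
    · rw [h]
      positivity
    · rw [h]
      have : y i ≠ 0 := by
        intro h5
        simp only [hb, h5] at h
        norm_num at h
      have := Int.one_le_abs this
      nlinarith [sq_abs (y i)]
  have hnq : nq x = 4 * ∑ i, y i ^ 2 := by
    unfold nq
    rw [hxy, Finset.mul_sum]
    apply Finset.sum_congr rfl
    intro i _
    ring
  rcases hw with hw | hw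
  · -- all `y i` even
    have hb0 : ∀ i, b i = 0 := by
      intro i
      have h5 : ∀ j ∈ (univ : Finset (Fin 24)), 0 ≤ b j := by
        intro j _
        rcases hb1 j with h | h <;> omega
      exact (Finset.sum_eq_zero_iff_of_nonneg h5).1 hw i (Finset.mem_univ i)
    have hz : ∀ i, ∃ z : ℤ, y i = 2 * z := by
      intro i
      have := hb0 i
      simp only [hb] at this
      exact ⟨y i / 2, by omega⟩
    choose z hz using hz
    have e1 : (2 : ℤ) ∣ ∑ i, z i := by
      have e2 : ∑ i, x i = 4 * ∑ i, z i := by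
        rw [Finset.mul_sum]
        apply Finset.sum_congr rfl
        intro i _
        rw [hy i, hz i]
        ring
      rw [e2, hy 0, hz 0] at h3
      omega
    have e2 : ∑ i, y i ^ 2 = 4 * ∑ i, z i ^ 2 := by
      rw [Finset.mul_sum]
      apply Finset.sum_congr rfl
      intro i _
      rw [hz i]
      ring
    have e3 : (2 : ℤ) ∣ (∑ i, z i ^ 2) - ∑ i, z i := by
      rw [← Finset.sum_sub_distrib]
      apply Finset.dvd_sum
      intro i _
      have e4 : z i ^ 2 - z i = z i * (z i - 1) := by ring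
      rw [e4]
      rcases Int.emod_two_eq_zero_or_one (z i) with h | h
      · exact Dvd.dvd.mul_right (Int.dvd_of_emod_eq_zero h) _
      · exact Dvd.dvd.mul_left (by omega) _
    have e4 : 0 < ∑ i, z i ^ 2 := by
      by_contra hcon
      have h5 : ∑ i, z i ^ 2 = 0 := le_antisymm (not_lt.1 hcon) (Finset.sum_nonneg fun i _ => sq_nonneg _)
      have h6 : ∀ i, z i = 0 := by
        intro i
        have := (Finset.sum_eq_zero_iff_of_nonneg fun i _ => sq_nonneg (z i)).1 h5 i
          (Finset.mem_univ i)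
        exact pow_eq_zero_iff (two_ne_zero) |>.1 this
      apply hne
      funext i
      rw [hy i, hz i, h6 i]
      simp
    rw [hnq, e2]
    omega
  · rw [hnq]
    have := Finset.sum_le_sum fun i (_ : i ∈ (univ : Finset (Fin 24))) => hsq i
    linarith

private lemma sq_eq_one_iff_of_side {z : ℤ} (h : z ^ 2 = 1) : z = 1 ∨ z = -1 := by
  have h1 : (z - 1) * (z + 1) = 0 := by
    have : (z - 1) * (z + 1) = z ^ 2 - 1 := by ring
    rw [this, h]
    norm_num
  rcases mul_eq_zero.1 h1 with h2 | h2
  · left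
    omega
  · right
    omega

theorem min_odd {x : Fin 24 → ℤ} (hx : x ∈ L) (h0 : ¬ (2 : ℤ) ∣ x 0) : 32 ≤ nq x := by
  obtain ⟨h1, h2, h3⟩ := mem_L.1 hx
  have hodd : ∀ i, x i % 2 = 1 := by
    intro i
    have := h1 i
    omega
  by_cases hbig : ∃ i, x i ^ 2 ≠ 1
  · obtain ⟨p, hp⟩ := hbig
    have e1 : ∀ i, 1 ≤ x i ^ 2 := by
      intro i
      have : x i ≠ 0 := by
        intro h
        have := hodd i
        rw [h] at this
        norm_num at this
      have := Int.one_le_abs this
      nlinarith [sq_abs (x i)]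
    have e2 : 9 ≤ x p ^ 2 := by
      have h4 := hodd p
      by_contra hcon
      push Not at hcon
      have h5 : x p < 3 := by nlinarith
      have h6 : -3 < x p := by nlinarith
      have h7 : x p = 1 ∨ x p = -1 := by omega
      rcases h7 with h7 | h7 <;> rw [h7] at hp <;> norm_num at hp
    unfold nq
    rw [← Finset.add_sum_erase _ _ (Finset.mem_univ p)]
    have e3 : ∑ i ∈ univ.erase p, (1 : ℤ) ≤ ∑ i ∈ univ.erase p, x i ^ 2 :=
      Finset.sum_le_sum fun i _ => e1 i
    rw [Finset.sum_const, Finset.card_erase_of_mem (Finset.mem_univ p), Finset.card_univ,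
      Fintype.card_fin] at e3
    have e4 : (24 - 1) • (1 : ℤ) = 23 := by norm_num
    rw [e4] at e3
    linarith
  · exfalso
    push Not at hbig
    have hpm : ∀ i, x i = 1 ∨ x i = -1 := fun i => sq_eq_one_iff_of_side (hbig i)
    set b : Fin 24 → ℤ := fun i => if x i = -1 then 1 else 0 with hb
    have hb1 : ∀ i, b i = 0 ∨ b i = 1 := by
      intro i
      simp only [hb]
      split_ifs
      · exact Or.inr rfl
      · exact Or.inl rfl
    have hxb : ∀ i, x i = 1 - 2 * b i := by
      intro i
      simp only [hb]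
      rcases hpm i with h | h
      · rw [h]
        norm_num
      · rw [h]
        norm_num
    have hl : ∀ l : List (Fin 24), (l.map x).sum = l.length - 2 * (l.map b).sum := by
      intro l
      induction l with
      | nil => simp
      | cons a l ih =>
        simp only [List.map_cons, List.sum_cons, List.length_cons, ih, hxb a]
        push_cast
        ring
    have hp : ∀ l ∈ Dl, (2 : ℤ) ∣ (l.map b).sum := by
      intro l hl'
      have e1 := h2 l hl'
      rw [hl] at e1
      have e2 := Dl_len l hl'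
      omega
    obtain ⟨_, h4⟩ := golay_bits b hb1 hp
    have e1 : ∑ i, x i = 24 - 2 * ∑ i, b i := by
      rw [Finset.mul_sum]
      simp only [hxb, Finset.sum_sub_distrib]
      simp
    rw [e1, hxb 0] at h3
    omega

theorem min_norm {x : Fin 24 → ℤ} (hx : x ∈ L) (hne : x ≠ 0) : 32 ≤ nq x := by
  by_cases h0 : (2 : ℤ) ∣ x 0
  · exact min_even hx h0 hne
  · exact min_odd hx h0

end Pool.Agent.Lib.MP_b2bfca_co.KX.Leech
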