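import Pool.Agent.Lib.MP_b2bfca_co.KX.LeechB

/-!
# The Leech lattice: the minimal vectors
-/

set_option autoImplicit false

namespace Pool.Agent.Lib.MP_b2bfca_co.KX.Leech

open Finset

theorem cw_01 (k : ℕ) (i : Fin 24) : cw k i = 0 ∨ cw k i = 1 := by
  fin_cases i <;> exact Nat.mod_two_eq_zero_or_one _

/-- The code words as integer vectors. -/
def cz (k : ℕ) (i : Fin 24) : ℤ := (cw k i : ℤ)

theorem cz_01 (k : ℕ) (i : Fin 24) : cz k i = 0 ∨ cz k i = 1 := by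
  unfold cz
  rcases cw_01 k i with h | h <;> rw [h]
  · exact Or.inl rfl
  · exact Or.inr rfl

private lemma c0 (k : ℕ) : cz k 0 = (bt k 0 : ℤ) := rfl
private lemma c1 (k : ℕ) : cz k 1 = (bt k 1 : ℤ) := rfl
private lemma c2 (k : ℕ) : cz k 2 = (bt k 2 : ℤ) := rfl
private lemma c3 (k : ℕ) : cz k 3 = (bt k 3 : ℤ) := rfl
private lemma c4 (k : ℕ) : cz k 4 = (bt k 4 : ℤ) := rfl
private lemma c5 (k : ℕ) : cz k 5 = (bt k 5 : ℤ) := rfl
private lemma c6 (k : ℕ) : cz k 6 = (bt k 6 : ℤ) := rfl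
private lemma c7 (k : ℕ) : cz k 7 = (bt k 7 : ℤ) := rfl
private lemma c8 (k : ℕ) : cz k 8 = (bt k 8 : ℤ) := rfl
private lemma c9 (k : ℕ) : cz k 9 = (bt k 9 : ℤ) := rfl
private lemma c10 (k : ℕ) : cz k 10 = (bt k 10 : ℤ) := rfl
private lemma c11 (k : ℕ) : cz k 11 = (bt k 11 : ℤ) := rfl
private lemma c12 (k : ℕ) : cz k 12 = (((bt k 1 + bt k 2 + bt k 3 + bt k 4 + bt k 5 + bt k 6 + bt k 7 + bt k 8 + bt k 9 + bt k 10 + bt k 11) % 2 : ℕ) : ℤ) := rfl
private lemma c13 (k : ℕ) : cz k 13 = (((bt k 0 + bt k 1 + bt k 2 + bt k 4 + bt k 5 + bt k 6 + bt k 10) % 2 : ℕ) : ℤ) := rfl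
private lemma c14 (k : ℕ) : cz k 14 = (((bt k 0 + bt k 1 + bt k 3 + bt k 4 + bt k 5 + bt k 9 + bt k 11) % 2 : ℕ) : ℤ) := rfl
private lemma c15 (k : ℕ) : cz k 15 = (((bt k 0 + bt k 2 + bt k 3 + bt k 4 + bt k 8 + bt k 10 + bt k 11) % 2 : ℕ) : ℤ) := rfl
private lemma c16 (k : ℕ) : cz k 16 = (((bt k 0 + bt k 1 + bt k 2 + bt k 3 + bt k 7 + bt k 9 + bt k 10) % 2 : ℕ) : ℤ) := rfl
private lemma c17 (k : ℕ) : cz k 17 = (((bt k 0 + bt k 1 + bt k 2 + bt k 6 + bt k 8 + bt k 9 + bt k 11) % 2 : ℕ) : ℤ) := rfl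
private lemma c18 (k : ℕ) : cz k 18 = (((bt k 0 + bt k 1 + bt k 5 + bt k 7 + bt k 8 + bt k 10 + bt k 11) % 2 : ℕ) : ℤ) := rfl
private lemma c19 (k : ℕ) : cz k 19 = (((bt k 0 + bt k 4 + bt k 6 + bt k 7 + bt k 9 + bt k 10 + bt k 11) % 2 : ℕ) : ℤ) := rfl
private lemma c20 (k : ℕ) : cz k 20 = (((bt k 0 + bt k 3 + bt k 5 + bt k 6 + bt k 8 + bt k 9 + bt k 10) % 2 : ℕ) : ℤ) := rfl
private lemma c21 (k : ℕ) : cz k 21 = (((bt k 0 + bt k 2 + bt k 4 + bt k 5 + bt k 7 + bt k 8 + bt k 9) % 2 : ℕ) : ℤ) := rfl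
private lemma c22 (k : ℕ) : cz k 22 = (((bt k 0 + bt k 1 + bt k 3 + bt k 4 + bt k 6 + bt k 7 + bt k 8) % 2 : ℕ) : ℤ) := rfl
private lemma c23 (k : ℕ) : cz k 23 = (((bt k 0 + bt k 2 + bt k 3 + bt k 5 + bt k 6 + bt k 7 + bt k 11) % 2 : ℕ) : ℤ) := rfl

theorem cz_par (k : ℕ) : ∀ l ∈ Dl, (2 : ℤ) ∣ (l.map (cz k)).sum := by
  simp only [Dl, List.mem_cons, List.not_mem_nil, or_false, forall_eq_or_imp, forall_eq,
    List.map_cons, List.map_nil, List.sum_cons, List.sum_nil, add_zero]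
  refine ⟨?_, ?_, ?_, ?_, ?_, ?_, ?_, ?_, ?_, ?_, ?_, ?_⟩
  · rw [c1, c2, c3, c4, c5, c6, c7, c8, c9, c10, c11, c12]
    omega
  · rw [c0, c1, c2, c4, c5, c6, c10, c13]
    omega
  · rw [c0, c1, c3, c4, c5, c9, c11, c14]
    omega
  · rw [c0, c2, c3, c4, c8, c10, c11, c15]
    omega
  · rw [c0, c1, c2, c3, c7, c9, c10, c16]
    omega
  · rw [c0, c1, c2, c6, c8, c9, c11, c17]
    omega
  · rw [c0, c1, c5, c7, c8, c10, c11, c18]
    omega
  · rw [c0, c4, c6, c7, c9, c10, c11, c19]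
    omega
  · rw [c0, c3, c5, c6, c8, c9, c10, c20]
    omega
  · rw [c0, c2, c4, c5, c7, c8, c9, c21]
    omega
  · rw [c0, c1, c3, c4, c6, c7, c8, c22]
    omega
  · rw [c0, c2, c3, c5, c6, c7, c11, c23]
    omega

theorem cz_sum (k : ℕ) : ∑ i, cz k i = (wt k : ℤ) := by
  rw [sum24, c0, c1, c2, c3, c4, c5, c6, c7, c8, c9, c10, c11, c12, c13, c14, c15, c16, c17, c18, c19, c20, c21, c22, c23]
  unfold wt
  push_cast
  ring

theorem cw_inj {k k' : ℕ} (hk : k < 4096) (hk' : k' < 4096) (h : ∀ i, cz k i = cz k' i) :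
    k = k' := by

  have e0 : bt k 0 = bt k' 0 := by
    have := h 0
    rw [c0, c0] at this
    exact_mod_cast this
  have e1 : bt k 1 = bt k' 1 := by
    have := h 1
    rw [c1, c1] at this
    exact_mod_cast this
  have e2 : bt k 2 = bt k' 2 := by
    have := h 2
    rw [c2, c2] at this
    exact_mod_cast this
  have e3 : bt k 3 = bt k' 3 := by
    have := h 3
    rw [c3, c3] at this
    exact_mod_cast this
  have e4 : bt k 4 = bt k' 4 := by
    have := h 4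
    rw [c4, c4] at this
    exact_mod_cast this
  have e5 : bt k 5 = bt k' 5 := by
    have := h 5
    rw [c5, c5] at this
    exact_mod_cast this
  have e6 : bt k 6 = bt k' 6 := by
    have := h 6
    rw [c6, c6] at this
    exact_mod_cast this
  have e7 : bt k 7 = bt k' 7 := by
    have := h 7
    rw [c7, c7] at this
    exact_mod_cast this
  have e8 : bt k 8 = bt k' 8 := by
    have := h 8
    rw [c8, c8] at this
    exact_mod_cast this
  have e9 : bt k 9 = bt k' 9 := by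
    have := h 9
    rw [c9, c9] at this
    exact_mod_cast this
  have e10 : bt k 10 = bt k' 10 := by
    have := h 10
    rw [c10, c10] at this
    exact_mod_cast this
  have e11 : bt k 11 = bt k' 11 := by
    have := h 11
    rw [c11, c11] at this
    exact_mod_cast this
  rw [dig k hk, dig k' hk', e0, e1, e2, e3, e4, e5, e6, e7, e8, e9, e10, e11]

theorem wt_four (k : ℕ) : (4 : ℤ) ∣ (wt k : ℤ) := by
  rw [← cz_sum]
  exact (golay_bits (cz k) (cz_01 k) (cz_par k)).2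

end Pool.Agent.Lib.MP_b2bfca_co.KX.Leech
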