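import Pool.Agent.Lib.MP_b2bfca_co.KX.LeechC

/-!
# The 196560 minimal vectors of the Leech lattice
-/

set_option autoImplicit false

namespace Pool.Agent.Lib.MP_b2bfca_co.KX

namespace Leech

open Finset

theorem lsum_lin (l : List (Fin 24)) (α : ℤ) (b e : Fin 24 → ℤ) :
    (l.map fun i => α - 2 * b i - 4 * e i).sum =
      α * l.length - 2 * (l.map b).sum - 4 * (l.map e).sum := by
  induction l with
  | nil => simp
  | cons a l ih =>
    simp only [List.map_cons, List.sum_cons, List.length_cons, ih]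
    push_cast
    ring

/-! ### Shape `(∓3, ±1^23)` -/

/-- The vectors of the third shape. -/
def v3 (p : Fin 24) (k : ℕ) (i : Fin 24) : ℤ :=
  1 - 2 * cz k i - 4 * (if i = p then 1 - 2 * cz k i else 0)

theorem v3_sq (p : Fin 24) (k : ℕ) (i : Fin 24) :
    v3 p k i ^ 2 = 1 + (if i = p then 8 else 0) := by
  unfold v3
  rcases cz_01 k i with h | h <;> rw [h] <;> split_ifs <;> norm_num

theorem v3_odd (p : Fin 24) (k : ℕ) (i : Fin 24) : v3 p k i % 2 = 1 := by
  unfold v3
  rcases cz_01 k i with h | h <;> rw [h] <;> split_ifs <;> norm_num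

theorem v3_mem (p : Fin 24) (k : ℕ) : v3 p k ∈ L := by
  rw [mem_L]
  refine ⟨fun i => ?_, fun l hl => ?_, ?_⟩
  · have h1 := v3_odd p k i
    have h2 := v3_odd p k 0
    omega
  · have h1 := lsum_lin l 1 (cz k) (fun i => if i = p then 1 - 2 * cz k i else 0)
    have h2 := Dl_len l hl
    have h3 := cz_par k l hl
    have h4 : (l.map (v3 p k)).sum = _ := h1
    rw [h4]
    omega
  · have h1 : ∑ i, v3 p k i = 24 - 2 * (wt k : ℤ) - 4 * (1 - 2 * cz k p) := by
      unfold v3
      rw [Finset.sum_sub_distrib, Finset.sum_sub_distrib, ← Finset.mul_sum, ← Finset.mul_sum,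
        cz_sum, Finset.sum_ite_eq' univ p]
      simp
    have h2 := wt_four k
    have h3 := v3_odd p k 0
    rw [h1]
    omega

theorem v3_nq (p : Fin 24) (k : ℕ) : nq (v3 p k) = 32 := by
  unfold nq
  simp only [v3_sq]
  rw [Finset.sum_add_distrib, Finset.sum_ite_eq' univ p]
  simp

theorem v3_inj {p p' : Fin 24} {k k' : ℕ} (hk : k < 4096) (hk' : k' < 4096)
    (h : v3 p k = v3 p' k') : p = p' ∧ k = k' := by
  have hp : p = p' := by
    by_contra hne
    have h1 := v3_sq p k p
    rw [h, v3_sq, if_neg hne, if_pos rfl] at h1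
    norm_num at h1
  subst hp
  refine ⟨rfl, cw_inj hk hk' fun i => ?_⟩
  have h1 := congrFun h i
  unfold v3 at h1
  by_cases hi : i = p
  · rw [if_pos hi, if_pos hi] at h1
    omega
  · rw [if_neg hi, if_neg hi] at h1
    omega

/-- The vectors of the third shape. -/
@[irreducible] def V3 : Finset (Fin 24 → ℤ) :=
  ((univ : Finset (Fin 24)) ×ˢ range 4096).image fun q => v3 q.1 q.2

theorem V3_card : V3.card = 98304 := by
  unfold V3
  rw [Finset.card_image_of_injOn]
  · rw [Finset.card_product, Finset.card_univ, Fintype.card_fin, Finset.card_range]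
  · intro q hq q' hq' h
    have h1 := Finset.mem_product.1 (Finset.mem_coe.1 hq)
    have h2 := Finset.mem_product.1 (Finset.mem_coe.1 hq')
    obtain ⟨e1, e2⟩ := v3_inj (Finset.mem_range.1 h1.2) (Finset.mem_range.1 h2.2) h
    exact Prod.ext e1 e2

/-! ### Shape `(±2^8, 0^16)` -/

/-- The support of a code word. -/
def supp (k : ℕ) : Finset (Fin 24) := univ.filter fun i => cw k i = 1

theorem supp_card (k : ℕ) : (supp k).card = wt k := by
  have h : ((supp k).card : ℤ) = (wt k : ℤ) := by
    rw [← cz_sum]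
    unfold supp cz
    rw [Finset.card_filter]
    push_cast
    apply Finset.sum_congr rfl
    intro i _
    rcases cw_01 k i with h | h <;> rw [h] <;> norm_num
  exact_mod_cast h

theorem cz_supp (k : ℕ) (i : Fin 24) : cz k i = if i ∈ supp k then 1 else 0 := by
  unfold supp cz
  rcases cw_01 k i with h | h <;> simp [h]

/-- The vectors of the second shape. -/
def v2 (k : ℕ) (S : Finset (Fin 24)) (i : Fin 24) : ℤ :=
  0 - 2 * (-cz k i) - 4 * (if i ∈ S then 1 else 0)

theorem v2_mem {k : ℕ} (hk : wt k = 8) {S : Finset (Fin 24)} (hS : Even S.card) :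
    v2 k S ∈ L := by
  rw [mem_L]
  refine ⟨fun i => ?_, fun l hl => ?_, ?_⟩
  · unfold v2
    omega
  · have h1 := lsum_lin l 0 (fun i => -cz k i) (fun i => if i ∈ S then 1 else 0)
    have h3 := cz_par k l hl
    have h4 : (l.map (v2 k S)).sum = _ := h1
    have h5 : (l.map fun i => -cz k i).sum = -(l.map (cz k)).sum := lsum_neg l (cz k)
    rw [h4, h5]
    omega
  · have h1 : ∑ i, v2 k S i = 2 * (wt k : ℤ) - 4 * (S.card : ℤ) := by
      unfold v2
      rw [Finset.sum_sub_distrib, Finset.sum_sub_distrib, ← Finset.mul_sum, ← Finset.mul_sum,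
        Finset.sum_neg_distrib, cz_sum]
      simp
    obtain ⟨m, hm⟩ := hS
    have h2 : v2 k S 0 % 2 = 0 := by
      unfold v2
      omega
    rw [h1, hk, hm]
    push_cast
    omega

theorem v2_sq {k : ℕ} {S : Finset (Fin 24)} (hS : S ⊆ supp k) (i : Fin 24) :
    v2 k S i ^ 2 = 4 * cz k i := by
  unfold v2
  rw [cz_supp]
  by_cases h1 : i ∈ S
  · rw [if_pos h1, if_pos (hS h1)]
    norm_num
  · rw [if_neg h1]
    split_ifs <;> norm_num

theorem v2_nq {k : ℕ} (hk : wt k = 8) {S : Finset (Fin 24)} (hS : S ⊆ supp k) :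
    nq (v2 k S) = 32 := by
  unfold nq
  simp only [v2_sq hS]
  rw [← Finset.mul_sum, cz_sum, hk]
  norm_num

theorem v2_inj {k k' : ℕ} (hk : k < 4096) (hk' : k' < 4096) {S S' : Finset (Fin 24)}
    (hS : S ⊆ supp k) (hS' : S' ⊆ supp k') (h : v2 k S = v2 k' S') : k = k' ∧ S = S' := by
  have e : k = k' := by
    refine cw_inj hk hk' fun i => ?_
    have h1 := v2_sq hS i
    rw [h, v2_sq hS'] at h1
    omega
  subst e
  refine ⟨rfl, ?_⟩
  ext i
  have h1 := congrFun h i
  unfold v2 at h1
  by_cases h2 : i ∈ S <;> by_cases h3 : i ∈ S'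
  · simp [h2, h3]
  · rw [if_pos h2, if_neg h3] at h1
    omega
  · rw [if_neg h2, if_pos h3] at h1
    omega
  · simp [h2, h3]

/-- The point of the support which fixes the parity. -/
noncomputable def q0 (k : ℕ) : Fin 24 :=
  if h : (supp k).Nonempty then (supp k).min' h else 0

open Classical in
/-- The sign set. -/
noncomputable def sg (k : ℕ) (T : Finset (Fin 24)) : Finset (Fin 24) :=
  if Even T.card then T else insert (q0 k) T

theorem sg_props {k : ℕ} (hk : wt k = 8) {T : Finset (Fin 24)} (hT : T ⊆ (supp k).erase (q0 k)) :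
    sg k T ⊆ supp k ∧ Even (sg k T).card ∧ (sg k T).erase (q0 k) = T := by
  have hne : (supp k).Nonempty := by
    rw [← Finset.card_pos, supp_card, hk]
    norm_num
  have hq : q0 k ∈ supp k := by
    unfold q0
    rw [dif_pos hne]
    exact Finset.min'_mem _ _
  have hqT : q0 k ∉ T := fun h => (Finset.mem_erase.1 (hT h)).1 rfl
  have hT2 : T ⊆ supp k := fun x hx => (Finset.mem_erase.1 (hT hx)).2
  unfold sg
  split_ifs with h
  · exact ⟨hT2, h, Finset.erase_eq_of_notMem hqT⟩
  · refine ⟨?_, ?_, ?_⟩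
    · intro x hx
      rcases Finset.mem_insert.1 hx with rfl | hx
      · exact hq
      · exact hT2 hx
    · rw [Finset.card_insert_of_notMem hqT]
      exact (Nat.not_even_iff_odd.1 h).add_one
    · exact Finset.erase_insert hqT

/-- Octads. -/
@[irreducible] def oct : Finset ℕ := (range 4096).filter fun k => wt k = 8

theorem mem_oct {k : ℕ} : k ∈ oct ↔ k < 4096 ∧ wt k = 8 := by
  unfold oct
  rw [Finset.mem_filter, Finset.mem_range]

/-- The vectors of the second shape. -/
@[irreducible] noncomputable def V2 : Finset (Fin 24 → ℤ) :=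
  (oct.sigma fun k => ((supp k).erase (q0 k)).powerset).image fun q => v2 q.1 (sg q.1 q.2)

theorem V2_card : V2.card = 97152 := by
  unfold V2
  rw [Finset.card_image_of_injOn]
  · rw [Finset.card_sigma]
    have h1 : ∀ k ∈ oct, (((supp k).erase (q0 k)).powerset).card = 128 := by
      intro k hk
      have hk8 := (mem_oct.1 hk).2
      have hne : (supp k).Nonempty := by
        rw [← Finset.card_pos, supp_card, hk8]
        norm_num
      have hq : q0 k ∈ supp k := by
        unfold q0
        rw [dif_pos hne]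
        exact Finset.min'_mem _ _
      rw [Finset.card_powerset, Finset.card_erase_of_mem hq, supp_card, hk8]
      norm_num
    rw [Finset.sum_congr rfl h1, Finset.sum_const]
    have h2 : oct.card = 759 := by
      unfold oct
      exact card_wt8
    rw [h2]
    norm_num
  · rintro ⟨k, T⟩ hq ⟨k', T'⟩ hq' h
    rw [Finset.mem_coe, Finset.mem_sigma] at hq hq'
    simp only at hq hq' h
    have h3 := mem_oct.1 hq.1
    have h4 := mem_oct.1 hq'.1
    obtain ⟨g1, _, g3⟩ := sg_props h3.2 (Finset.mem_powerset.1 hq.2)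
    obtain ⟨g4, _, g6⟩ := sg_props h4.2 (Finset.mem_powerset.1 hq'.2)
    obtain ⟨e1, e2⟩ := v2_inj h3.1 h4.1 g1 g4 h
    subst e1
    rw [← g3, ← g6, e2]

/-! ### Shape `(±4^2, 0^22)` -/

/-- A sign. -/
def sn (s : Bool) : ℤ := if s then 1 else -1

theorem sn_sq (s : Bool) : sn s ^ 2 = 1 := by
  cases s <;> simp [sn]

/-- The vectors of the first shape. -/
def v1 (i j : Fin 24) (s t : Bool) (a : Fin 24) : ℤ :=
  4 * ((if a = i then sn s else 0) + (if a = j then sn t else 0))

theorem v1_mem (i j : Fin 24) (s t : Bool) : v1 i j s t ∈ L := by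
  rw [mem_L]
  refine ⟨fun a => ?_, fun l _ => ?_, ?_⟩
  · unfold v1
    omega
  · have h := lsum_smul l 4 (fun a => (if a = i then sn s else 0) + (if a = j then sn t else 0))
    have h4 : (l.map (v1 i j s t)).sum = _ := h
    rw [h4]
    exact dvd_mul_right _ _
  · have h1 : ∑ a, v1 i j s t a = 4 * (sn s + sn t) := by
      unfold v1
      rw [← Finset.mul_sum, Finset.sum_add_distrib, Finset.sum_ite_eq' univ i,
        Finset.sum_ite_eq' univ j]
      simp
    have h2 : (2 : ℤ) ∣ sn s + sn t := by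
      cases s <;> cases t <;> simp [sn]
    rw [h1]
    unfold v1
    omega

theorem v1_nq {i j : Fin 24} (hij : i < j) (s t : Bool) : nq (v1 i j s t) = 32 := by
  have h1 : ∀ a, v1 i j s t a ^ 2 = 16 * ((if a = i then 1 else 0) + (if a = j then 1 else 0)) := by
    intro a
    unfold v1
    have hs := sn_sq s
    have ht := sn_sq t
    by_cases h1 : a = i
    · have h2 : a ≠ j := by
        rw [h1]
        exact hij.ne
      rw [if_pos h1, if_neg h2, if_pos h1, if_neg h2]
      linear_combination 16 * hs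
    · rw [if_neg h1, if_neg h1]
      by_cases h2 : a = j
      · rw [if_pos h2, if_pos h2]
        linear_combination 16 * ht
      · rw [if_neg h2, if_neg h2]
        ring
  unfold nq
  simp only [h1]
  rw [← Finset.mul_sum, Finset.sum_add_distrib, Finset.sum_ite_eq' univ i,
    Finset.sum_ite_eq' univ j]
  simp

theorem sn_ne (s : Bool) : sn s ≠ 0 := by
  cases s <;> simp [sn]

theorem sn_inj {s t : Bool} (h : sn s = sn t) : s = t := by
  cases s <;> cases t <;> simp [sn] at h ⊢

theorem v1_left {i j : Fin 24} (hij : i < j) (s t : Bool) : v1 i j s t i = 4 * sn s := by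
  unfold v1
  rw [if_pos rfl, if_neg hij.ne]
  ring

theorem v1_right {i j : Fin 24} (hij : i < j) (s t : Bool) : v1 i j s t j = 4 * sn t := by
  unfold v1
  rw [if_pos rfl, if_neg hij.ne']
  ring

theorem v1_out {i j a : Fin 24} (s t : Bool) (h : v1 i j s t a ≠ 0) : a = i ∨ a = j := by
  by_contra hcon
  push Not at hcon
  apply h
  unfold v1
  rw [if_neg hcon.1, if_neg hcon.2]
  ring

theorem v1_inj {i j i' j' : Fin 24} (hij : i < j) (hij' : i' < j') {s t s' t' : Bool}
    (h : v1 i j s t = v1 i' j' s' t') : i = i' ∧ j = j' ∧ s = s' ∧ t = t' := by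
  have h1 : i = i' ∨ i = j' := by
    apply v1_out s' t'
    rw [← h, v1_left hij]
    have := sn_ne s
    omega
  have h2 : j = i' ∨ j = j' := by
    apply v1_out s' t'
    rw [← h, v1_right hij]
    have := sn_ne t
    omega
  have h3 : i = i' ∧ j = j' := by
    rcases h1 with h1 | h1 <;> rcases h2 with h2 | h2
    · rw [h1, h2] at hij
      exact absurd hij (lt_irrefl _)
    · exact ⟨h1, h2⟩
    · rw [h1, h2] at hij
      exact absurd hij (lt_asymm hij')
    · rw [h1, h2] at hij
      exact absurd hij (lt_irrefl _)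
  obtain ⟨e1, e2⟩ := h3
  subst e1
  subst e2
  refine ⟨rfl, rfl, ?_, ?_⟩
  · have h4 := congrFun h i
    rw [v1_left hij, v1_left hij] at h4
    exact sn_inj (by omega)
  · have h4 := congrFun h j
    rw [v1_right hij, v1_right hij] at h4
    exact sn_inj (by omega)

/-- Pairs of coordinates. -/
@[irreducible] def prs : Finset (Fin 24 × Fin 24) := univ.filter fun p => p.1 < p.2

theorem mem_prs {p : Fin 24 × Fin 24} : p ∈ prs ↔ p.1 < p.2 := by
  unfold prs
  rw [Finset.mem_filter]
  exact and_iff_right (Finset.mem_univ p)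

theorem prs_card : prs.card = 276 := by
  decide +kernel

/-- The vectors of the first shape. -/
@[irreducible] def V1 : Finset (Fin 24 → ℤ) :=
  (prs ×ˢ (univ : Finset (Bool × Bool))).image fun q => v1 q.1.1 q.1.2 q.2.1 q.2.2

theorem V1_card : V1.card = 1104 := by
  unfold V1
  rw [Finset.card_image_of_injOn]
  · rw [Finset.card_product, prs_card]
    rfl
  · rintro ⟨⟨i, j⟩, ⟨s, t⟩⟩ hq ⟨⟨i', j'⟩, ⟨s', t'⟩⟩ hq' h
    rw [Finset.mem_coe, Finset.mem_product] at hq hq'
    have h1 := mem_prs.1 hq.1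
    have h2 := mem_prs.1 hq'.1
    simp only at h1 h2 h
    obtain ⟨e1, e2, e3, e4⟩ := v1_inj h1 h2 h
    rw [e1, e2, e3, e4]

/-! ### All minimal vectors -/

/-- The minimal vectors. -/
@[irreducible] noncomputable def V : Finset (Fin 24 → ℤ) := (V1 ∪ V2) ∪ V3

private lemma V1_prop {v : Fin 24 → ℤ} (h : v ∈ V1) :
    (v ∈ L ∧ nq v = 32) ∧ (∀ a, v a % 2 = 0) ∧ ∃ a, v a ^ 2 = 16 := by
  unfold V1 at h
  rw [Finset.mem_image] at h
  obtain ⟨⟨⟨i, j⟩, ⟨s, t⟩⟩, hq, rfl⟩ := h
  rw [Finset.mem_product] at hq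
  have h1 := mem_prs.1 hq.1
  simp only at h1
  refine ⟨⟨v1_mem i j s t, v1_nq h1 s t⟩, fun a => ?_, i, ?_⟩
  · simp only [v1]
    omega
  · simp only
    rw [v1_left h1]
    have := sn_sq s
    linear_combination 16 * this

private lemma V2_prop {v : Fin 24 → ℤ} (h : v ∈ V2) :
    (v ∈ L ∧ nq v = 32) ∧ (∀ a, v a % 2 = 0) ∧ ∀ a, v a ^ 2 ≤ 4 := by
  unfold V2 at h
  rw [Finset.mem_image] at h
  obtain ⟨⟨k, T⟩, hq, rfl⟩ := h
  rw [Finset.mem_sigma] at hq
  simp only at hq
  have h3 := mem_oct.1 hq.1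
  obtain ⟨g1, g2, _⟩ := sg_props h3.2 (Finset.mem_powerset.1 hq.2)
  refine ⟨⟨v2_mem h3.2 g2, v2_nq h3.2 g1⟩, fun a => ?_, fun a => ?_⟩
  · simp only [v2]
    omega
  · simp only
    rw [v2_sq g1]
    rcases cz_01 k a with h | h <;> rw [h] <;> norm_num

private lemma V3_prop {v : Fin 24 → ℤ} (h : v ∈ V3) :
    (v ∈ L ∧ nq v = 32) ∧ ∀ a, v a % 2 = 1 := by
  unfold V3 at h
  rw [Finset.mem_image] at h
  obtain ⟨⟨p, k⟩, _, rfl⟩ := h
  exact ⟨⟨v3_mem p k, v3_nq p k⟩, fun a => v3_odd p k a⟩

theorem V_card : V.card = 196560 := by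
  unfold V
  have h12 : Disjoint V1 V2 := by
    rw [Finset.disjoint_left]
    intro v h1 h2
    obtain ⟨_, _, a, ha⟩ := V1_prop h1
    have := (V2_prop h2).2.2 a
    omega
  have h3 : Disjoint (V1 ∪ V2) V3 := by
    rw [Finset.disjoint_left]
    intro v h1 h2
    have e1 := (V3_prop h2).2 0
    rw [Finset.mem_union] at h1
    rcases h1 with h | h
    · have := (V1_prop h).2.1 0
      omega
    · have := (V2_prop h).2.1 0
      omega
  rw [Finset.card_union_of_disjoint h3, Finset.card_union_of_disjoint h12, V1_card, V2_card,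
    V3_card]

theorem V_prop : ∀ v ∈ V, v ∈ L ∧ nq v = 32 := by
  intro v hv
  unfold V at hv
  rw [Finset.mem_union, Finset.mem_union] at hv
  rcases hv with h | h
  · rcases h with h | h
    · exact (V1_prop h).1
    · exact (V2_prop h).1
  · exact (V3_prop h).1

end Leech

theorem kappa24_ge : 98280 ≤ kappa 24 := by
  have h := kappa_ge_lattice Leech.L (N0 := 8) (m := 32) (by norm_num) (by norm_num)
    Leech.eight_mem (fun v hv hne => Leech.min_norm hv hne) Leech.V Leech.V_prop
  rw [Leech.V_card] at h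
  norm_num at h
  exact h

end Pool.Agent.Lib.MP_b2bfca_co.KX
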