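import Pool.Agent.Lib.MP_b2bfca_co.KX.Low

/-!
# The lattice `E_8` and the lower bound `120 ≤ kappa 8`

`L8 = {x ∈ ℤ^8 : all x_i have the same parity, ∑ x_i = 0 mod 4}` (a copy of `E_8` scaled by `2`): minimal
squared norm `8`, with `240` vectors, given by an explicit list of codes (base `5` digits `x_i + 2`).
-/

set_option autoImplicit false

open Finset

namespace Pool.Agent.Lib.MP_b2bfca_co

namespace KX

/-- `E_8`, scaled -/
def L8 : AddSubgroup (Fin 8 → ℤ) where
  carrier := {x | (∀ i, 2 ∣ x i - x 0) ∧ 4 ∣ ∑ i, x i}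
  zero_mem' := by simp
  add_mem' := by
    rintro x y ⟨h1, h2⟩ ⟨h3, h4⟩
    refine ⟨fun i => ?_, ?_⟩
    · have e : (x + y) i - (x + y) 0 = (x i - x 0) + (y i - y 0) := by
        simp only [Pi.add_apply]
        ring
      rw [e]
      exact dvd_add (h1 i) (h3 i)
    · simp only [Pi.add_apply]
      rw [sum_add_distrib]
      exact dvd_add h2 h4
  neg_mem' := by
    rintro x ⟨h1, h2⟩
    refine ⟨fun i => ?_, ?_⟩
    · have e : (-x) i - (-x) 0 = -(x i - x 0) := by
        simp only [Pi.neg_apply]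
        ring
      rw [e]
      exact (h1 i).neg_right
    · simp only [Pi.neg_apply]
      rw [sum_neg_distrib]
      exact h2.neg_right

theorem mem_L8 {x : Fin 8 → ℤ} : x ∈ L8 ↔ (∀ i, 2 ∣ x i - x 0) ∧ 4 ∣ ∑ i, x i := Iff.rfl

theorem L8_mul4 (v : Fin 8 → ℤ) : (fun i => 4 * v i) ∈ L8 := by
  rw [mem_L8]
  refine ⟨fun i => ?_, ?_⟩
  · exact ⟨2 * v i - 2 * v 0, by ring⟩
  · exact dvd_sum fun i _ => dvd_mul_right _ _

theorem L8_norm : ∀ v ∈ L8, v ≠ 0 → 8 ≤ nq v := by
  intro v hv hne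
  obtain ⟨h1, h2⟩ := mem_L8.1 hv
  unfold nq
  by_cases h0 : 2 ∣ v 0
  · -- all even
    have h3 : ∀ i, ∃ c, v i = 2 * c := fun i => by
      have := h1 i
      obtain ⟨a, ha⟩ := h0
      obtain ⟨b, hb⟩ := this
      exact ⟨a + b, by linarith⟩
    choose y hy using h3
    have hs : (2 : ℤ) ∣ ∑ i, y i := by
      have e : ∑ i, v i = 2 * ∑ i, y i := by
        rw [mul_sum]
        exact sum_congr rfl fun i _ => hy i
      rw [e] at h2
      obtain ⟨c, hc⟩ := h2
      exact ⟨c, by linarith⟩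
    have hq : (2 : ℤ) ∣ ∑ i, y i ^ 2 := by
      have e : ∑ i, y i ^ 2 = ∑ i, (y i ^ 2 - y i) + ∑ i, y i := by
        rw [sum_sub_distrib]
        ring
      rw [e]
      refine dvd_add (dvd_sum fun i _ => ?_) hs
      have e2 : y i ^ 2 - y i = (y i - 1) * y i := by ring
      rw [e2]
      rcases Int.even_or_odd (y i) with h | h
      · exact (h.two_dvd).mul_left _
      · refine Dvd.dvd.mul_right ?_ _
        obtain ⟨c, hc⟩ := h
        exact ⟨c, by rw [hc]; ring⟩
    have hne' : ∃ i, y i ≠ 0 := by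
      by_contra h
      push Not at h
      apply hne
      funext i
      rw [hy i, h i]
      rfl
    obtain ⟨i0, hi0⟩ := hne'
    have hpos : 0 < ∑ i, y i ^ 2 := by
      refine sum_pos' (fun i _ => sq_nonneg _) ⟨i0, mem_univ _, ?_⟩
      positivity
    have h4 : 2 ≤ ∑ i, y i ^ 2 := Int.le_of_dvd hpos hq
    have e3 : ∑ i, v i ^ 2 = 4 * ∑ i, y i ^ 2 := by
      rw [mul_sum]
      exact sum_congr rfl fun i _ => by rw [hy i]; ring
    rw [e3]
    linarith
  · have h3 : ∀ i, 1 ≤ v i ^ 2 := by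
      intro i
      have : v i ≠ 0 := by
        intro h
        have h5 := h1 i
        rw [h, zero_sub] at h5
        exact h0 ((dvd_neg).1 h5)
      have h6 : 0 < v i ^ 2 := by positivity
      linarith
    have h4 : ∑ _i : Fin 8, (1 : ℤ) ≤ ∑ i, v i ^ 2 := sum_le_sum fun i _ => h3 i
    simpa using h4

/-- the codes of the `240` minimal vectors -/
def codes8 : List ℕ :=
  [7812, 32812, 37812, 38812, 39012, 39052, 39060, 39064, 39072, 39112, 39312, 40312, 45312,
    70312, 97656, 97668, 97708, 97716, 97908, 97916, 97956, 97968, 98908, 98916, 98956, 98968,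
    99156, 99168, 99208, 99216, 103908, 103916, 103956, 103968, 104156, 104168, 104208, 104216,
    105156, 105168, 105208, 105216, 105408, 105416, 105456, 105468, 128908, 128916, 128956,
    128968, 129156, 129168, 129208, 129216, 130156, 130168, 130208, 130216, 130408, 130416,
    130456, 130468, 135156, 135168, 135208, 135216, 135408, 135416, 135456, 135468, 136408,
    136416, 136456, 136468, 136656, 136668, 136708, 136716, 157812, 162812, 163812, 164012,
    164052, 164060, 164064, 164072, 164112, 164312, 165312, 170312, 187812, 188812, 189012,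
    189052, 189060, 189064, 189072, 189112, 189312, 190312, 193812, 194012, 194052, 194060,
    194064, 194072, 194112, 194312, 195012, 195052, 195060, 195064, 195072, 195112, 195252,
    195260, 195264, 195272, 195300, 195304, 195320, 195324, 195352, 195360, 195364, 195372,
    195512, 195552, 195560, 195564, 195572, 195612, 196312, 196512, 196552, 196560, 196564,
    196572, 196612, 196812, 200312, 201312, 201512, 201552, 201560, 201564, 201572, 201612,
    201812, 202812, 220312, 225312, 226312, 226512, 226552, 226560, 226564, 226572, 226612,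
    226812, 227812, 232812, 253908, 253916, 253956, 253968, 254156, 254168, 254208, 254216,
    255156, 255168, 255208, 255216, 255408, 255416, 255456, 255468, 260156, 260168, 260208,
    260216, 260408, 260416, 260456, 260468, 261408, 261416, 261456, 261468, 261656, 261668,
    261708, 261716, 285156, 285168, 285208, 285216, 285408, 285416, 285456, 285468, 286408,
    286416, 286456, 286468, 286656, 286668, 286708, 286716, 291408, 291416, 291456, 291468,
    291656, 291668, 291708, 291716, 292656, 292668, 292708, 292716, 292908, 292916, 292956,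
    292968, 320312, 345312, 350312, 351312, 351512, 351552, 351560, 351564, 351572, 351612,
    351812, 352812, 357812, 382812]

/-- base `5` digit -/
def dg5 (n i : ℕ) : ℕ := n / 5 ^ i % 5

/-- the vector of a code -/
def vc (n : ℕ) : Fin 8 → ℤ := fun i => (dg5 n i : ℤ) - 2

/-- the check of a code -/
def chk8 (n : ℕ) : Bool :=
  decide (n < 5 ^ 8) && decide (∀ i : Fin 8, dg5 n i % 2 = dg5 n 0 % 2) &&
    decide ((dg5 n 0 + dg5 n 1 + dg5 n 2 + dg5 n 3 + dg5 n 4 + dg5 n 5 + dg5 n 6 + dg5 n 7) % 4 = 0) &&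
    decide (dg5 n 0 ^ 2 + dg5 n 1 ^ 2 + dg5 n 2 ^ 2 + dg5 n 3 ^ 2 + dg5 n 4 ^ 2 + dg5 n 5 ^ 2 + dg5 n 6 ^ 2 +
      dg5 n 7 ^ 2 + 24 = 4 * (dg5 n 0 + dg5 n 1 + dg5 n 2 + dg5 n 3 + dg5 n 4 + dg5 n 5 + dg5 n 6 + dg5 n 7))

theorem codes8_chk : (codes8.all chk8 && decide (codes8.Pairwise (· < ·)) &&
    decide (codes8.length = 240)) = true := by
  decide +kernel

theorem vc_inj {a b : ℕ} (ha : a < 5 ^ 8) (hb : b < 5 ^ 8) (h : vc a = vc b) : a = b := by
  have hd : ∀ i : Fin 8, dg5 a i = dg5 b i := by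
    intro i
    have := congrFun h i
    unfold vc at this
    omega
  have h0 := hd 0
  have h1 := hd 1
  have h2 := hd 2
  have h3 := hd 3
  have h4 := hd 4
  have h5 := hd 5
  have h6 := hd 6
  have h7 := hd 7
  unfold dg5 at h0 h1 h2 h3 h4 h5 h6 h7
  norm_num at h0 h1 h2 h3 h4 h5 h6 h7 ha hb
  omega

/-- the minimal vectors -/
def V8 : Finset (Fin 8 → ℤ) := (codes8.map vc).toFinset

theorem V8_card : V8.card = 240 := by
  have h := codes8_chk
  simp only [Bool.and_eq_true, decide_eq_true_eq] at h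
  obtain ⟨⟨h1, h2⟩, h3⟩ := h
  unfold V8
  rw [List.toFinset_card_of_nodup, List.length_map, h3]
  refine List.Nodup.map_on ?_ (h2.imp fun h => ne_of_lt h)
  intro a ha b hb hab
  have hl : ∀ n ∈ codes8, n < 5 ^ 8 := by
    intro n hn
    have := (List.all_eq_true.1 h1) n hn
    unfold chk8 at this
    simp only [Bool.and_eq_true, decide_eq_true_eq] at this
    exact this.1.1.1
  exact vc_inj (hl a ha) (hl b hb) hab

theorem V8_mem : ∀ v ∈ V8, v ∈ L8 ∧ nq v = 8 := by
  intro v hv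
  unfold V8 at hv
  rw [List.mem_toFinset, List.mem_map] at hv
  obtain ⟨n, hn, rfl⟩ := hv
  have h := codes8_chk
  simp only [Bool.and_eq_true, decide_eq_true_eq] at h
  have h1 := (List.all_eq_true.1 h.1.1) n hn
  unfold chk8 at h1
  simp only [Bool.and_eq_true, decide_eq_true_eq] at h1
  obtain ⟨⟨⟨-, h2⟩, h3⟩, h4⟩ := h1
  constructor
  · rw [mem_L8]
    constructor
    · intro i
      have := h2 i
      unfold vc
      show (2 : ℤ) ∣ ((dg5 n i : ℤ) - 2) - ((dg5 n 0 : ℤ) - 2)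
      omega
    · unfold vc
      rw [Fin.sum_univ_eight]
      show (4 : ℤ) ∣ ((dg5 n 0 : ℤ) - 2) + ((dg5 n 1 : ℤ) - 2) + ((dg5 n 2 : ℤ) - 2) + ((dg5 n 3 : ℤ) - 2) +
        ((dg5 n 4 : ℤ) - 2) + ((dg5 n 5 : ℤ) - 2) + ((dg5 n 6 : ℤ) - 2) + ((dg5 n 7 : ℤ) - 2)
      omega
  · unfold nq vc
    rw [Fin.sum_univ_eight]
    show ((dg5 n 0 : ℤ) - 2) ^ 2 + ((dg5 n 1 : ℤ) - 2) ^ 2 + ((dg5 n 2 : ℤ) - 2) ^ 2 +
      ((dg5 n 3 : ℤ) - 2) ^ 2 + ((dg5 n 4 : ℤ) - 2) ^ 2 + ((dg5 n 5 : ℤ) - 2) ^ 2 +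
      ((dg5 n 6 : ℤ) - 2) ^ 2 + ((dg5 n 7 : ℤ) - 2) ^ 2 = 8
    have h5 : ((dg5 n 0 : ℤ)) ^ 2 + (dg5 n 1 : ℤ) ^ 2 + (dg5 n 2 : ℤ) ^ 2 + (dg5 n 3 : ℤ) ^ 2 +
      (dg5 n 4 : ℤ) ^ 2 + (dg5 n 5 : ℤ) ^ 2 + (dg5 n 6 : ℤ) ^ 2 + (dg5 n 7 : ℤ) ^ 2 + 24 =
      4 * ((dg5 n 0 : ℤ) + dg5 n 1 + dg5 n 2 + dg5 n 3 + dg5 n 4 + dg5 n 5 + dg5 n 6 + dg5 n 7) := by
      exact_mod_cast h4
    linarith

/-- the lower bound in dimension `8` -/
theorem kappa8_ge : (120 : ℝ) ≤ kappa 8 := by
  have h := kappa_ge_lattice L8 (N0 := 4) (m := 8) (by norm_num) (by norm_num) L8_mul4 L8_norm V8 V8_mem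
  rw [V8_card] at h
  norm_num at h
  exact h

end KX

end Pool.Agent.Lib.MP_b2bfca_co
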