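import Pool.Agent.Lib.MP_b2bfca_co.KX.LP

/-!
# The shape of the certificate

`a = 1/2 + h x`, `-1 ≤ x ≤ 1`; the weight is `w(a) = (1 + x)(1 + x/3 - x^2/3)/2`, the kernel is
`(1 + x)(1 + y) Phi(x, y, u)`.
-/

set_option autoImplicit false

namespace Pool.Agent.Lib.MP_b2bfca_co.KX

open Finset

/-- `(1, x, x^2)`. -/
noncomputable def vv (x : ℝ) : Fin 3 → ℝ := ![1, x, x ^ 2]

/-- The quadratic form of a `3 × 3` matrix on `vv x`, `vv y`. -/
noncomputable def qf (N : Fin 3 → Fin 3 → ℝ) (x y : ℝ) : ℝ :=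
  ∑ i, ∑ j, N i j * vv x i * vv y j

/-- A `3 × 3` matrix given as a nonnegative combination of squares. -/
def SQ (N : Fin 3 → Fin 3 → ℝ) : Prop :=
  ∃ (p : Fin 3 → ℝ) (L : Fin 3 → Fin 3 → ℝ), (∀ l, 0 ≤ p l) ∧
    ∀ i j, N i j = ∑ l, p l * (L l i * L l j)

/-- `1 + x/3 - x^2/3`. -/
noncomputable def mq (x : ℝ) : ℝ := 1 + x / 3 - x ^ 2 / 3

/-- The kernel without the factor `(1 + x)(1 + y)`. -/
noncomputable def Phi (d K : ℕ) (c0 : ℝ) (N : ℕ → Fin 3 → Fin 3 → ℝ) (x y u : ℝ) : ℝ :=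
  c0 * mq x * mq y + ∑ k ∈ range (K + 1), qf (N k) x y * geg d k u

/-- The coordinate of the type. -/
noncomputable def xx (h a : ℝ) : ℝ := (a - 1 / 2) / h

/-- The weight. -/
noncomputable def ww (h a : ℝ) : ℝ := (1 + xx h a) * mq (xx h a) / 2

/-- The kernel. -/
noncomputable def FF (d K : ℕ) (c0 h : ℝ) (N : ℕ → Fin 3 → Fin 3 → ℝ) (a b u : ℝ) : ℝ :=
  (1 + xx h a) * (1 + xx h b) * Phi d K c0 N (xx h a) (xx h b) u

private lemma shape_pd {d K : ℕ} (hd : 3 ≤ d) (c0 h : ℝ) {N : ℕ → Fin 3 → Fin 3 → ℝ}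
    (hN : ∀ k, k ≤ K → SQ (N k)) :
    PD d fun a b u => FF d K c0 h N a b u - 4 * c0 * (ww h a * ww h b) := by
  have h1 : PD d fun a b u => ∑ k ∈ range (K + 1),
      (1 + xx h a) * (1 + xx h b) * (qf (N k) (xx h a) (xx h b) * geg d k u) := by
    apply PD.sum
    intro k hk
    obtain ⟨p, L, hp, hL⟩ := hN k (Nat.lt_succ_iff.1 (Finset.mem_range.1 hk))
    have h2 : PD d fun a b u => ∑ l : Fin 3, p l * (((1 + xx h a) * ∑ i, L l i * vv (xx h a) i)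
        * ((1 + xx h b) * ∑ i, L l i * vv (xx h b) i) * geg d k u) := by
      apply PD.sum
      intro l _
      exact PD.cgeg hd (fun a => (1 + xx h a) * ∑ i, L l i * vv (xx h a) i) k (hp l)
    refine h2.congr fun a b u => ?_
    unfold qf
    simp only [hL, Fin.sum_univ_three]
    ring
  refine h1.congr fun a b u => ?_
  unfold FF Phi ww
  rw [← Finset.mul_sum]
  ring

theorem cert_of_shape {d K : ℕ} (hd : 3 ≤ d) {c0 h mu : ℝ} (hc0 : 0 < c0) (hh : 0 < h)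
    (hh2 : h < 1 / 2) (hmu : 0 ≤ mu) {N : ℕ → Fin 3 → Fin 3 → ℝ}
    (hN : ∀ k, k ≤ K → SQ (N k))
    (hneg : ∀ x y u : ℝ, -1 ≤ x → x ≤ 1 → -1 ≤ y → y ≤ 1 → -1 ≤ u →
      u ≤ 1 / 2 - h * (x + y) - 2 * h ^ 2 * (x * y) → Phi d K c0 N x y u ≤ 0)
    (hdiag : ∀ x : ℝ, -1 ≤ x → x ≤ 1 → (1 + x) * Phi d K c0 N x x 1 ≤ 2 * c0 * mu * mq x) :
    Cert d (1 / 2 - h) (1 / 2 + h) (4 * c0) mu (ww h) (FF d K c0 h N) := by
  have hx : ∀ a : ℝ, 1 / 2 - h ≤ a → a ≤ 1 / 2 + h → -1 ≤ xx h a ∧ xx h a ≤ 1 := by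
    intro a h1 h2
    unfold xx
    constructor
    · rw [le_div_iff₀ hh]
      linarith
    · rw [div_le_iff₀ hh]
      linarith
  have hax : ∀ a : ℝ, a = 1 / 2 + h * xx h a := by
    intro a
    unfold xx
    field_simp
    ring
  have hmq : ∀ x : ℝ, -1 ≤ x → x ≤ 1 → 0 ≤ mq x := by
    intro x h1 h2
    unfold mq
    nlinarith
  refine ⟨by linarith, by linarith, by ring, by linarith, hmu, ?_, ?_, ?_, shape_pd hd c0 h hN,
    ?_, ?_⟩
  · intro a h1 h2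
    obtain ⟨h3, h4⟩ := hx a h1 h2
    unfold ww
    have := hmq _ h3 h4
    have h5 : 0 ≤ 1 + xx h a := by linarith
    positivity
  · have h1 : xx h (1 / 2 + h) = 1 := by
      unfold xx
      rw [div_eq_one_iff_eq hh.ne']
      ring
    unfold ww
    rw [h1]
    unfold mq
    norm_num
  · intro a _ _
    have h1 : xx h (1 - a) = - xx h a := by
      unfold xx
      rw [← neg_div]
      congr 1
      ring
    unfold ww
    rw [h1]
    unfold mq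
    apply le_of_eq
    ring
  · intro a b u h1 h2 h3 h4 h5 h6
    obtain ⟨h7, h8⟩ := hx a h1 h2
    obtain ⟨h9, h10⟩ := hx b h3 h4
    have h11 := hneg _ _ u h7 h8 h9 h10 h5 (by
      refine h6.trans (le_of_eq ?_)
      conv_lhs => rw [hax a, hax b]
      ring)
    unfold FF
    have h12 : 0 ≤ (1 + xx h a) * (1 + xx h b) := mul_nonneg (by linarith) (by linarith)
    exact mul_nonpos_of_nonneg_of_nonpos h12 h11
  · intro a h1 h2
    obtain ⟨h3, h4⟩ := hx a h1 h2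
    have h5 := hdiag _ h3 h4
    unfold FF ww
    have h6 : 0 ≤ 1 + xx h a := by linarith
    have h7 := mul_le_mul_of_nonneg_left h5 h6
    linarith

theorem kappa_le_of_shape {d K : ℕ} (hd : 3 ≤ d) {c0 h mu : ℝ} (hc0 : 0 < c0) (hh : 0 < h)
    (hh2 : h < 1 / 2) (hmu : 0 ≤ mu) {N : ℕ → Fin 3 → Fin 3 → ℝ}
    (hN : ∀ k, k ≤ K → SQ (N k))
    (hneg : ∀ x y u : ℝ, -1 ≤ x → x ≤ 1 → -1 ≤ y → y ≤ 1 → -1 ≤ u →
      u ≤ 1 / 2 - h * (x + y) - 2 * h ^ 2 * (x * y) → Phi d K c0 N x y u ≤ 0)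
    (hdiag : ∀ x : ℝ, -1 ≤ x → x ≤ 1 → (1 + x) * Phi d K c0 N x x 1 ≤ 2 * c0 * mu * mq x) :
    kappa d ≤ mu :=
  (cert_of_shape hd hc0 hh hh2 hmu hN hneg hdiag).kappa_le

end Pool.Agent.Lib.MP_b2bfca_co.KX
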